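import Pool.Agent.HSC.Sec

/-!
# HSC/Cls: classification of the parameters of modulus at most three
-/

set_option autoImplicit false

noncomputable section

namespace Pool.Agent.HSC

open Pool.Agent.HSK Pool.Agent.HSG Matrix
open scoped MatrixGroups commutatorElement

variable {w q : ℂ}

private theorem cls_w3 (hw : w ^ 2 + w + 1 = 0) : w ^ 3 = 1 := by linear_combination (w - 1) * hw

private theorem cls_norm {u : ℂ} {n : ℕ} (hn : n ≠ 0) (hu : u ^ n = 1) : ‖u‖ = 1 := by
  have h1 : ‖u‖ ^ n = 1 := by rw [← norm_pow, hu, norm_one]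
  exact (pow_eq_one_iff_of_nonneg (norm_nonneg _) hn).1 h1

private theorem cls_conj (hw : w ^ 2 + w + 1 = 0) : (starRingEnd ℂ) w = -1 - w := by
  have h1 : ‖w‖ = 1 := cls_norm (by norm_num) (cls_w3 hw)
  have h2 : (starRingEnd ℂ) w * w = 1 := by
    rw [mul_comm, Complex.mul_conj, Complex.normSq_eq_norm_sq, h1]
    norm_num
  have h3 : w ≠ 0 := by
    intro h
    rw [h, norm_zero] at h1
    exact zero_ne_one h1
  apply mul_right_cancel₀ h3
  rw [h2]
  linear_combination hw

private theorem cls_oz_conj (hw : w ^ 2 + w + 1 = 0) {z : ℂ} (hz : z ∈ Oz w) :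
    (starRingEnd ℂ) z ∈ Oz w := by
  obtain ⟨x, y, rfl⟩ := hz
  refine ⟨x - y, -y, ?_⟩
  rw [map_add, map_mul, cls_conj hw, map_intCast, map_intCast]
  push_cast
  ring

private theorem cls_w_int (hw : w ^ 2 + w + 1 = 0) : IsIntegral ℤ w :=
  IsIntegral.of_pow (n := 3) (by norm_num) (by rw [cls_w3 hw]; exact isIntegral_one)

private theorem cls_half : ¬ IsIntegral ℤ (1 / 2 : ℂ) := by
  intro h
  have h1 : (1 / 2 : ℂ) = algebraMap ℚ ℂ (1 / 2) := by simp
  rw [h1, isIntegral_algebraMap_iff (algebraMap ℚ ℂ).injective,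
    IsIntegrallyClosed.isIntegral_iff (R := ℤ) (K := ℚ)] at h
  obtain ⟨n, hn⟩ := h
  have h2 : (n : ℚ) * 2 = 1 := by
    have h3 : (n : ℚ) = 1 / 2 := hn
    rw [h3]
    norm_num
  have h3 : n * 2 = 1 := by exact_mod_cast h2
  omega

/-- the last case -/
private theorem cls_last (hw : w ^ 2 + w + 1 = 0) (h : q ^ 2 - (4 + 2 * w) * q + 2 * (1 + w) = 0)
    (h0 : q ≠ 0) : IsIntegral ℤ q ∧ ¬ IsIntegral ℤ q⁻¹ ∧ ‖q‖ < 3 := by
  have hwi := cls_w_int hw
  have h2i : IsIntegral ℤ (2 : ℂ) := by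
    have := isIntegral_algebraMap (R := ℤ) (A := ℂ) (x := 2)
    simpa using this
  set s : ℂ := q - (2 + w) with hs
  have hs2 : s ^ 2 = 1 + w := by
    rw [hs]
    linear_combination h + hw
  have h1w : (1 + w) ^ 3 = -1 := by linear_combination (w + 2) * hw
  have hs12 : s ^ 12 = 1 := by
    calc s ^ 12 = ((s ^ 2) ^ 3) ^ 2 := by ring
      _ = 1 := by rw [hs2, h1w]; norm_num
  have hsn : ‖s‖ = 1 := cls_norm (by norm_num) hs12
  have h1wn : ‖1 + w‖ = 1 := by rw [← hs2, norm_pow, hsn, one_pow]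
  have h2wn : ‖2 + w‖ ^ 2 = 3 := by
    have e : (2 + w) ^ 2 = 3 * (1 + w) := by linear_combination hw
    rw [← norm_pow, e, norm_mul, h1wn, mul_one]
    norm_num
  refine ⟨?_, ?_, ?_⟩
  · have e : q = (2 + w) + s := by rw [hs]; ring
    rw [e]
    exact (h2i.add hwi).add (IsIntegral.of_pow (n := 12) (by norm_num)
      (by rw [hs12]; exact isIntegral_one))
  · intro hv
    apply cls_half
    have e : (1 / 2 : ℂ) = (2 + w) * q⁻¹ - (1 + w) * (q⁻¹ * q⁻¹) := by
      field_simp
      linear_combination h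
    rw [e]
    exact ((h2i.add hwi).mul hv).sub ((isIntegral_one.add hwi).mul (hv.mul hv))
  · have e : q = (2 + w) + s := by rw [hs]; ring
    have h3 : ‖2 + w‖ < 2 := by nlinarith [norm_nonneg (2 + w)]
    calc ‖q‖ = ‖(2 + w) + s‖ := by rw [← e]
      _ ≤ ‖2 + w‖ + ‖s‖ := norm_add_le _ _
      _ < 3 := by rw [hsn]; linarith

theorem MinW.cls (hw : w ^ 2 + w + 1 = 0) (hM : MinW w q) (h2 : 2.1 ≤ ‖q‖) (h3 : ‖q‖ ≤ 3) :
    (∃ u : ℂ, u ^ 6 = 1 ∧ q = u * (((3 + Real.sqrt 5) / 2 : ℝ) : ℂ)) ∨ q ∈ Oz w ∨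
      (IsIntegral ℤ q ∧ ¬ IsIntegral ℤ q⁻¹ ∧ ‖q‖ < 3) := by
  obtain ⟨u, hu, x, y, hy, hxy, hc⟩ := exists_sector hw q
  have hun : ‖u‖ = 1 := cls_norm (by norm_num) hu
  have hu0 : u ≠ 0 := by
    intro h
    rw [h, norm_zero] at hun
    exact zero_ne_one hun
  have hui : IsIntegral ℤ u := IsIntegral.of_pow (n := 6) (by norm_num) (by rw [hu]; exact isIntegral_one)
  have hu' : (u⁻¹) ^ 6 = 1 := by rw [inv_pow, hu, inv_one]
  have hui' : IsIntegral ℤ u⁻¹ :=
    IsIntegral.of_pow (n := 6) (by norm_num) (by rw [hu']; exact isIntegral_one)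
  have hcu : ∀ z : ℂ, (starRingEnd ℂ) z = (starRingEnd ℂ : ℂ →+* ℂ) z := fun _ => rfl
  have hint : ∀ z : ℂ, IsIntegral ℤ z → IsIntegral ℤ ((starRingEnd ℂ) z) := fun z hz =>
    map_isIntegral_int (starRingEnd ℂ) hz
  -- the two cases give the same properties
  set q' : ℂ := x + y * w with hq'
  have hM' : MinW w q' := by
    rcases hc with h | h
    · rw [← h]
      exact hM.unit hw hu
    · rw [← h]
      exact (hM.unit hw hu).conj hw
  have hn' : ‖q'‖ = ‖q‖ := by
    rcases hc with h | h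
    · rw [← h, norm_mul, hun, one_mul]
    · rw [← h, RCLike.norm_conj, norm_mul, hun, one_mul]
  have hq : q = u⁻¹ * q' ∨ q = u⁻¹ * (starRingEnd ℂ) q' := by
    rcases hc with h | h
    · left
      rw [← h, ← mul_assoc, inv_mul_cancel₀ hu0, one_mul]
    · right
      rw [← h, Complex.conj_conj, ← mul_assoc, inv_mul_cancel₀ hu0, one_mul]
  have hoz : q' ∈ Oz w → q ∈ Oz w := by
    intro h
    rcases hq with h4 | h4
    · rw [h4]
      exact oz_mul hw (oz_root hw hu') h
    · rw [h4]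
      exact oz_mul hw (oz_root hw hu') (cls_oz_conj hw h)
  rcases hM'.sector hw rfl hy hxy (by rw [hn']; exact h2) (by rw [hn']; exact h3) with h | h | h | h
  · right; left
    apply hoz
    rw [h]
    exact ⟨3, 0, by norm_num⟩
  · left
    have h5 : (Real.sqrt 5 : ℂ) ^ 2 = 5 := by
      rw [← Complex.ofReal_pow, Real.sq_sqrt (by norm_num)]
      norm_num
    have h6 : (q' - (((3 + Real.sqrt 5) / 2 : ℝ) : ℂ)) * (q' - (((3 - Real.sqrt 5) / 2 : ℝ) : ℂ)) = 0 := by
      push_cast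
      linear_combination h - (1 / 4) * h5
    have h7 : q' = (((3 + Real.sqrt 5) / 2 : ℝ) : ℂ) := by
      rcases mul_eq_zero.1 h6 with h8 | h8
      · exact sub_eq_zero.1 h8
      · exfalso
        have h9 := sub_eq_zero.1 h8
        have h10 : ‖q'‖ < 1 := by
          rw [h9, Complex.norm_real, Real.norm_eq_abs, abs_lt]
          have h11 : (2 : ℝ) ≤ Real.sqrt 5 := by
            rw [Real.le_sqrt (by norm_num) (by norm_num)]; norm_num
          have h12 : Real.sqrt 5 ≤ 3 := by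
            rw [Real.sqrt_le_left (by norm_num)]; norm_num
          constructor <;> linarith
        rw [hn'] at h10
        linarith
    refine ⟨u⁻¹, hu', ?_⟩
    rcases hq with h8 | h8
    · rw [h8, h7]
    · rw [h8, h7, Complex.conj_ofReal]
  · right; left
    apply hoz
    rcases mul_eq_zero.1 h with h8 | h8
    · rw [sub_eq_zero.1 h8]
      exact oz_one
    · rw [sub_eq_zero.1 h8]
      exact ⟨3, 1, by push_cast; ring⟩
  · right; right
    have h0 : q' ≠ 0 := by
      intro h4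
      rw [h4, norm_zero] at hn'
      linarith
    obtain ⟨h4, h5, h6⟩ := cls_last hw h h0
    refine ⟨?_, ?_, ?_⟩
    · rcases hq with h8 | h8
      · rw [h8]
        exact hui'.mul h4
      · rw [h8]
        exact hui'.mul (hint _ h4)
    · intro h7
      apply h5
      rcases hc with h8 | h8
      · rw [← h8, mul_inv]
        exact hui'.mul h7
      · rw [← h8, ← map_inv₀, mul_inv]
        exact hint _ (hui'.mul h7)
    · rw [← hn']
      exact h6

end Pool.Agent.HSC
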