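import Pool.Agent.HSC.Dgk
import Pool.Agent.HSC.Tqk

/-!
# HSC/Dgq: minimal entry `√3`, a full element with congruent points: all three classes are full

PROOF PLAN.  Let `v = (1 - w)⁻¹ = (2 + w) / 3`.  `ND3.full_eps`: `R = !![w ^ 2, 0; 0, w]` (`hR : cls R ∈ Δ`), `κ ^ 2 = 3 u` (`ND3.par`).  `A = T ε * R = !![w ^ 2, ε w; 0, w]`, `B = g * (T (w ε / u) * R) * g⁻¹ = !![w, 0; -κ ^ 2 * (w ^ 2 ε / u), w ^ 2] =
!![w, 0; -3 w ^ 2 ε, w ^ 2]` (`w ε / u ∈ Oz w`, `u⁻¹ = u ^ 5`), `Q = A * B⁻¹ = !![w + 3, ε w ^ 2; 3 ε, w ^ 2]` (`w ^ 3 = 1`, `ε ^ 2 = 1`) has trace `2` and lower left entry `3 ε`.  `par_full`: `B'` with `pt B' = (w + 3 - w ^ 2) / (6 ε) = ε v` and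
`9 = normSq β * normSq (B'.1 1 0) ^ 2`, with `normSq (B'.1 1 0) ≥ 3`, `normSq β ≥ 1`: `normSq (B'.1 1 0) = 3`; `(1 - w) * pt B' = ε`.
`ND3.nt`: `rot`: `U = (a, b; 0, a⁻¹)`, `a ^ 2 = w`; `U * g` has lower left entry `κ a⁻¹` (full) and `pt (U * g) = a b`; `hol` with `g` (`pt g = 0`): `(1 - w) a b ∈ Oz w`.  If `a b ∈ Oz w`: `T (-(a b)) * U = diag (a, a⁻¹)`, `a = ± w ^ 2`, so `cls R ∈ Δ`, and
`ε = 1`, `-1` are full.  If `a b ∉ Oz w`: `s = (1 - w) a b` is not divisible by `1 - w`, `pt (U * g) = a b`, `pt (U * U * g) = w a b + a b`, `(1 - w) * pt = (1 + w) s`; `s`, `(1 + w) s` represent the two nonzero classes modulo `1 - w`.  So in both cases for every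
`β ∈ Oz w` there is a full element `A` with `(1 - w) * pt A ≡ β` modulo `(1 - w) Oz w`; multiply by a translation: `ex`.  `full`: `hol` with `g`.
-/

set_option autoImplicit false

noncomputable section

namespace Pool.Agent.HSC

open Pool.Agent.HSK Pool.Agent.HSG Matrix
open scoped MatrixGroups commutatorElement

variable {Γ Δ : Subgroup PSL(2, ℂ)} {w κ : ℂ} {g : SL(2, ℂ)}

private theorem dgq_mat (a b c d a' b' c' d' : ℂ) :
    !![a, b; c, d] * !![a', b'; c', d'] =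
      !![a * a' + b * c', a * b' + b * d'; c * a' + d * c', c * b' + d * d'] := by
  rw [Matrix.mul_fin_two]

private theorem dgq_eta {a b c d a' b' c' d' : ℂ} (h1 : a = a') (h2 : b = b') (h3 : c = c') (h4 : d = d') :
    !![a, b; c, d] = !![a', b'; c', d'] := by
  rw [h1, h2, h3, h4]

private theorem dgq_mul {S : Subgroup PSL(2, ℂ)} {A B : SL(2, ℂ)} (hA : cls A ∈ S) (hB : cls B ∈ S) : cls (A * B) ∈ S := by
  rw [cls_mul]
  exact S.mul_mem hA hB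

private theorem dgq_inv {S : Subgroup PSL(2, ℂ)} {A : SL(2, ℂ)} (hA : cls A ∈ S) : cls A⁻¹ ∈ S := by
  rw [cls_inv]
  exact S.inv_mem hA

private theorem dgq_c0 {A : SL(2, ℂ)} (hn : Complex.normSq (A.1 1 0) = 3) : A.1 1 0 ≠ 0 := by
  intro h0
  rw [h0, map_zero] at hn
  norm_num at hn

private theorem dgq_l0 (hw : w ^ 2 + w + 1 = 0) : 1 - w ≠ 0 := by
  intro h0
  have h1 : w = 1 := by linear_combination -h0
  rw [h1] at hw
  norm_num at hw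

private theorem dgq_k0 (h : ND3 Γ Δ w κ g) : κ ≠ 0 := by
  intro h0
  have h3 := h.k3
  rw [h0, map_zero] at h3
  norm_num at h3

theorem ND3.full_eps (h : ND3 Γ Δ w κ g) {R : SL(2, ℂ)} (hR : cls R ∈ Δ) (hR1 : R.1 = !![w ^ 2, 0; 0, w]) {ε : ℂ} (hε : ε = 1 ∨ ε = -1) :
    ∃ B : SL(2, ℂ), cls B ∈ Δ ∧ Complex.normSq (B.1 1 0) = 3 ∧ (1 - w) * pt B = ε := by
  have hw := h.nf.w2
  have hw3 := w_pow hw
  have hκ := dgq_k0 h
  obtain ⟨u, hu6, hu⟩ := h.par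
  have hε2 : ε ^ 2 = 1 := by
    rcases hε with rfl | rfl <;> norm_num
  have hε0 : ε ≠ 0 := by
    rcases hε with rfl | rfl <;> norm_num
  have hεO : ε ∈ Oz w := by
    rcases hε with rfl | rfl
    · exact oz_one
    · exact oz_neg oz_one
  have hsO : w * ε * u ^ 5 ∈ Oz w := oz_mul hw (oz_mul hw oz_w hεO) (oz_pow hw (oz_root hw hu6) 5)
  have hA1 : (T ε * R).1 = !![w ^ 2, ε * w; 0, w] := by
    rw [T_mul_coe, hR1]
    refine dgq_eta ?_ ?_ rfl rfl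
    · show w ^ 2 + ε * 0 = w ^ 2
      ring
    · show 0 + ε * w = ε * w
      ring
  have hS1 : (T (w * ε * u ^ 5) * R).1 = !![w ^ 2, w * ε * u ^ 5 * w; 0, w] := by
    rw [T_mul_coe, hR1]
    refine dgq_eta ?_ ?_ rfl rfl
    · show w ^ 2 + w * ε * u ^ 5 * 0 = w ^ 2
      ring
    · show 0 + w * ε * u ^ 5 * w = w * ε * u ^ 5 * w
      ring
  have hgi : (g⁻¹).1 = !![0, κ⁻¹; -κ, 0] := by
    rw [inv_coe, h.gc]
    refine dgq_eta rfl ?_ rfl rfl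
    show -(-κ⁻¹) = κ⁻¹
    ring
  have hB1 : (g * (T (w * ε * u ^ 5) * R) * g⁻¹).1 = !![w, 0; -(3 * w ^ 2 * ε), w ^ 2] := by
    rw [Matrix.SpecialLinearGroup.coe_mul, Matrix.SpecialLinearGroup.coe_mul, h.gc, hS1, hgi, dgq_mat, dgq_mat]
    refine dgq_eta ?_ ?_ ?_ ?_
    · field_simp
      ring
    · ring
    · linear_combination (-(w ^ 2 * ε * u ^ 5)) * hu - 3 * w ^ 2 * ε * hu6
    · field_simp
      ring
  obtain ⟨A, hA⟩ : ∃ A, A = T ε * R := ⟨_, rfl⟩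
  obtain ⟨B, hB⟩ : ∃ B, B = g * (T (w * ε * u ^ 5) * R) * g⁻¹ := ⟨_, rfl⟩
  have hAΔ : cls A ∈ Δ := by
    rw [hA]
    exact dgq_mul (h.nf.t_mem hεO) hR
  have hBΔ : cls B ∈ Δ := by
    rw [hB]
    exact dgq_mul (dgq_mul h.gm (dgq_mul (h.nf.t_mem hsO) hR)) (dgq_inv h.gm)
  rw [← hA] at hA1
  rw [← hB] at hB1
  have hBi : (B⁻¹).1 = !![w ^ 2, 0; 3 * w ^ 2 * ε, w] := by
    rw [inv_coe, hB1]
    refine dgq_eta rfl ?_ ?_ rfl
    · show -(0 : ℂ) = 0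
      ring
    · show -(-(3 * w ^ 2 * ε)) = 3 * w ^ 2 * ε
      ring
  have hQ1 : (A * B⁻¹).1 = !![w + 3, ε * w ^ 2; 3 * ε, w ^ 2] := by
    rw [Matrix.SpecialLinearGroup.coe_mul, hA1, hBi, dgq_mat]
    refine dgq_eta ?_ ?_ ?_ ?_
    · linear_combination (w + 3) * hw3 + 3 * w ^ 3 * hε2
    · ring
    · linear_combination 3 * ε * hw3
    · ring
  have hQΔ : cls (A * B⁻¹) ∈ Δ := dgq_mul hAΔ (dgq_inv hBΔ)
  have q00 : (A * B⁻¹).1 0 0 = w + 3 := by rw [hQ1]; rfl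
  have q10 : (A * B⁻¹).1 1 0 = 3 * ε := by rw [hQ1]; rfl
  have q11 : (A * B⁻¹).1 1 1 = w ^ 2 := by rw [hQ1]; rfl
  have htr : (A * B⁻¹).1.trace = 2 := by
    rw [Matrix.trace_fin_two, q00, q11]
    linear_combination hw
  have hc : (A * B⁻¹).1 1 0 ≠ 0 := by
    rw [q10]
    exact mul_ne_zero three_ne_zero hε0
  obtain ⟨C, hC, hC0, hCp, β, hβ, hβ0, hβn⟩ := h.nf.par_full hQΔ htr hc
  have hmin := h.min C hC hC0
  have hβ1 := oz_one_le hw hβ hβ0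
  have hn9 : Complex.normSq ((A * B⁻¹).1 1 0) = 9 := by
    rw [q10]
    rcases hε with rfl | rfl
    · rw [mul_one, Complex.normSq_apply]
      norm_num
    · rw [mul_neg, mul_one, Complex.normSq_neg, Complex.normSq_apply]
      norm_num
  rw [hn9] at hβn
  refine ⟨C, hC, ?_, ?_⟩
  · refine le_antisymm ?_ hmin
    by_contra hlt
    rw [not_le] at hlt
    have h1 : 9 < Complex.normSq (C.1 1 0) ^ 2 := by nlinarith
    have h2 : Complex.normSq (C.1 1 0) ^ 2 ≤ Complex.normSq β * Complex.normSq (C.1 1 0) ^ 2 := by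
      have h3 : 0 ≤ Complex.normSq (C.1 1 0) ^ 2 := sq_nonneg _
      nlinarith
    linarith
  · rw [hCp, q00, q10, q11, mul_div_assoc', div_eq_iff (mul_ne_zero two_ne_zero (mul_ne_zero three_ne_zero hε0))]
    linear_combination (-2) * hw + hw3 - 6 * hε2

private theorem dgq_res (hw : w ^ 2 + w + 1 = 0) {β : ℂ} (hβ : β ∈ Oz w) :
    ∃ γ ∈ Oz w, β = (1 - w) * γ ∨ β = 1 + (1 - w) * γ ∨ β = -1 + (1 - w) * γ := by
  obtain ⟨x, y, rfl⟩ := hβ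
  have h2 : (2 + w) ∈ Oz w := ⟨2, 1, by push_cast; ring⟩
  obtain ⟨k, hk⟩ : ∃ k : ℤ, x = 3 * k - y ∨ x = 3 * k + 1 - y ∨ x = 3 * k - 1 - y := ⟨(x + y + 1) / 3, by omega⟩
  refine ⟨(k : ℂ) * (2 + w) - y, oz_sub (oz_mul hw (oz_int k) h2) (oz_int y), ?_⟩
  rcases hk with hk | hk | hk
  · left
    rw [hk]
    push_cast
    linear_combination (k : ℂ) * hw
  · right
    left
    rw [hk]
    push_cast
    linear_combination (k : ℂ) * hw
  · right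
    right
    rw [hk]
    push_cast
    linear_combination (k : ℂ) * hw

private theorem dgq_tr (h : NK Γ Δ w) {A : SL(2, ℂ)} {α : ℂ} (hA : cls A ∈ Δ) (hn : Complex.normSq (A.1 1 0) = 3) (hp : (1 - w) * pt A = α)
    {γ : ℂ} (hγ : γ ∈ Oz w) :
    ∃ F : SL(2, ℂ), cls F ∈ Δ ∧ Complex.normSq (F.1 1 0) = 3 ∧ (1 - w) * pt F = α + (1 - w) * γ := by
  refine ⟨T γ * A, dgq_mul (h.t_mem hγ) hA, ?_, ?_⟩
  · have h1 : (T γ * A).1 1 0 = A.1 1 0 := by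
      rw [T_mul_coe]
      rfl
    rw [h1]
    exact hn
  · rw [pt_T γ (dgq_c0 hn), mul_add, hp]

private theorem dgq_g (h : ND3 Γ Δ w κ g) : Complex.normSq (g.1 1 0) = 3 ∧ pt g = 0 := by
  have h1 : g.1 1 0 = κ := by rw [h.gc]; rfl
  have h2 : g.1 0 0 = 0 := by rw [h.gc]; rfl
  exact ⟨by rw [h1, h.k3], by rw [pt, h2, zero_div]⟩

private theorem dgq_full (h : ND3 Γ Δ w κ g) {A : SL(2, ℂ)} (hA : cls A ∈ Δ) (hn : Complex.normSq (A.1 1 0) = 3) :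
    (1 - w) * pt A ∈ Oz w := by
  obtain ⟨h1, h2⟩ := dgq_g h
  have h3 := h.nf.hol h.min hA h.gm hn h1
  rwa [h2, sub_zero] at h3

private theorem dgq_ug (U : SL(2, ℂ)) (h : ND3 Γ Δ w κ g) : (U * g).1 0 0 = U.1 0 1 * κ ∧ (U * g).1 1 0 = U.1 1 1 * κ := by
  have h1 : g.1 1 0 = κ := by rw [h.gc]; rfl
  have h2 : g.1 0 0 = 0 := by rw [h.gc]; rfl
  constructor
  · rw [nf_e00, h1, h2]
    ring
  · rw [nf_e10, h1, h2]
    ring

private theorem dgq_pt {U : SL(2, ℂ)} (h : ND3 Γ Δ w κ g) (hU0 : U.1 1 0 = 0) : pt (U * g) = U.1 0 0 * U.1 0 1 := by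
  obtain ⟨h1, h2⟩ := dgq_ug U h
  have hκ := dgq_k0 h
  have h3 := up_mul hU0
  have h4 : U.1 1 1 ≠ 0 := right_ne_zero_of_mul_eq_one h3
  rw [pt, h1, h2, div_eq_iff (mul_ne_zero h4 hκ)]
  linear_combination (-(U.1 0 1 * κ)) * h3

private theorem dgq_R (h : ND3 Γ Δ w κ g) {U : SL(2, ℂ)} (hU : cls U ∈ Δ) (hU0 : U.1 1 0 = 0) (hU2 : U.1 0 0 ^ 2 = w)
    (hb : U.1 0 0 * U.1 0 1 ∈ Oz w) : ∃ R : SL(2, ℂ), cls R ∈ Δ ∧ R.1 = !![w ^ 2, 0; 0, w] := by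
  have hw := h.nf.w2
  have hw3 := w_pow hw
  have hd := up_mul hU0
  have hV : cls (T (-(U.1 0 0 * U.1 0 1)) * U) ∈ Δ := dgq_mul (h.nf.t_mem (oz_neg hb)) hU
  have hV1 : (T (-(U.1 0 0 * U.1 0 1)) * U).1 = !![U.1 0 0, 0; 0, U.1 1 1] := by
    rw [T_mul_coe, hU0]
    refine dgq_eta ?_ ?_ rfl rfl
    · ring
    · linear_combination (-U.1 0 1) * hd
  obtain ⟨R, hR⟩ : ∃ R : SL(2, ℂ), R.1 = !![w ^ 2, 0; 0, w] := by
    refine ⟨⟨!![w ^ 2, 0; 0, w], ?_⟩, rfl⟩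
    rw [Matrix.det_fin_two]
    show w ^ 2 * w - 0 * 0 = 1
    linear_combination hw3
  refine ⟨R, ?_, hR⟩
  have h1 : (U.1 0 0 - w ^ 2) * (U.1 0 0 + w ^ 2) = 0 := by
    linear_combination hU2 - w * hw3
  have h2 : cls (T (-(U.1 0 0 * U.1 0 1)) * U) = cls R := by
    rw [cls_eq, hV1, hR]
    rcases mul_eq_zero.1 h1 with h3 | h3
    · left
      have h4 : U.1 0 0 = w ^ 2 := sub_eq_zero.1 h3
      have h5 : U.1 1 1 = w := by
        rw [h4] at hd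
        linear_combination w * hd - U.1 1 1 * hw3
      rw [h4, h5]
    · right
      have h4 : U.1 0 0 = -w ^ 2 := eq_neg_of_add_eq_zero_left h3
      have h5 : U.1 1 1 = -w := by
        rw [h4] at hd
        linear_combination (-w) * hd - U.1 1 1 * hw3
      rw [h4, h5]
      ext i j
      fin_cases i <;> fin_cases j <;> simp
  rw [← h2]
  exact hV

private theorem dgq_pm (h : ND3 Γ Δ w κ g) {ε : ℂ} (hε : ε = 1 ∨ ε = -1) :
    ∃ B : SL(2, ℂ), cls B ∈ Δ ∧ Complex.normSq (B.1 1 0) = 3 ∧ (1 - w) * pt B = ε := by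
  have hw := h.nf.w2
  have hw3 := w_pow hw
  obtain ⟨U, hU, hU0, hU2⟩ := h.nf.rot
  by_cases hb : U.1 0 0 * U.1 0 1 ∈ Oz w
  · obtain ⟨R, hR, hR1⟩ := dgq_R h hU hU0 hU2 hb
    exact h.full_eps hR hR1 hε
  · obtain ⟨g1, -⟩ := dgq_g h
    have hd := up_mul hU0
    have n1 : Complex.normSq ((U * g).1 1 0) = 3 := by rw [(h.nf.c_mul_up hU hU0 g).2, g1]
    have hUU0 : (U * U).1 1 0 = 0 := by rw [nf_e10, hU0]; ring
    have n2 : Complex.normSq ((U * U * g).1 1 0) = 3 := by rw [(h.nf.c_mul_up (dgq_mul hU hU) hUU0 g).2, g1]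
    have m1 : cls (U * g) ∈ Δ := dgq_mul hU h.gm
    have m2 : cls (U * U * g) ∈ Δ := dgq_mul (dgq_mul hU hU) h.gm
    have p1 := dgq_pt h hU0
    have p2 : pt (U * U * g) = (1 + w) * (U.1 0 0 * U.1 0 1) := by
      rw [dgq_pt h hUU0, nf_e00, hU0]
      have h1 : (U * U).1 0 1 = U.1 0 0 * U.1 0 1 + U.1 0 1 * U.1 1 1 := by
        rw [Matrix.SpecialLinearGroup.coe_mul, Matrix.mul_apply, Fin.sum_univ_two]
      rw [h1]
      linear_combination (U.1 0 0 * U.1 0 1) * hU2 + (U.1 0 0 * U.1 0 1) * hd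
    have hs := dgq_full h m1 n1
    rw [p1] at hs
    obtain ⟨γ, hγ, h3⟩ := dgq_res hw hs
    have hs' : (1 + w) * ((1 - w) * (U.1 0 0 * U.1 0 1)) ∈ Oz w := oz_mul hw (oz_add oz_one oz_w) hs
    rcases h3 with h3 | h3 | h3
    · exact absurd (by rw [mul_left_cancel₀ (dgq_l0 hw) h3]; exact hγ) hb
    · rcases hε with rfl | rfl
      · obtain ⟨F, f1, f2, f3⟩ := dgq_tr h.nf m1 n1 rfl (oz_neg hγ)
        refine ⟨F, f1, f2, ?_⟩
        rw [f3, p1, h3]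
        ring
      · obtain ⟨F, f1, f2, f3⟩ := dgq_tr h.nf m2 n2 rfl (oz_sub hγ hs')
        refine ⟨F, f1, f2, ?_⟩
        rw [f3, p2]
        linear_combination (-1 : ℂ) * h3 - U.1 0 0 * U.1 0 1 * hw3
    · rcases hε with rfl | rfl
      · obtain ⟨F, f1, f2, f3⟩ := dgq_tr h.nf m2 n2 rfl (oz_sub hγ hs')
        refine ⟨F, f1, f2, ?_⟩
        rw [f3, p2]
        linear_combination (-1 : ℂ) * h3 - U.1 0 0 * U.1 0 1 * hw3
      · obtain ⟨F, f1, f2, f3⟩ := dgq_tr h.nf m1 n1 rfl (oz_neg hγ)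
        refine ⟨F, f1, f2, ?_⟩
        rw [f3, p1, h3]
        ring

theorem ND3.nt (h : ND3 Γ Δ w κ g) : NT Γ Δ w := by
  refine ⟨h.nf, h.min, fun A hA hn => dgq_full h hA hn, ?_⟩
  intro β hβ
  obtain ⟨g1, g2⟩ := dgq_g h
  obtain ⟨γ, hγ, h3⟩ := dgq_res h.nf.w2 hβ
  rcases h3 with h3 | h3 | h3
  · obtain ⟨F, f1, f2, f3⟩ := dgq_tr h.nf h.gm g1 rfl hγ
    refine ⟨F, f1, f2, ?_⟩
    rw [f3, g2, h3]
    ring
  · obtain ⟨B, b1, b2, b3⟩ := dgq_pm h (Or.inl rfl)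
    obtain ⟨F, f1, f2, f3⟩ := dgq_tr h.nf b1 b2 b3 hγ
    exact ⟨F, f1, f2, by rw [f3, h3]⟩
  · obtain ⟨B, b1, b2, b3⟩ := dgq_pm h (Or.inr rfl)
    obtain ⟨F, f1, f2, f3⟩ := dgq_tr h.nf b1 b2 b3 hγ
    exact ⟨F, f1, f2, by rw [f3, h3]⟩

end Pool.Agent.HSC
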