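import Pool.Agent.HSC.Fuk

/-!
# HSC/Dod: the dodecahedral group

PROOF PLAN.  `φ = (1 + √5) / 2`, `φ ^ 2 = (3 + √5) / 2 = φ + 1`.  Elements: `cls (T β) ∈ dod a` for `β ∈ Oz w` if `a ^ 2 = w` or `a ^ 2 = -w` (`diag (a, a⁻¹) * T 1 * diag⁻¹ = T (a ^ 2)`).
`NH.rot0`: from `rot` (or `h6`): `U = (a, b; 0, a⁻¹)`, `U * g` is full with `pt (U * g) = a b ∈ Oz w` (`full`), `T (-(a b)) * U = diag (a, a⁻¹)`; so `cls R ∈ Δ` for `R = diag (a, a⁻¹)`.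
Normalisation of `κ`: `κ ^ 2 = u φ ^ 2`; `R ^ i * g` has the lower left entry `a ^ (-i) κ` and the form of `g`; for `n = 6` (`a ^ 2 = -w`) choose `i` with `(a ^ 2) ^ (-i) u = 1`, so `κ' ^ 2 = φ ^ 2`, `κ' = ± φ`.  For `n = 3` (`a ^ 2 = w`) get `κ' ^ 2 = ± φ ^ 2`; in the case
`κ' ^ 2 = -φ ^ 2` the product `T 1 * g * T (-1) * g * T 1 * g * T (-1) * g * T 1 * g` is upper triangular with `(0 0 entry) ^ 2 = -1` (compute with `φ ^ 2 = φ + 1`), against `h3`.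
`Δ ≤ dod a`: `NK.descent` with `P A := cls A ∈ dod a`: upper triangular `A = (x, y; 0, x⁻¹)`: `A * g` is full, `pt (A * g) = x y ∈ Oz w`, `x ^ 2` is a power of `a ^ 2` (`h3`, or `up` for `n = 6`), `A = ± T (x y) * R ^ j`; step: `β ∈ Oz w` near `pt A⁻¹`, `B = T β * g`
as in `NH.mem01` (HSC/Gek).
-/

set_option autoImplicit false

noncomputable section

namespace Pool.Agent.HSC

open Pool.Agent.HSK Pool.Agent.HSG Matrix
open scoped MatrixGroups commutatorElement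

variable {Γ Δ : Subgroup PSL(2, ℂ)} {w κ : ℂ} {g : SL(2, ℂ)}

/-- the group generated by `z ↦ z + 1`, `z ↦ a ^ 2 z`, `z ↦ -1 / (φ ^ 2 z)` -/
def dod (a : ℂ) : Subgroup PSL(2, ℂ) := Subgroup.closure {x | ∃ A : SL(2, ℂ), cls A = x ∧
  (A.1 = !![1, 1; 0, 1] ∨ A.1 = !![a, 0; 0, a⁻¹] ∨
    A.1 = !![0, -(((1 + Real.sqrt 5) / 2 : ℝ) : ℂ)⁻¹; (((1 + Real.sqrt 5) / 2 : ℝ) : ℂ), 0])}

/-- diagonal matrices -/
private def dg (x : ℂ) (hx : x ≠ 0) : SL(2, ℂ) := ⟨!![x, 0; 0, x⁻¹], by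
  rw [Matrix.det_fin_two_of, mul_inv_cancel₀ hx, mul_zero, sub_zero]⟩

private theorem Dod_dg (x : ℂ) (hx : x ≠ 0) : (dg x hx).1 = !![x, 0; 0, x⁻¹] := rfl

private theorem Dod_eta {a b c d a' b' c' d' : ℂ} (h1 : a = a') (h2 : b = b') (h3 : c = c') (h4 : d = d') :
    !![a, b; c, d] = !![a', b'; c', d'] := by
  rw [h1, h2, h3, h4]

private theorem Dod_mul {x y : ℂ} (hx : x ≠ 0) (hy : y ≠ 0) : dg x hx * dg y hy = dg (x * y) (mul_ne_zero hx hy) := by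
  apply Subtype.ext
  rw [Matrix.SpecialLinearGroup.coe_mul, Dod_dg, Dod_dg, Dod_dg, Matrix.mul_fin_two]
  refine Dod_eta (by ring) (by ring) (by ring) ?_
  rw [mul_inv]
  ring

private theorem Dod_sq {x y : ℂ} (hx : x ≠ 0) (hy : y ≠ 0) (h : x ^ 2 = y ^ 2) : cls (dg x hx) = cls (dg y hy) := by
  rw [cls_eq, Dod_dg, Dod_dg]
  rcases sq_eq_sq_iff_eq_or_eq_neg.1 h with h1 | h1
  · left
    rw [h1]
  · right
    rw [h1, inv_neg]
    ext i j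
    fin_cases i <;> fin_cases j <;> simp

private theorem Dod_pow {S : Subgroup PSL(2, ℂ)} {a : ℂ} (ha : a ≠ 0) (h : cls (dg a ha) ∈ S) (n : ℕ) :
    cls (dg (a ^ n) (pow_ne_zero n ha)) ∈ S := by
  induction n with
  | zero =>
    have h1 : cls (dg (a ^ 0) (pow_ne_zero 0 ha)) = 1 := by
      rw [← cls_one, cls_eq]
      left
      rw [Dod_dg, Matrix.SpecialLinearGroup.coe_one, Matrix.one_fin_two]
      exact Dod_eta (by ring) rfl rfl (by rw [pow_zero, inv_one])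
    rw [h1]
    exact S.one_mem
  | succ n ih =>
    have h1 : cls (dg (a ^ (n + 1)) (pow_ne_zero (n + 1) ha)) = cls (dg (a ^ n) (pow_ne_zero n ha)) * cls (dg a ha) := by
      rw [← cls_mul, Dod_mul]
      exact Dod_sq _ _ (by ring)
    rw [h1]
    exact S.mul_mem ih h

private theorem Dod_pow' {S : Subgroup PSL(2, ℂ)} {a : ℂ} (ha : a ≠ 0) (h : cls (dg a ha) ∈ S) {x : ℂ} (hx : x ≠ 0) {n : ℕ}
    (hxn : x ^ 2 = (a ^ 2) ^ n) : cls (dg x hx) ∈ S := by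
  have h1 : cls (dg x hx) = cls (dg (a ^ n) (pow_ne_zero n ha)) :=
    Dod_sq _ _ (by rw [hxn, ← pow_mul, ← pow_mul, mul_comm])
  rw [h1]
  exact Dod_pow ha h n

private theorem Dod_mulg (hg : g.1 = !![0, -κ⁻¹; κ, 0]) (A : SL(2, ℂ)) :
    (A * g).1 0 0 = A.1 0 1 * κ ∧ (A * g).1 1 0 = A.1 1 1 * κ := by
  constructor
  · rw [nf_e00, hg]
    simp
  · rw [nf_e10, hg]
    simp

private theorem Dod_up (h : NH Γ Δ w κ g) {U : SL(2, ℂ)} (hU : cls U ∈ Δ) (h0 : U.1 1 0 = 0) :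
    ∃ β ∈ Oz w, ∃ hx : U.1 0 0 ≠ 0, U = T β * dg (U.1 0 0) hx := by
  have had := up_mul h0
  have ha0 : U.1 0 0 ≠ 0 := left_ne_zero_of_mul_eq_one had
  have hd0 : U.1 1 1 ≠ 0 := right_ne_zero_of_mul_eq_one had
  have hn := h.nf.up_norm hU h0
  have hnd : Complex.normSq (U.1 1 1) = 1 := by
    have h3 := congrArg Complex.normSq had
    rw [map_mul, hn, one_mul, map_one] at h3
    exact h3
  obtain ⟨e1, e2⟩ := Dod_mulg h.gc U
  have hf : pt (U * g) ∈ Oz w := by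
    apply h.full
    · rw [cls_mul]
      exact Δ.mul_mem hU h.gm
    · rw [e2, Complex.normSq_mul, hnd, one_mul]
  have hpt : pt (U * g) = U.1 0 1 / U.1 1 1 := by
    rw [pt, e1, e2]
    exact mul_div_mul_right _ _ h.k0
  rw [hpt] at hf
  have hinv : (U.1 0 0)⁻¹ = U.1 1 1 := inv_eq_of_mul_eq_one_right had
  refine ⟨_, hf, ha0, Subtype.ext ?_⟩
  rw [T_mul_coe, Dod_dg, hinv]
  rw [Matrix.eta_fin_two U.1]
  refine Dod_eta ?_ ?_ ?_ ?_
  · simp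
  · simp only [Matrix.of_apply, Matrix.cons_val', Matrix.cons_val_zero, Matrix.cons_val_one,
      Matrix.cons_val_fin_one]
    field_simp
    ring
  · simp [h0]
  · simp

private theorem Dod_g (hg : g.1 = !![0, -κ⁻¹; κ, 0]) {x : ℂ} (hx : x ≠ 0) :
    (dg x hx * g).1 = !![0, -(x⁻¹ * κ)⁻¹; x⁻¹ * κ, 0] := by
  rw [Matrix.SpecialLinearGroup.coe_mul, Dod_dg, hg, Matrix.mul_fin_two]
  refine Dod_eta (by ring) ?_ (by ring) (by ring)
  rw [mul_inv, inv_inv]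
  ring

private theorem Dod_no {S : Subgroup PSL(2, ℂ)} (h1 : cls (T 1) ∈ S) {G : SL(2, ℂ)} {k : ℂ} (hG : cls G ∈ S)
    (hk0 : k ≠ 0) (hGe : G.1 = !![0, -k⁻¹; k, 0]) (hk : k ^ 4 + 3 * k ^ 2 + 1 = 0)
    (h3 : ∀ U : SL(2, ℂ), cls U ∈ S → U.1 1 0 = 0 → (U.1 0 0 ^ 2) ^ 3 = 1) : False := by
  have hP : (T 1 * G).1 = !![k, -k⁻¹; k, 0] := by
    rw [T_mul_coe, hGe]
    refine Dod_eta ?_ ?_ ?_ ?_
    · simp
    · simp
    · simp
    · simp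
  have hQ : (T (-1) * G).1 = !![-k, -k⁻¹; k, 0] := by
    rw [T_mul_coe, hGe]
    refine Dod_eta ?_ ?_ ?_ ?_
    · simp
    · simp
    · simp
    · simp
  have hPQ : ((T 1 * G) * (T (-1) * G)).1 = !![-k ^ 2 - 1, -1; -k ^ 2, -1] := by
    rw [Matrix.SpecialLinearGroup.coe_mul, hP, hQ, Matrix.mul_fin_two]
    refine Dod_eta ?_ ?_ ?_ ?_
    · field_simp
      ring
    · field_simp
      ring
    · field_simp
      ring
    · field_simp
      ring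
  have hU : (((T 1 * G) * (T (-1) * G)) * ((T 1 * G) * (T (-1) * G)) * (T 1 * G)).1 =
      !![k * (k ^ 4 + 3 * k ^ 2 + 1) + k * (k ^ 2 + 2), -(k ^ 4 + 3 * k ^ 2 + 1) * k⁻¹; k * (k ^ 4 + 3 * k ^ 2 + 1),
        -(k ^ 4 + 2 * k ^ 2) * k⁻¹] := by
    rw [Matrix.SpecialLinearGroup.coe_mul, Matrix.SpecialLinearGroup.coe_mul, hPQ, hP, Matrix.mul_fin_two,
      Matrix.mul_fin_two]
    exact Dod_eta (by ring) (by ring) (by ring) (by ring)
  have hT : cls (T (-1)) ∈ S := by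
    rw [T_neg, cls_inv]
    exact S.inv_mem h1
  have hm : cls (((T 1 * G) * (T (-1) * G)) * ((T 1 * G) * (T (-1) * G)) * (T 1 * G)) ∈ S := by
    have hP' : cls (T 1 * G) ∈ S := by
      rw [cls_mul]
      exact S.mul_mem h1 hG
    have hQ' : cls (T (-1) * G) ∈ S := by
      rw [cls_mul]
      exact S.mul_mem hT hG
    rw [cls_mul, cls_mul, cls_mul (T 1 * G) (T (-1) * G)]
    exact S.mul_mem (S.mul_mem (S.mul_mem hP' hQ') (S.mul_mem hP' hQ')) hP'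
  have h10 : (((T 1 * G) * (T (-1) * G)) * ((T 1 * G) * (T (-1) * G)) * (T 1 * G)).1 1 0 = 0 := by
    rw [hU]
    show k * (k ^ 4 + 3 * k ^ 2 + 1) = 0
    rw [hk, mul_zero]
  have h4 := h3 _ hm h10
  rw [hU] at h4
  have h5 : (k * (k ^ 4 + 3 * k ^ 2 + 1) + k * (k ^ 2 + 2)) ^ 2 = -1 := by
    rw [hk]
    linear_combination (k ^ 2 + 1) * hk
  have h6 : ((k * (k ^ 4 + 3 * k ^ 2 + 1) + k * (k ^ 2 + 2)) ^ 2) ^ 3 = 1 := h4
  rw [h5] at h6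
  norm_num at h6

private theorem Dod_W {f k : ℂ} {G W : SL(2, ℂ)} (hG : G.1 = !![0, -k⁻¹; k, 0])
    (hW : W.1 = !![0, -f⁻¹; f, 0]) (hk : k ^ 2 = f ^ 2) : cls G = cls W := by
  rw [cls_eq, hG, hW]
  rcases sq_eq_sq_iff_eq_or_eq_neg.1 hk with h1 | h1
  · left
    rw [h1]
  · right
    rw [h1, inv_neg]
    ext i j
    fin_cases i <;> fin_cases j <;> simp

private theorem Dod_conj {a : ℂ} (ha : a ≠ 0) : dg a ha * T 1 * (dg a ha)⁻¹ = T (a ^ 2) := by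
  apply Subtype.ext
  rw [Matrix.SpecialLinearGroup.coe_mul, mul_T_coe, inv_coe, T_coe, Dod_dg, Matrix.mul_fin_two]
  refine Dod_eta ?_ ?_ ?_ ?_
  · simp [ha]
  · simp
    ring
  · simp
  · simp [ha]

private theorem Dod_T {S : Subgroup PSL(2, ℂ)} {a : ℂ} (ha : a ≠ 0) (haw : a ^ 2 = w ∨ a ^ 2 = -w)
    (h1 : cls (T 1) ∈ S) (h2 : cls (dg a ha) ∈ S) {β : ℂ} (hβ : β ∈ Oz w) : cls (T β) ∈ S := by
  obtain ⟨x, y, rfl⟩ := hβ
  have h3 : t (a ^ 2) ∈ S := by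
    have h4 : t (a ^ 2) = cls (dg a ha) * cls (T 1) * (cls (dg a ha))⁻¹ := by
      rw [← cls_mul, ← cls_inv, ← cls_mul, Dod_conj]
      rfl
    rw [h4]
    exact S.mul_mem (S.mul_mem h2 h1) (S.inv_mem h2)
  have h5 : t w ∈ S := by
    rcases haw with h6 | h6
    · rw [← h6]
      exact h3
    · have h7 : w = -(a ^ 2) := by rw [h6, neg_neg]
      rw [h7, t_neg]
      exact S.inv_mem h3
  have h8 : t (x : ℂ) ∈ S := by
    rw [← mul_one (x : ℂ), t_int]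
    exact S.zpow_mem h1 x
  show t (x + y * w) ∈ S
  rw [t_add, t_int]
  exact S.mul_mem h8 (S.zpow_mem h5 y)

private theorem Dod_phi : (((1 + Real.sqrt 5) / 2 : ℝ) : ℂ) ^ 2 = (((3 + Real.sqrt 5) / 2 : ℝ) : ℂ) := by
  rw [← Complex.ofReal_pow]
  congr 1
  have h : Real.sqrt 5 ^ 2 = 5 := Real.sq_sqrt (by norm_num)
  linear_combination (1 / 4 : ℝ) * h

private theorem Dod_s : (((3 + Real.sqrt 5) / 2 : ℝ) : ℂ) ^ 2 - 3 * (((3 + Real.sqrt 5) / 2 : ℝ) : ℂ) + 1 = 0 := by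
  have h : Real.sqrt 5 ^ 2 = 5 := Real.sq_sqrt (by norm_num)
  have h1 : ((3 + Real.sqrt 5) / 2) ^ 2 - 3 * ((3 + Real.sqrt 5) / 2) + 1 = 0 := by
    linear_combination (1 / 4 : ℝ) * h
  exact_mod_cast congrArg (Complex.ofReal) h1

private theorem Dod_phi0 : (((1 + Real.sqrt 5) / 2 : ℝ) : ℂ) ≠ 0 := by
  have h : 0 ≤ Real.sqrt 5 := Real.sqrt_nonneg 5
  exact_mod_cast (by positivity : (1 + Real.sqrt 5) / 2 ≠ 0)

private theorem Dod_gen (h : NH Γ Δ w κ g) {a : ℂ} (ha : a ≠ 0) (haw : a ^ 2 = w ∨ a ^ 2 = -w)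
    (hR : ∃ U : SL(2, ℂ), cls U ∈ Δ ∧ U.1 1 0 = 0 ∧ U.1 0 0 ^ 2 = a ^ 2)
    (hpow : ∀ U : SL(2, ℂ), cls U ∈ Δ → U.1 1 0 = 0 → ∃ n : ℕ, U.1 0 0 ^ 2 = (a ^ 2) ^ n)
    {n : ℕ} (hk : κ ^ 2 = (a ^ 2) ^ n * (((3 + Real.sqrt 5) / 2 : ℝ) : ℂ)) : Δ = dod a := by
  have hw := h.nf.w2
  -- the diagonal matrix is in `Δ`
  have hRΔ : cls (dg a ha) ∈ Δ := by
    obtain ⟨U, hU, hU0, hU2⟩ := hR
    obtain ⟨β, hβ, hx, hUe⟩ := Dod_up h hU hU0
    have h1 : cls (dg (U.1 0 0) hx) ∈ Δ := by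
      have h2 : cls (dg (U.1 0 0) hx) = (cls (T β))⁻¹ * cls U := by
        rw [eq_inv_mul_iff_mul_eq, ← cls_mul, ← hUe]
      rw [h2]
      exact Δ.mul_mem (Δ.inv_mem (h.nf.t_mem hβ)) hU
    rw [← Dod_sq hx ha hU2]
    exact h1
  have hT1 : cls (T 1) ∈ Δ := h.nf.t_mem oz_one
  -- the third generator
  obtain ⟨W, hW⟩ : ∃ W : SL(2, ℂ), W.1 = !![0, -(((1 + Real.sqrt 5) / 2 : ℝ) : ℂ)⁻¹; (((1 + Real.sqrt 5) / 2 : ℝ) : ℂ), 0] :=
    ⟨⟨!![0, -(((1 + Real.sqrt 5) / 2 : ℝ) : ℂ)⁻¹; (((1 + Real.sqrt 5) / 2 : ℝ) : ℂ), 0], by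
      rw [Matrix.det_fin_two_of, neg_mul, inv_mul_cancel₀ Dod_phi0, zero_mul, sub_neg_eq_add, zero_add]⟩, rfl⟩
  have hgW : cls (dg (a ^ n) (pow_ne_zero n ha)) * cls g = cls W := by
    rw [← cls_mul]
    refine Dod_W (Dod_g h.gc (pow_ne_zero n ha)) hW ?_
    rw [Dod_phi, mul_pow, hk, inv_pow, ← mul_assoc, ← pow_mul, ← pow_mul, mul_comm n 2, inv_mul_cancel₀, one_mul]
    exact pow_ne_zero _ ha
  apply le_antisymm
  · -- descent
    have dT : cls (T 1) ∈ dod a := Subgroup.subset_closure ⟨T 1, rfl, Or.inl (T_coe 1)⟩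
    have dR : cls (dg a ha) ∈ dod a := Subgroup.subset_closure ⟨dg a ha, rfl, Or.inr (Or.inl rfl)⟩
    have dW : cls W ∈ dod a := Subgroup.subset_closure ⟨W, rfl, Or.inr (Or.inr hW)⟩
    have dg' : cls g ∈ dod a := by
      have h1 : cls g = (cls (dg (a ^ n) (pow_ne_zero n ha)))⁻¹ * cls W := by
        rw [eq_inv_mul_iff_mul_eq]
        exact hgW
      rw [h1]
      exact Subgroup.mul_mem _ (Subgroup.inv_mem _ (Dod_pow ha dR n)) dW
    intro x hx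
    obtain ⟨A, rfl⟩ := cls_surj x
    refine h.nf.descent (fun A => cls A ∈ dod a) (fun A hA h0 => ?_) ?_ A hx
    · obtain ⟨β, hβ, hx', hAe⟩ := Dod_up h hA h0
      obtain ⟨m, hm⟩ := hpow A hA h0
      show cls A ∈ dod a
      rw [hAe, cls_mul]
      exact Subgroup.mul_mem _ (Dod_T ha haw dT dR hβ) (Dod_pow' ha dR hx' hm)
    · intro A hA h0
      obtain ⟨β, hβ, hn⟩ := oz_near hw (pt A⁻¹)
      have hB10 : (T β * g).1 1 0 = κ := by
        rw [T_mul_coe, h.gc]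
        simp
      have hB00 : (T β * g).1 0 0 = β * κ := by
        rw [T_mul_coe, h.gc]
        simp
      refine ⟨T β * g, ?_, ?_, ?_⟩
      · rw [cls_mul]
        exact Δ.mul_mem (h.nf.t_mem hβ) h.gm
      · have hB0 : (T β * g).1 1 0 ≠ 0 := by
          rw [hB10]
          exact h.k0
        have hpB : pt (T β * g) = β := by
          rw [pt, hB10, hB00]
          exact mul_div_cancel_right₀ _ h.k0
        rw [c_mul h0 hB0, hB10, hpB, Complex.normSq_mul, Complex.normSq_mul]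
        have hn' : Complex.normSq (β - pt A⁻¹) ≤ 1 / 3 := by
          rw [← Complex.normSq_neg, neg_sub]
          exact hn
        have hp : 0 < Complex.normSq (A.1 1 0) := Complex.normSq_pos.2 h0
        have hk' := h.lt
        have hk0 : 0 < Complex.normSq κ := Complex.normSq_pos.2 h.k0
        have h5 : Complex.normSq κ * Complex.normSq (β - pt A⁻¹) < 1 := by
          calc Complex.normSq κ * Complex.normSq (β - pt A⁻¹) ≤ Complex.normSq κ * (1 / 3) :=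
                mul_le_mul_of_nonneg_left hn' hk0.le
            _ < 1 := by linarith
        rw [mul_assoc]
        calc Complex.normSq (A.1 1 0) * (Complex.normSq κ * Complex.normSq (β - pt A⁻¹))
            < Complex.normSq (A.1 1 0) * 1 := mul_lt_mul_of_pos_left h5 hp
          _ = Complex.normSq (A.1 1 0) := mul_one _
      · intro hP
        have h1 : cls A = cls (A * (T β * g)) * (cls (T β * g))⁻¹ := by
          rw [eq_mul_inv_iff_mul_eq, ← cls_mul]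
        show cls A ∈ dod a
        rw [h1]
        refine Subgroup.mul_mem _ hP (Subgroup.inv_mem _ ?_)
        rw [cls_mul]
        exact Subgroup.mul_mem _ (Dod_T ha haw dT dR hβ) dg'
  · refine (Subgroup.closure_le _).2 ?_
    rintro x ⟨A, rfl, hA | hA | hA⟩
    · have h1 : A = T 1 := Subtype.ext hA
      rw [h1]
      exact hT1
    · have h1 : A = dg a ha := Subtype.ext hA
      rw [h1]
      exact hRΔ
    · have h1 : A = W := Subtype.ext (hA.trans hW.symm)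
      rw [h1, ← hgW]
      exact Δ.mul_mem (Dod_pow ha hRΔ n) h.gm

theorem NH.dod3 (h : NH Γ Δ w κ g) {u : ℂ} (hu : u ^ 6 = 1) (hk : κ ^ 2 = u * (((3 + Real.sqrt 5) / 2 : ℝ) : ℂ))
    (h3 : ∀ U : SL(2, ℂ), cls U ∈ Δ → U.1 1 0 = 0 → (U.1 0 0 ^ 2) ^ 3 = 1) : Δ = dod (w ^ 2) := by
  have hw := h.nf.w2
  have hw3 := w_pow hw
  have hw0 : w ≠ 0 := by
    intro h0
    rw [h0] at hw
    norm_num at hw
  have ha0 : w ^ 2 ≠ 0 := pow_ne_zero 2 hw0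
  have ha2 : (w ^ 2) ^ 2 = w := by linear_combination w * hw3
  obtain ⟨U, hU, hU0, hU2⟩ := h.nf.rot
  have hpow : ∀ U : SL(2, ℂ), cls U ∈ Δ → U.1 1 0 = 0 → ∃ n : ℕ, U.1 0 0 ^ 2 = ((w ^ 2) ^ 2) ^ n := by
    intro U hU hU0
    have h4 := h3 U hU hU0
    have h5 : (U.1 0 0 ^ 2 - 1) * ((U.1 0 0 ^ 2 - w) * (U.1 0 0 ^ 2 - w ^ 2)) = 0 := by
      linear_combination h4 + (U.1 0 0 ^ 2 - (U.1 0 0 ^ 2) ^ 2) * hw + (U.1 0 0 ^ 2 - 1) * hw3
    rw [ha2]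
    rcases mul_eq_zero.1 h5 with h6 | h6
    · exact ⟨0, by rw [pow_zero]; exact sub_eq_zero.1 h6⟩
    · rcases mul_eq_zero.1 h6 with h7 | h7
      · exact ⟨1, by rw [pow_one]; exact sub_eq_zero.1 h7⟩
      · exact ⟨2, sub_eq_zero.1 h7⟩
  have hgo : ∀ n : ℕ, u = w ^ n → Δ = dod (w ^ 2) := by
    intro n hn
    refine Dod_gen h ha0 (Or.inl ha2) ⟨U, hU, hU0, by rw [hU2, ha2]⟩ hpow (n := n) ?_
    rw [hk, hn, ha2]
  have hno : ∀ n : ℕ, u = -w ^ n → False := by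
    intro n hn
    obtain ⟨β, hβ, hx, hUe⟩ := Dod_up h hU hU0
    have h1 : cls (dg (U.1 0 0) hx) ∈ Δ := by
      have h2 : cls (dg (U.1 0 0) hx) = (cls (T β))⁻¹ * cls U := by
        rw [eq_inv_mul_iff_mul_eq, ← cls_mul, ← hUe]
      rw [h2]
      exact Δ.mul_mem (Δ.inv_mem (h.nf.t_mem hβ)) hU
    have h4 := Dod_pow hx h1 n
    have hx2 : ((U.1 0 0) ^ n) ^ 2 = w ^ n := by rw [← pow_mul, mul_comm, pow_mul, hU2]
    have hk2 : (((U.1 0 0) ^ n)⁻¹ * κ) ^ 2 = -(((3 + Real.sqrt 5) / 2 : ℝ) : ℂ) := by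
      rw [mul_pow, inv_pow, hx2, hk, hn, neg_mul, mul_neg, inv_mul_cancel_left₀ (pow_ne_zero n hw0)]
    refine Dod_no (h.nf.t_mem oz_one) (G := dg ((U.1 0 0) ^ n) (pow_ne_zero n hx) * g)
      (k := ((U.1 0 0) ^ n)⁻¹ * κ) ?_ (mul_ne_zero (inv_ne_zero (pow_ne_zero n hx)) h.k0)
      (Dod_g h.gc (pow_ne_zero n hx)) ?_ h3
    · rw [cls_mul]
      exact Δ.mul_mem h4 h.gm
    · have e : (((U.1 0 0) ^ n)⁻¹ * κ) ^ 4 = ((((U.1 0 0) ^ n)⁻¹ * κ) ^ 2) ^ 2 := by ring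
      rw [e, hk2]
      linear_combination Dod_s
  rcases oz_sixth hw hu with h4 | h4 | h4 | h4 | h4 | h4
  · exact hgo 0 (by rw [pow_zero]; exact h4)
  · exact (hno 0 (by rw [pow_zero]; exact h4)).elim
  · exact hgo 1 (by rw [pow_one]; exact h4)
  · exact (hno 1 (by rw [pow_one]; exact h4)).elim
  · exact hgo 2 h4
  · exact (hno 2 h4).elim

theorem NH.dod6 (h : NH Γ Δ w κ g) {u : ℂ} (hu : u ^ 6 = 1) (hk : κ ^ 2 = u * (((3 + Real.sqrt 5) / 2 : ℝ) : ℂ))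
    (h6 : ∃ U : SL(2, ℂ), cls U ∈ Δ ∧ U.1 1 0 = 0 ∧ U.1 0 0 ^ 2 = -w) : Δ = dod (Complex.I * w ^ 2) := by
  have hw := h.nf.w2
  have hw3 := w_pow hw
  have hw0 : w ≠ 0 := by
    intro h0
    rw [h0] at hw
    norm_num at hw
  have ha0 : Complex.I * w ^ 2 ≠ 0 := mul_ne_zero Complex.I_ne_zero (pow_ne_zero 2 hw0)
  have ha2 : (Complex.I * w ^ 2) ^ 2 = -w := by
    linear_combination w ^ 4 * Complex.I_sq - w * hw3
  have key : ∀ z : ℂ, z ^ 6 = 1 → ∃ n : ℕ, z = (-w) ^ n := by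
    intro z hz
    rcases oz_sixth hw hz with h4 | h4 | h4 | h4 | h4 | h4
    · exact ⟨0, by rw [pow_zero]; exact h4⟩
    · exact ⟨3, by rw [h4]; linear_combination hw3⟩
    · exact ⟨4, by rw [h4]; linear_combination -w * hw3⟩
    · exact ⟨1, by rw [pow_one]; exact h4⟩
    · exact ⟨2, by rw [h4]; ring⟩
    · exact ⟨5, by rw [h4]; linear_combination w ^ 2 * hw3⟩
  obtain ⟨U, hU, hU0, hU2⟩ := h6
  obtain ⟨n, hn⟩ := key u hu
  refine Dod_gen h ha0 (Or.inr ha2) ⟨U, hU, hU0, by rw [hU2, ha2]⟩ (fun U hU hU0 => ?_) (n := n) ?_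
  · rw [ha2]
    exact key _ (h.nf.up U hU hU0)
  · rw [hk, hn, ha2]

end Pool.Agent.HSC
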