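import Pool.Agent.HSC.Gek
import Pool.Agent.HSG.Fig

/-!
# HSC/Eik: integral parameter: the figure eight group

Adapted from HSG/Eig (lemmas copied).  Here only `y ≠ 0` is known.  If the generator of the lattice of translations of `Γ` is too short, then
`t (-2 - 2 v) ∈ Γ` and the matrix `T (-2 - 2 v) * Lo (-v)` has trace zero: its class has order two, a contradiction.
-/

set_option autoImplicit false

noncomputable section

namespace Pool.Agent.HSC

open Pool.Agent.HSK Pool.Agent.HSG Matrix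
open scoped MatrixGroups commutatorElement

variable {Γ Δ : Subgroup PSL(2, ℂ)} {w κ : ℂ} {g : SL(2, ℂ)}

private theorem eik_mul_coe (A B : SL(2, ℂ)) : (A * B).1 =
    !![A.1 0 0 * B.1 0 0 + A.1 0 1 * B.1 1 0, A.1 0 0 * B.1 0 1 + A.1 0 1 * B.1 1 1;
      A.1 1 0 * B.1 0 0 + A.1 1 1 * B.1 1 0, A.1 1 0 * B.1 0 1 + A.1 1 1 * B.1 1 1] := by
  rw [Matrix.SpecialLinearGroup.coe_mul]
  ext i j
  fin_cases i <;> fin_cases j <;> simp [Matrix.mul_apply, Fin.sum_univ_two]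

private theorem eik_Lo_coe (s : ℂ) : (Lo s).1 = !![1, 0; s, 1] := rfl

private theorem eik_cube : (T 1 * Lo (-1)) * (T 1 * Lo (-1)) * (T 1 * Lo (-1)) = -1 := by
  have h1 : (T 1 * Lo (-1)).1 = !![0, 1; -1, 1] := by
    rw [eik_mul_coe, T_coe, eik_Lo_coe]
    simp
  apply Subtype.ext
  rw [eik_mul_coe, eik_mul_coe, h1]
  ext i j
  fin_cases i <;> fin_cases j <;> simp

private theorem eik_no_one (hNF : NK Γ Δ w) : cls (Lo (-1)) ∉ Γ := by
  intro hm
  have h1 : cls (T 1 * Lo (-1)) ∈ Γ := by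
    rw [cls_mul]
    exact Γ.mul_mem hNF.one hm
  have h2 : cls (T 1 * Lo (-1)) ^ 3 = 1 := by
    have e : ∀ X : SL(2, ℂ), cls X ^ 3 = cls (X * X * X) := by
      intro X
      rw [cls_mul, cls_mul, pow_succ, pow_two]
    rw [e, eik_cube, ← cls_one]
    exact cls_eq.2 (Or.inr rfl)
  have h3 := hNF.tf _ h1 3 (by norm_num) h2
  rw [← cls_one] at h3
  have h4 : (T 1 * Lo (-1)).1 0 1 = 1 := by
    rw [eik_mul_coe, T_coe, eik_Lo_coe]
    simp
  rcases cls_eq.1 h3 with h | h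
  · rw [h, Matrix.SpecialLinearGroup.coe_one] at h4
    simp at h4
  · rw [h, Matrix.SpecialLinearGroup.coe_one] at h4
    simp at h4

private theorem eik_conj {C : SL(2, ℂ)} (h0 : C.1 0 0 = 0) : C * T 1 * C⁻¹ = Lo (-(C.1 1 0 ^ 2)) := by
  have hd := det_eq C
  rw [h0, zero_mul, zero_sub] at hd
  rw [mul_inv_eq_iff_eq_mul]
  apply Subtype.ext
  rw [eik_mul_coe, eik_mul_coe, T_coe, eik_Lo_coe, h0]
  ext i j
  fin_cases i <;> fin_cases j
  · simp
  · simp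
  · simp
  · simp
    linear_combination (-C.1 1 0) * hd

theorem NH.conj_mem (h : NH Γ Δ w κ g) (hq : κ ^ 2 ∈ Oz w) : ∃ v : ℂ, (v = w ∨ v = w ^ 2) ∧ cls (Lo (-v)) ∈ Γ := by
  have hw := h.nf.w2
  obtain ⟨B, hB, hB0⟩ := h.nf.cusp g h.gm
  have hB1 : B.1 1 1 = 0 := by
    rw [eik_mul_coe, h.gc] at hB0
    simp at hB0
    rcases hB0 with hB0 | hB0
    · exact hB0
    · exact absurd hB0 h.k0
  obtain ⟨C, hC, hent, -⟩ := h.entries hq (Γ.inv_mem hB)
  rw [← cls_inv] at hC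
  have hC0 : C.1 0 0 = 0 := by
    rcases cls_eq.1 hC with e | e
    · rw [e, inv_coe]
      simpa using hB1
    · rw [e, inv_coe]
      simpa using hB1
  have hd := det_eq C
  rw [hC0, zero_mul, zero_sub] at hd
  have hc0 : C.1 1 0 ≠ 0 := by
    intro h0
    rw [h0, mul_zero, neg_zero] at hd
    exact zero_ne_one hd
  have hb0 : C.1 0 1 ≠ 0 := by
    intro h0
    rw [h0, zero_mul, neg_zero] at hd
    exact zero_ne_one hd
  have hn : Complex.normSq (C.1 0 1) * Complex.normSq (C.1 1 0) = 1 := by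
    rw [← map_mul, ← Complex.normSq_neg, hd, map_one]
  have hb1 := oz_one_le hw (hent 0 1) hb0
  have hc1 := oz_one_le hw (hent 1 0) hc0
  have hn1 : Complex.normSq (C.1 1 0) = 1 := by nlinarith
  have h6 := oz_unit hw (hent 1 0) hn1
  have hmem : cls (Lo (-(C.1 1 0 ^ 2))) ∈ Γ := by
    rw [← eik_conj hC0, cls_mul, cls_mul, cls_inv, hC, cls_inv]
    exact Γ.mul_mem (Γ.mul_mem (Γ.inv_mem hB) h.nf.one) (Γ.inv_mem (Γ.inv_mem hB))
  have h3 : (C.1 1 0 ^ 2 - 1) * ((C.1 1 0 ^ 2 - w) * (C.1 1 0 ^ 2 - w ^ 2)) = 0 := by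
    have hw3 := w_pow hw
    linear_combination h6 + (-(C.1 1 0 ^ 4) + C.1 1 0 ^ 2) * hw + (C.1 1 0 ^ 2 - 1) * hw3
  rcases mul_eq_zero.1 h3 with e | e
  · exfalso
    rw [sub_eq_zero.1 e] at hmem
    exact eik_no_one h.nf hmem
  rcases mul_eq_zero.1 e with e | e
  · exact ⟨C.1 1 0 ^ 2, Or.inl (sub_eq_zero.1 e), hmem⟩
  · exact ⟨C.1 1 0 ^ 2, Or.inr (sub_eq_zero.1 e), hmem⟩

private theorem eik_oz (hw : w ^ 2 + w + 1 = 0) {v : ℂ} (hv : v = w ∨ v = w ^ 2) {β : ℂ} (hβ : β ∈ Oz w) : β ∈ Oz v := by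
  rcases hv with rfl | hv
  · exact hβ
  · obtain ⟨x, y, rfl⟩ := hβ
    refine ⟨x - y, -y, ?_⟩
    rw [hv]
    push_cast
    linear_combination (y : ℂ) * hw

private theorem eik_four {b y : ℤ} (hy : 4 ≤ |y|) (hb : |b| * |y| = 4) : b = 1 ∨ b = -1 := by
  have h0 : 0 ≤ |b| := abs_nonneg b
  have h1 : |b| ≤ 1 := by nlinarith
  have h2 : |b| ≠ 0 := by
    intro h
    rw [h, zero_mul] at hb
    norm_num at hb
  have h3 : |b| = 1 := by omega
  rcases abs_cases b with h | h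
  · left
    omega
  · right
    omega

private theorem eik_indep (hw : w ^ 2 + w + 1 = 0) {a b c d : ℤ} (h : (a : ℂ) + b * w = c + d * w) : b = d := by
  obtain ⟨h1, h2⟩ := w_re hw
  have him : w.im ≠ 0 := by
    intro h0
    rw [h0] at h2
    norm_num at h2
  have h3 := congrArg Complex.im h
  simp at h3
  rcases h3 with h3 | h3
  · exact h3
  · exact absurd h3 him

private theorem eik_sign (hw : w ^ 2 + w + 1 = 0) {v : ℂ} (hv : v = w ∨ v = w ^ 2) {x y a b : ℤ} (hy : 4 ≤ |y|)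
    (h : 4 * v = a + b * (x + y * w)) : b = 1 ∨ b = -1 := by
  rcases hv with rfl | hv
  · have h1 : ((0 : ℤ) : ℂ) + (4 : ℤ) * v = ((a + b * x : ℤ) : ℂ) + ((b * y : ℤ) : ℂ) * v := by
      push_cast
      linear_combination h
    have h2 := eik_indep hw h1
    refine eik_four hy ?_
    rw [← abs_mul, ← h2]
    norm_num
  · rw [hv] at h
    have h1 : ((-4 : ℤ) : ℂ) + (-4 : ℤ) * w = ((a + b * x : ℤ) : ℂ) + ((b * y : ℤ) : ℂ) * w := by
      push_cast
      linear_combination h - 4 * hw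
    have h2 := eik_indep hw h1
    refine eik_four hy ?_
    rw [← abs_mul, ← h2]
    norm_num

private theorem eik_sq {v : ℂ} (hv : v ^ 2 + v + 1 = 0) :
    (T (-2 - 2 * v) * Lo (-v)) * (T (-2 - 2 * v) * Lo (-v)) = -1 := by
  have h1 : (T (-2 - 2 * v) * Lo (-v)).1 = !![-1, -2 - 2 * v; -v, 1] := by
    rw [eik_mul_coe, T_coe, eik_Lo_coe]
    ext i j
    fin_cases i <;> fin_cases j
    · simp
      linear_combination 2 * hv
    · simp
    · simp
    · simp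
  apply Subtype.ext
  rw [eik_mul_coe, h1]
  ext i j
  fin_cases i <;> fin_cases j
  · simp
    linear_combination 2 * hv
  · simp
    ring
  · simp
  · simp
    linear_combination 2 * hv

private theorem eik_no_two (hNF : NK Γ Δ w) {v : ℂ} (hv : v ^ 2 + v + 1 = 0) (hL : cls (Lo (-v)) ∈ Γ) :
    t (-2 - 2 * v) ∉ Γ := by
  intro hm
  have h1 : cls (T (-2 - 2 * v) * Lo (-v)) ∈ Γ := by
    rw [cls_mul]
    exact Γ.mul_mem hm hL
  have h2 : cls (T (-2 - 2 * v) * Lo (-v)) ^ 2 = 1 := by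
    have e : ∀ X : SL(2, ℂ), cls X ^ 2 = cls (X * X) := by
      intro X
      rw [cls_mul, pow_two]
    rw [e, eik_sq hv, ← cls_one]
    exact cls_eq.2 (Or.inr rfl)
  have h3 := hNF.tf _ h1 2 (by norm_num) h2
  rw [← cls_one] at h3
  have h4 : (T (-2 - 2 * v) * Lo (-v)).1 0 1 = -2 - 2 * v := by
    rw [eik_mul_coe, T_coe, eik_Lo_coe]
    simp
  have h5 : -2 - 2 * v = 0 := by
    rcases cls_eq.1 h3 with h | h
    · rw [h, Matrix.SpecialLinearGroup.coe_one] at h4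
      rw [← h4]
      simp
    · rw [h] at h4
      rw [← h4]
      simp
  have h6 : v = -1 := by linear_combination (-1 / 2) * h5
  rw [h6] at hv
  norm_num at hv

private theorem eik_both (hw : w ^ 2 + w + 1 = 0) {a b c d : ℤ} (h : (a : ℂ) + b * w = c + d * w) : a = c ∧ b = d := by
  have h1 := eik_indep hw h
  refine ⟨?_, h1⟩
  rw [h1] at h
  have h2 : (a : ℂ) = c := by linear_combination h
  exact_mod_cast h2

private theorem eik_par {e y b : ℤ} (he : e = 4 ∨ e = -4) (h : e = b * y) : b = 1 ∨ b = -1 ∨ ∃ b₁, b = 2 * b₁ := by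
  rcases Int.even_or_odd' b with ⟨c, hc | hc⟩
  · exact Or.inr (Or.inr ⟨c, hc⟩)
  · have hd : b ∣ 4 := by
      rcases he with he | he
      · exact ⟨y, by rw [← h, he]⟩
      · exact ⟨-y, by rw [mul_neg, ← h, he]; norm_num⟩
    have hb1 : b ≤ 4 := Int.le_of_dvd (by norm_num) hd
    have hb2 : -b ≤ 4 := Int.le_of_dvd (by norm_num) (neg_dvd.2 hd)
    have hb3 : -4 ≤ b := by linarith
    have hb4 : b = 1 ∨ b = -1 := by
      obtain ⟨z, hz⟩ := hd
      clear h he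
      interval_cases b <;> omega
    rcases hb4 with e | e
    · exact Or.inl e
    · exact Or.inr (Or.inl e)

private theorem eik_split (hw : w ^ 2 + w + 1 = 0) {v : ℂ} (hv : v = w ∨ v = w ^ 2) {x y a b : ℤ}
    (h : 4 * v = a + b * (x + y * w)) : b = 1 ∨ b = -1 ∨ ∃ a₁ b₁ : ℤ, a = 2 * a₁ ∧ b = 2 * b₁ := by
  obtain ⟨e, f, he, ⟨f₁, hf⟩, h1, h2⟩ : ∃ e f : ℤ, (e = 4 ∨ e = -4) ∧ (2 ∣ f) ∧ f = a + b * x ∧ e = b * y := by
    rcases hv with rfl | hv
    · have h1 : ((0 : ℤ) : ℂ) + (4 : ℤ) * v = ((a + b * x : ℤ) : ℂ) + ((b * y : ℤ) : ℂ) * v := by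
        push_cast
        linear_combination h
      obtain ⟨h2, h3⟩ := eik_both hw h1
      exact ⟨4, 0, Or.inl rfl, dvd_zero 2, h2, h3⟩
    · rw [hv] at h
      have h1 : ((-4 : ℤ) : ℂ) + (-4 : ℤ) * w = ((a + b * x : ℤ) : ℂ) + ((b * y : ℤ) : ℂ) * w := by
        push_cast
        linear_combination h - 4 * hw
      obtain ⟨h2, h3⟩ := eik_both hw h1
      exact ⟨-4, -4, Or.inr rfl, by norm_num, h2, h3⟩
  rcases eik_par he h2 with h3 | h3 | ⟨b₁, h3⟩
  · exact Or.inl h3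
  · exact Or.inr (Or.inl h3)
  · refine Or.inr (Or.inr ⟨f₁ - b₁ * x, b₁, ?_, h3⟩)
    rw [h3, hf] at h1
    linarith

theorem NK.trans_of_up (h : NK Γ Δ w) : ∀ A : SL(2, ℂ), cls A ∈ Γ → A.1 1 0 = 0 → ∃ β, cls A = t β := by
  intro A hA hA0
  have h1 := h.up A (h.le hA) hA0
  by_cases h2 : A.1 0 0 ^ 2 = 1
  · exact up_pm hA0 h2
  obtain ⟨h3, h4⟩ := pow_up hA0 12
  have h5 : (A ^ 12).1 0 0 ^ 2 = 1 := by
    rw [h4]
    have h6 : A.1 0 0 ^ 12 = 1 := by linear_combination h1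
    rw [h6, one_pow]
  obtain ⟨β, hβ⟩ := up_pm h3 h5
  have h6 := t_conj hA0 β
  rw [← hβ, cls_pow] at h6
  have h7 : cls A * cls A ^ 12 * (cls A)⁻¹ = cls A ^ 12 := by
    rw [← pow_succ', pow_succ, mul_assoc, mul_inv_cancel, mul_one]
  rw [h7, ← cls_pow, hβ] at h6
  have h8 := t_inj h6
  have h9 : (A.1 0 0 ^ 2 - 1) * β = 0 := by linear_combination -h8
  have h10 : β = 0 := by
    rcases mul_eq_zero.1 h9 with h11 | h11
    · exact absurd (by linear_combination h11) h2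
    · exact h11
  rw [h10, t_zero, cls_pow] at hβ
  have h11 := h.tf (cls A) hA 12 (by norm_num) hβ
  exact ⟨0, by rw [h11, t_zero]⟩

theorem NH.eight (h : NH Γ Δ w κ g) (hq : κ ^ 2 ∈ Oz w) : ∃ v : ℂ, v ^ 2 + v + 1 = 0 ∧ Γ = F8 v := by
  have hw := h.nf.w2
  obtain ⟨v, hv, hvm⟩ := h.conj_mem hq
  have hv2 : v ^ 2 + v + 1 = 0 := by
    rcases hv with e | e
    · rw [e]
      exact hw
    · rw [e]
      linear_combination (w ^ 2 - w + 1) * hw
  have hle : F8 v ≤ Γ := by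
    unfold F8
    rw [Subgroup.closure_le]
    rintro x hx
    rcases hx with hx | hx
    · rw [hx]
      exact h.nf.one
    · rw [Set.mem_singleton_iff] at hx
      rw [hx]
      exact hvm
  refine ⟨v, hv2, le_antisymm ?_ hle⟩
  obtain ⟨x, y, hy, hper⟩ := h.nf.per
  have h4 : t (4 * v) ∈ Γ := by
    have h1 := hle (F8.t_mem hv2 0 1)
    have h2 : ((0 : ℤ) : ℂ) + ((1 : ℤ) : ℂ) * (4 * v) = 4 * v := by
      push_cast
      ring
    rwa [h2] at h1
  obtain ⟨a₀, b₀, h4v⟩ := (hper _).1 h4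
  have hb₀ : b₀ = 1 ∨ b₀ = -1 := by
    rcases eik_split hw hv h4v with e | e | ⟨a₁, b₁, ea, eb⟩
    · exact Or.inl e
    · exact Or.inr e
    · exfalso
      refine eik_no_two h.nf hv2 hvm ((hper _).2 ⟨-2 - a₁, -b₁, ?_⟩)
      rw [ea, eb] at h4v
      push_cast at h4v ⊢
      linear_combination (-1 / 2) * h4v
  have hb2 : (b₀ : ℂ) * b₀ = 1 := by
    rcases hb₀ with e | e
    · rw [e]
      norm_num
    · rw [e]
      norm_num
  intro z hz
  obtain ⟨A, hA, hent, -⟩ := h.entries hq hz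
  obtain ⟨D, hD, hDA⟩ := F8.trans hv2 A (fun i j => eik_oz hw hv (hent i j))
  have hDAm : cls (D * A) ∈ Γ := by
    rw [cls_mul, hA]
    exact Γ.mul_mem (hle hD) hz
  obtain ⟨β, hβ⟩ := h.nf.trans_of_up (D * A) hDAm hDA
  obtain ⟨a, b, hab⟩ := (hper β).1 (by rw [← hβ]; exact hDAm)
  have hβ2 : β = ((a - b * b₀ * a₀ : ℤ) : ℂ) + ((b * b₀ : ℤ) : ℂ) * (4 * v) := by
    rw [hab, h4v]
    push_cast
    linear_combination (-(b : ℂ) * (x + y * w)) * hb2
  have hβm : t β ∈ F8 v := by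
    rw [hβ2]
    exact F8.t_mem hv2 _ _
  have hz2 : z = (cls D)⁻¹ * t β := by
    rw [← hβ, cls_mul, hA]
    group
  rw [hz2]
  exact (F8 v).mul_mem ((F8 v).inv_mem hD) hβm

end Pool.Agent.HSC
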