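import Pool.Agent.HSC.Fuk
import Pool.Agent.HSG.Inq

/-!
# HSC/Smk: small minimal entries

Copied from HSG/Sml.
-/

set_option autoImplicit false

noncomputable section

namespace Pool.Agent.HSC

open Pool.Agent.HSK Pool.Agent.HSG Matrix
open scoped MatrixGroups commutatorElement

variable {Γ Δ : Subgroup PSL(2, ℂ)} {w κ : ℂ} {g : SL(2, ℂ)}

private theorem sml_W (hk : κ ≠ 0) (hg : g.1 = !![0, -κ⁻¹; κ, 0]) (N : ℂ) :
    (g * T N * g * T 1 * g).1 = !![-κ, κ⁻¹; κ * (κ ^ 2 * N - 1), -(κ * N)] := by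
  have e : (g * T N * g * T 1 * g).1 = g.1 * (T N).1 * g.1 * (T 1).1 * g.1 := rfl
  rw [e, hg, T_coe, T_coe]
  ext i j
  fin_cases i <;> fin_cases j <;> simp [Matrix.mul_apply, Fin.sum_univ_two] <;> field_simp <;> ring

private theorem sml_V (hk : κ ≠ 0) (hg : g.1 = !![0, -κ⁻¹; κ, 0]) (N u : ℂ) :
    (g * T N * g * T 1 * g * T u * g).1 1 0 = κ ^ 2 * (u * (κ ^ 2 * N - 1) - N) := by
  have e : (g * T N * g * T 1 * g * T u * g).1 = (g * T N * g * T 1 * g).1 * (T u).1 * g.1 := rfl
  rw [e, sml_W hk hg, hg, T_coe]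
  simp [Matrix.mul_apply, Fin.sum_univ_two]
  ring

theorem NH.small (h : NH Γ Δ w κ g) : κ ^ 2 ∈ Oz w ∨ 2.1 < Complex.normSq κ := by
  have hw := h.nf.w2
  have hk := h.k0
  obtain ⟨hre, him⟩ := w_re hw
  by_contra hcon
  push Not at hcon
  obtain ⟨hq, hr2⟩ := hcon
  have hr1 := h.one_le
  obtain ⟨N, hN, hN1, hN2⟩ := oz_dir hw (κ ^ 2)
  have hNz := oz_root hw hN
  have hN0 : N ≠ 0 := by
    rintro rfl
    norm_num at hN
  set q' : ℂ := N * κ ^ 2 with hq'
  have hqq : κ ^ 2 = q' * N ^ 5 := by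
    rw [hq']
    linear_combination -(κ ^ 2) * hN
  have hq'z : q' ∉ Oz w := by
    intro hz
    apply hq
    rw [hqq]
    exact oz_mul hw hz (oz_pow hw hNz 5)
  have hq1 : q' - 1 ≠ 0 := by
    intro h1
    apply hq'z
    rw [sub_eq_zero.1 h1]
    exact oz_one
  have hWm : cls (g * T N * g * T 1 * g) ∈ Δ := by
    simp only [cls_mul]
    exact Δ.mul_mem (Δ.mul_mem (Δ.mul_mem (Δ.mul_mem h.gm (h.nf.t_mem hNz)) h.gm) (h.nf.t_mem oz_one)) h.gm
  have hWe := sml_W hk h.gc N
  have hW10 : (g * T N * g * T 1 * g).1 1 0 = κ * (q' - 1) := by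
    rw [hWe, hq']
    change κ * (κ ^ 2 * N - 1) = κ * (N * κ ^ 2 - 1)
    ring
  have hW00 : (g * T N * g * T 1 * g).1 0 0 = -κ := by
    rw [hWe]
    simp
  have hW0 : (g * T N * g * T 1 * g).1 1 0 ≠ 0 := by
    rw [hW10]
    exact mul_ne_zero hk hq1
  have hkp : 0 < Complex.normSq κ := Complex.normSq_pos.2 hk
  have hnq : Complex.normSq q' = Complex.normSq κ ^ 2 := by
    rw [hq', map_mul, root_norm hN, map_pow, one_mul]
  rcases h.gap hWm hW0 with hg1 | hg1
  · have hpt := h.full _ hWm hg1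
    have hpe : pt (g * T N * g * T 1 * g) = -1 / (q' - 1) := by
      unfold pt
      rw [hW00, hW10]
      field_simp
    rw [hpe] at hpt
    rw [hW10, map_mul] at hg1
    have hn1 : Complex.normSq (q' - 1) = 1 := by
      have := mul_left_cancel₀ hkp.ne' (hg1.trans (mul_one _).symm)
      exact this
    have hn2 : Complex.normSq (-1 / (q' - 1)) = 1 := by
      rw [map_div₀, hn1, Complex.normSq_neg, map_one, div_one]
    have h6 := oz_unit hw hpt hn2
    have h5 : q' - 1 = -(-1 / (q' - 1)) ^ 5 := by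
      have h7 : (-1 / (q' - 1)) * (-(q' - 1)) = 1 := by
        field_simp
      have h8 : (-1 / (q' - 1)) * ((-1 / (q' - 1)) ^ 5) = 1 := by
        rw [← pow_succ']
        exact h6
      have h9 : (-1 / (q' - 1)) ≠ 0 := by
        intro h0
        rw [h0] at h7
        simp at h7
      have h10 := mul_left_cancel₀ h9 (h7.trans h8.symm)
      linear_combination -h10
    apply hq'z
    have h11 : q' = 1 + -(-1 / (q' - 1)) ^ 5 := by
      linear_combination h5
    rw [h11]
    exact oz_add oz_one (oz_neg (oz_pow hw hpt 5))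
  · rw [hW10, map_mul, Complex.normSq_apply (q' - 1)] at hg1
    simp only [Complex.sub_re, Complex.sub_im, Complex.one_re, Complex.one_im, sub_zero] at hg1
    obtain ⟨s, u₁, hs, hsv, hu6, hu1⟩ : ∃ (s : ℝ) (u₁ : ℂ), s ^ 2 = 3 ∧ 0 ≤ s * q'.im ∧ u₁ ^ 6 = 1 ∧ u₁ = ⟨1 / 2, s / 2⟩ := by
      have hw3 := w_pow hw
      rcases le_total 0 (w.im * q'.im) with hv | hv
      · refine ⟨2 * w.im, 1 + w, by nlinarith, by nlinarith, ?_, ?_⟩
        · have e : 1 + w = -w ^ 2 := by linear_combination hw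
          rw [e]
          linear_combination (w ^ 9 + w ^ 6 + w ^ 3 + 1) * hw3
        · apply Complex.ext
          · simp only [Complex.add_re, Complex.one_re, hre]
            norm_num
          · simp only [Complex.add_im, Complex.one_im]
            ring
      · refine ⟨-(2 * w.im), -w, by nlinarith, by nlinarith, ?_, ?_⟩
        · linear_combination (w ^ 3 + 1) * hw3
        · apply Complex.ext
          · simp only [Complex.neg_re, hre]
            norm_num
          · simp only [Complex.neg_im]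
            ring
    have hu0 : u₁ ≠ 0 := by
      rintro rfl
      norm_num at hu6
    have hnq2 : q'.re ^ 2 + q'.im ^ 2 = Complex.normSq κ ^ 2 := by
      rw [← hnq, Complex.normSq_apply]
      ring
    have hN3 : 3 * Complex.normSq κ ^ 2 ≤ 4 * q'.re ^ 2 := by
      rw [map_pow] at hN2
      exact hN2
    obtain ⟨i1, i2⟩ := inq7 hr1 hr2 hnq2 hN1 hN3 (by linarith [hg1]) hs hsv
    have hnu : Complex.normSq (q' - 1 - u₁) = (q'.re - 3 / 2) ^ 2 + (q'.im - s / 2) ^ 2 := by
      rw [hu1, Complex.normSq_apply]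
      simp only [Complex.sub_re, Complex.sub_im, Complex.one_re, Complex.one_im]
      ring
    rw [← hnu] at i2
    have hVm : cls (g * T N * g * T 1 * g * T (N * u₁ ^ 5) * g) ∈ Δ := by
      rw [cls_mul, cls_mul]
      exact Δ.mul_mem (Δ.mul_mem hWm (h.nf.t_mem (oz_mul hw hNz (oz_pow hw (oz_root hw hu6) 5)))) h.gm
    have hVe : (g * T N * g * T 1 * g * T (N * u₁ ^ 5) * g).1 1 0 = κ ^ 2 * (N * u₁ ^ 5 * (q' - 1 - u₁)) := by
      rw [sml_V hk h.gc, hq']
      linear_combination κ ^ 2 * N * hu6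
    have hVn : Complex.normSq ((g * T N * g * T 1 * g * T (N * u₁ ^ 5) * g).1 1 0) < Complex.normSq κ := by
      rw [hVe, map_mul, map_mul, map_mul, map_pow, map_pow, root_norm hN, root_norm hu6]
      nlinarith
    have hV0 : (g * T N * g * T 1 * g * T (N * u₁ ^ 5) * g).1 1 0 = 0 := by
      by_contra hne
      exact absurd (h.min _ hVm hne) (not_le.2 hVn)
    rw [hVe] at hV0
    have hz : q' - 1 - u₁ = 0 := by
      rcases mul_eq_zero.1 hV0 with h0 | h0
      · exact absurd h0 (pow_ne_zero 2 hk)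
      · rcases mul_eq_zero.1 h0 with h0 | h0
        · exact absurd h0 (mul_ne_zero hN0 (pow_ne_zero 5 hu0))
        · exact h0
    have hre2 : q'.re = 3 / 2 := by
      have := congrArg Complex.re hz
      rw [hu1] at this
      simp only [Complex.sub_re, Complex.one_re, Complex.zero_re] at this
      linarith
    have him2 : q'.im = s / 2 := by
      have := congrArg Complex.im hz
      rw [hu1] at this
      simp only [Complex.sub_im, Complex.one_im, Complex.zero_im] at this
      linarith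
    rw [hre2, him2] at hnq2
    nlinarith

end Pool.Agent.HSC
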