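import Pool.Agent.HSG.Nf
import Pool.Agent.HSG.Eis

/-!
# HSC/Wd: words in `g` and the translations

`g` is `z ↦ -1 / (q z)`, `q = κ ^ 2`.  For a word `g T_{t 1} g T_{t 2} ... T_{t k} g` the lower left entry is `κ P_k` (`k` even) or `κ ^ 2 P_k` (`k` odd) and the lower right entry is `-κ P_{k-1}` or `-P_{k-1}`,
where `(P_k, P_{k-1}) = pr q [t k, ..., t 1]` (the last letter comes first).  `MinW w q`: the lower left entries of all words are zero or of modulus at least `|κ|`.
-/

set_option autoImplicit false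

noncomputable section

namespace Pool.Agent.HSC

open Pool.Agent.HSK Pool.Agent.HSG Matrix
open scoped MatrixGroups commutatorElement

def pr (q : ℂ) : List ℂ → ℂ × ℂ
  | [] => (1, 0)
  | t :: l => (if l.length % 2 = 0 then t * (pr q l).1 - (pr q l).2 else q * t * (pr q l).1 - (pr q l).2, (pr q l).1)

def MinW (w q : ℂ) : Prop := ∀ l : List ℂ, (∀ t ∈ l, t ∈ Oz w) → (pr q l).1 ≠ 0 →
  (l.length % 2 = 0 → 1 ≤ Complex.normSq (pr q l).1) ∧ (l.length % 2 = 1 → 1 ≤ ‖q‖ * Complex.normSq (pr q l).1)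

variable {w κ q : ℂ}

/-- the word -/
private def wd (g : SL(2, ℂ)) : List ℂ → SL(2, ℂ)
  | [] => g
  | t :: l => wd g l * T t * g

private theorem wd_mem {S : Subgroup PSL(2, ℂ)} {g : SL(2, ℂ)} (gm : cls g ∈ S) (lat : ∀ β ∈ Oz w, cls (T β) ∈ S) :
    ∀ l : List ℂ, (∀ t ∈ l, t ∈ Oz w) → cls (wd g l) ∈ S := by
  intro l
  induction l with
  | nil => intro _; exact gm
  | cons t l ih =>
    intro h
    have h1 := ih fun s hs => h s (List.mem_cons_of_mem _ hs)
    have h2 := lat t (h t (List.mem_cons_self ..))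
    have e : cls (wd g (t :: l)) = cls (wd g l) * cls (T t) * cls g := by
      rw [← cls_mul, ← cls_mul]
      rfl
    rw [e]
    exact S.mul_mem (S.mul_mem h1 h2) gm

private theorem wd_row {g : SL(2, ℂ)} (k0 : κ ≠ 0) (gc : g.1 = !![0, -κ⁻¹; κ, 0]) : ∀ l : List ℂ,
    (l.length % 2 = 0 → (wd g l).1 1 0 = κ * (pr (κ ^ 2) l).1 ∧ (wd g l).1 1 1 = -(κ * (pr (κ ^ 2) l).2)) ∧
    (l.length % 2 = 1 → (wd g l).1 1 0 = κ ^ 2 * (pr (κ ^ 2) l).1 ∧ (wd g l).1 1 1 = -(pr (κ ^ 2) l).2) := by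
  have g00 : g.1 0 0 = 0 := by rw [gc]; simp
  have g01 : g.1 0 1 = -κ⁻¹ := by rw [gc]; simp
  have g10 : g.1 1 0 = κ := by rw [gc]; simp
  have g11 : g.1 1 1 = 0 := by rw [gc]; simp
  intro l
  induction l with
  | nil =>
    refine ⟨fun _ => ⟨?_, ?_⟩, fun h => absurd h (by simp)⟩
    · simp only [wd, pr, g10, mul_one]
    · simp only [wd, pr, g11, mul_zero, neg_zero]
  | cons t l ih =>
    have s10 : (wd g (t :: l)).1 1 0 = ((wd g l).1 1 0 * t + (wd g l).1 1 1) * κ := by
      have e : wd g (t :: l) = wd g l * T t * g := rfl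
      rw [e, nf_e10, nf_e10, nf_e11, nf_t01, nf_t10, nf_t00, nf_t11, g00, g10]
      ring
    have s11 : (wd g (t :: l)).1 1 1 = -((wd g l).1 1 0 * κ⁻¹) := by
      have e : wd g (t :: l) = wd g l * T t * g := rfl
      rw [e, nf_e11, nf_e10, nf_e11, nf_t01, nf_t10, nf_t00, nf_t11, g01, g11]
      ring
    rw [s10, s11, List.length_cons]
    have e2 : (pr (κ ^ 2) (t :: l)).2 = (pr (κ ^ 2) l).1 := rfl
    rw [e2]
    rcases Nat.mod_two_eq_zero_or_one l.length with hl | hl
    · refine ⟨fun h => absurd h (by omega), fun _ => ?_⟩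
      have e1 : (pr (κ ^ 2) (t :: l)).1 = t * (pr (κ ^ 2) l).1 - (pr (κ ^ 2) l).2 := by
        simp only [pr, hl, if_true]
      obtain ⟨i1, i2⟩ := ih.1 hl
      rw [e1, i1, i2]
      constructor
      · ring
      · field_simp
    · refine ⟨fun _ => ?_, fun h => absurd h (by omega)⟩
      have e1 : (pr (κ ^ 2) (t :: l)).1 = κ ^ 2 * t * (pr (κ ^ 2) l).1 - (pr (κ ^ 2) l).2 := by
        simp only [pr, hl]
        norm_num
      obtain ⟨i1, i2⟩ := ih.2 hl
      rw [e1, i1, i2]
      constructor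
      · ring
      · field_simp

theorem minW_of {S : Subgroup PSL(2, ℂ)} {g : SL(2, ℂ)} (k0 : κ ≠ 0) (gm : cls g ∈ S) (gc : g.1 = !![0, -κ⁻¹; κ, 0])
    (lat : ∀ β ∈ Oz w, cls (T β) ∈ S)
    (min : ∀ A : SL(2, ℂ), cls A ∈ S → A.1 1 0 ≠ 0 → Complex.normSq κ ≤ Complex.normSq (A.1 1 0)) : MinW w (κ ^ 2) := by
  intro l hl h0
  have hm := wd_mem gm lat l hl
  have hr := wd_row k0 gc l
  have hk : 0 < Complex.normSq κ := Complex.normSq_pos.2 k0
  have hk2 : κ ^ 2 ≠ 0 := pow_ne_zero 2 k0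
  constructor
  · intro he
    have h1 := (hr.1 he).1
    have h2 := min _ hm (by rw [h1]; exact mul_ne_zero k0 h0)
    rw [h1, map_mul] at h2
    by_contra h3
    rw [not_le] at h3
    have h4 := mul_lt_mul_of_pos_left h3 hk
    rw [mul_one] at h4
    exact absurd h2 (not_le.2 h4)
  · intro ho
    have h1 := (hr.2 ho).1
    have h2 := min _ hm (by rw [h1]; exact mul_ne_zero hk2 h0)
    rw [h1, map_mul, map_pow] at h2
    have h5 : ‖κ ^ 2‖ = Complex.normSq κ := by rw [norm_pow, Complex.normSq_eq_norm_sq]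
    rw [h5]
    by_contra h3
    rw [not_le] at h3
    have h4 := mul_lt_mul_of_pos_left h3 hk
    rw [mul_one] at h4
    have h6 : Complex.normSq κ ^ 2 * Complex.normSq (pr (κ ^ 2) l).1 = Complex.normSq κ * (Complex.normSq κ * Complex.normSq (pr (κ ^ 2) l).1) := by ring
    rw [h6] at h2
    exact absurd h2 (not_le.2 h4)

/-- multiply every second letter by `u` -/
private def tw (u : ℂ) : List ℂ → List ℂ
  | [] => []
  | t :: l => (if l.length % 2 = 0 then t else u * t) :: tw u l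

private theorem tw_length (u : ℂ) : ∀ l : List ℂ, (tw u l).length = l.length := by
  intro l
  induction l with
  | nil => rfl
  | cons t l ih => simp only [tw, List.length_cons, ih]

private theorem tw_pr (u q : ℂ) : ∀ l : List ℂ, pr (u * q) l = pr q (tw u l) := by
  intro l
  induction l with
  | nil => rfl
  | cons t l ih =>
    rcases Nat.mod_two_eq_zero_or_one l.length with hl | hl
    · simp only [tw, pr, tw_length, hl, if_true, ih]
    · have h10 : ¬ ((1 : ℕ) = 0) := one_ne_zero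
      simp only [tw, pr, tw_length, hl, if_neg h10, ih]
      rw [show u * q * t = q * (u * t) by ring]

private theorem tw_mem (hw : w ^ 2 + w + 1 = 0) {u : ℂ} (hu : u ^ 6 = 1) : ∀ l : List ℂ, (∀ t ∈ l, t ∈ Oz w) → ∀ t ∈ tw u l, t ∈ Oz w := by
  intro l
  induction l with
  | nil => intro _ t ht; exact absurd ht (List.not_mem_nil)
  | cons s l ih =>
    intro h t ht
    rw [tw, List.mem_cons] at ht
    rcases ht with ht | ht
    · rw [ht]
      have hs := h s (List.mem_cons_self ..)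
      split_ifs
      · exact hs
      · exact oz_mul hw (oz_root hw hu) hs
    · exact ih (fun r hr => h r (List.mem_cons_of_mem _ hr)) t ht

theorem MinW.unit (hw : w ^ 2 + w + 1 = 0) (h : MinW w q) {u : ℂ} (hu : u ^ 6 = 1) : MinW w (u * q) := by
  intro l hl h0
  rw [tw_pr] at h0 ⊢
  have h1 := h (tw u l) (tw_mem hw hu l hl) h0
  rw [tw_length] at h1
  have h2 : ‖u‖ = 1 := by
    have h3 : ‖u‖ ^ 6 = 1 := by rw [← norm_pow, hu, norm_one]
    exact (pow_eq_one_iff_of_nonneg (norm_nonneg u) (by norm_num)).1 h3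
  rw [norm_mul, h2, one_mul]
  exact h1

private theorem cj_mem (hw : w ^ 2 + w + 1 = 0) {t : ℂ} (ht : t ∈ Oz w) : (starRingEnd ℂ) t ∈ Oz w := by
  obtain ⟨x, y, rfl⟩ := ht
  have hr := (w_re hw).1
  have hc : (starRingEnd ℂ) w = -1 - w := by
    apply Complex.ext
    · rw [Complex.conj_re, Complex.sub_re, Complex.neg_re, Complex.one_re, hr]
      norm_num
    · rw [Complex.conj_im, Complex.sub_im, Complex.neg_im, Complex.one_im]
      ring
  refine ⟨x - y, -y, ?_⟩
  rw [map_add, map_mul, hc, map_intCast, map_intCast]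
  push_cast
  ring

private theorem cj_pr (q : ℂ) : ∀ l : List ℂ, pr ((starRingEnd ℂ) q) (l.map (starRingEnd ℂ)) = ((starRingEnd ℂ) (pr q l).1, (starRingEnd ℂ) (pr q l).2) := by
  intro l
  induction l with
  | nil => simp [pr]
  | cons t l ih =>
    rcases Nat.mod_two_eq_zero_or_one l.length with hl | hl
    · simp only [List.map_cons, pr, List.length_map, hl, if_true, ih, map_sub, map_mul]
    · have h10 : ¬ ((1 : ℕ) = 0) := one_ne_zero
      simp only [List.map_cons, pr, List.length_map, hl, if_neg h10, ih, map_sub, map_mul]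

theorem MinW.conj (hw : w ^ 2 + w + 1 = 0) (h : MinW w q) : MinW w ((starRingEnd ℂ) q) := by
  intro l hl h0
  have e : l = (l.map (starRingEnd ℂ)).map (starRingEnd ℂ) := by
    rw [List.map_map]
    have e2 : ((starRingEnd ℂ) : ℂ → ℂ) ∘ ((starRingEnd ℂ) : ℂ → ℂ) = id := by
      funext z
      simp
    rw [e2, List.map_id]
  have e3 : pr ((starRingEnd ℂ) q) l = ((starRingEnd ℂ) (pr q (l.map (starRingEnd ℂ))).1, (starRingEnd ℂ) (pr q (l.map (starRingEnd ℂ))).2) := by
    have e4 := cj_pr q (l.map (starRingEnd ℂ))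
    rw [← e] at e4
    exact e4
  rw [e3] at h0 ⊢
  have h1 : (pr q (l.map (starRingEnd ℂ))).1 ≠ 0 := by
    intro h2
    apply h0
    show (starRingEnd ℂ) (pr q (l.map (starRingEnd ℂ))).1 = 0
    rw [h2, map_zero]
  have h2 := h (l.map (starRingEnd ℂ)) (by
    intro t ht
    obtain ⟨s, hs, rfl⟩ := List.mem_map.1 ht
    exact cj_mem hw (hl s hs)) h1
  rw [List.length_map] at h2
  show (l.length % 2 = 0 → 1 ≤ Complex.normSq ((starRingEnd ℂ) (pr q (l.map (starRingEnd ℂ))).1)) ∧
    (l.length % 2 = 1 → 1 ≤ ‖(starRingEnd ℂ) q‖ * Complex.normSq ((starRingEnd ℂ) (pr q (l.map (starRingEnd ℂ))).1))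
  rw [Complex.normSq_conj, Complex.norm_conj]
  exact h2

end Pool.Agent.HSC
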