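import Pool.Agent.HSC.Ndg
import Pool.Agent.HSC.Dgq
import Pool.Agent.HSC.Eik
import Pool.Agent.HSC.Ink
import Pool.Agent.HSC.Smk
import Pool.Agent.HSC.Dod
import Pool.Agent.HSC.Cls
import Pool.Agent.HSC.Wd

/-!
# HSC/Ask: the theorem in normal form

PROOF PLAN.  `exists_min`: `A₀` minimal, `normSq (A₀.1 1 0) ≤ 3` by `hr`.  If `= 3`: if some full element `B` has `pt B - pt B⁻¹ ∈ Oz w`, then `NK.nd`, `ND3.nt`, `NT.false`; otherwise `NK.no_diag`.  If `< 3`: `NK.nh` gives `p`, `κ`, `g`, `h' : NH ...`; `NH.small`: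
if `κ ^ 2 ∈ Oz w` then `NH.eight`; otherwise `2.1 < normSq κ = ‖κ ^ 2‖`, `minW_of` and `MinW.cls`: `κ ^ 2 = u φ ^ 2` (right alternative), or `κ ^ 2 ∈ Oz w` (`NH.eight`), or `κ ^ 2` is integral and its inverse is not, against `NH.unit`.
-/

set_option autoImplicit false

noncomputable section

namespace Pool.Agent.HSC

open Pool.Agent.HSK Pool.Agent.HSG Matrix
open scoped MatrixGroups commutatorElement

variable {Γ Δ : Subgroup PSL(2, ℂ)} {w κ : ℂ} {g : SL(2, ℂ)}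

theorem NK.main (h : NK Γ Δ w) (hr : ∃ A : SL(2, ℂ), cls A ∈ Δ ∧ A.1 1 0 ≠ 0 ∧ Complex.normSq (A.1 1 0) ≤ 3) :
    ∃ p : ℂ, (∃ v : ℂ, v ^ 2 + v + 1 = 0 ∧ cj (t p) Γ = F8 v) ∨
      ∃ (κ : ℂ) (g : SL(2, ℂ)) (u : ℂ), NH (cj (t p) Γ) (cj (t p) Δ) w κ g ∧ u ^ 6 = 1 ∧
        κ ^ 2 = u * (((3 + Real.sqrt 5) / 2 : ℝ) : ℂ) := by
  obtain ⟨A₀, hA, h0, hm⟩ := h.exists_min
  obtain ⟨A₁, hA₁, h₁0, h₁r⟩ := hr
  have hle : Complex.normSq (A₀.1 1 0) ≤ 3 := (hm A₁ hA₁ h₁0).trans h₁r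
  rcases hle.lt_or_eq with h3 | h3
  · obtain ⟨p, κ, g, h'⟩ := h.nh hA h0 hm h3
    refine ⟨p, ?_⟩
    rcases h'.small with hq | h2
    · exact Or.inl (h'.eight hq)
    · have hMW : MinW w (κ ^ 2) := minW_of h'.k0 h'.gm h'.gc (fun β hβ => (h'.nf.lat β).2 hβ) h'.min
      have hn : ‖κ ^ 2‖ = Complex.normSq κ := by rw [norm_pow, Complex.normSq_eq_norm_sq]
      rcases MinW.cls h'.nf.w2 hMW (by rw [hn]; exact h2.le) (by rw [hn]; exact h'.lt.le) with ⟨u, hu, hk⟩ | hq | ⟨i1, i2, -⟩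
      · exact Or.inr ⟨κ, g, u, h', hu, hk⟩
      · exact Or.inl (h'.eight hq)
      · exact absurd (h'.unit i1) i2
  · exfalso
    have hm3 : ∀ A : SL(2, ℂ), cls A ∈ Δ → A.1 1 0 ≠ 0 → 3 ≤ Complex.normSq (A.1 1 0) := fun A a b => h3 ▸ hm A a b
    by_cases hB : ∃ B : SL(2, ℂ), cls B ∈ Δ ∧ Complex.normSq (B.1 1 0) = 3 ∧ pt B - pt B⁻¹ ∈ Oz w
    · obtain ⟨B, b1, b2, b3⟩ := hB
      obtain ⟨p, κ, g, hn⟩ := h.nd hm3 b1 b2 b3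
      exact hn.nt.false
    · exact h.no_diag hm3 hA h3 fun B b1 b2 b3 => hB ⟨B, b1, b2, b3⟩

end Pool.Agent.HSC
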