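import Pool.Agent.HSC.Wd

/-!
# HSC/Chk: a checker for words

Eisenstein integers are pairs `(a, b)`, standing for `a + b w`; polynomials in `q` are lists of coefficients, lowest degree first.  `ppr l` are the polynomials `P_k`, `P_{k-1}` of `pr`; if `s q = X + d` then `tay s X p` is the
polynomial `s ^ m p (q)` in the variable `d` (`m + 1` the number of coefficients of `p`).

PROOF PLAN for `leaf_sound`.  `pe w q p` (value of a list of coefficients, `p.foldr (fun a v => ew w a + q * v) 0`): `pe` of `padd`, of `map (emul t)`, of `map (esmul n)` (`w ^ 2 = -w - 1`); so `pe w q (ppr l).1 = (pr q (l.map (ew w))).1` (and `.2`), by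
induction on `l`.  `s * pe w d (tay s X p) = s ^ p.length * pe w q p` if `s q = ew w X + d`, by induction on `p`.  Here `d = (s x - a) + (s y - b) w`, so `normSq d ≤ 3`.  If `tay s X (ppr l).1 = c :: cs`, then
`s ^ cs.length * P = ew w c + d * pe w d cs` (the lengths of `tay` and `ppr` agree: `(tay s X p).length = p.length`), and `‖d * pe w d cs‖ ≤ es.sum` by `esok` (`‖ew w c_j d ^ j‖ ^ 2 = enm c_j * normSq d ^ j ≤ 3 ^ j * enm c_j ≤ e_j ^ 2`).
`normSq (ew w c) = enm c`.  So `‖P‖ s ^ m < s ^ m` (`u0 + es.sum < s ^ m`) for even length, `‖q‖ * ‖P‖ ^ 2 < 1` for odd length (`s ‖q‖ ≤ ‖ew w X‖ + √3 ≤ x0 + 2`); with `hM` (letters are in `Oz w`) `P = 0`; if `nz = true` then `‖P‖ s ^ m ≥ l0 - es.sum > 0`.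
-/

set_option autoImplicit false

noncomputable section

namespace Pool.Agent.HSC

open Pool.Agent.HSK Pool.Agent.HSG Matrix
open scoped MatrixGroups commutatorElement

abbrev EI := ℤ × ℤ

def emul (a b : EI) : EI := (a.1 * b.1 - a.2 * b.2, a.1 * b.2 + a.2 * b.1 - a.2 * b.2)

def eadd (a b : EI) : EI := (a.1 + b.1, a.2 + b.2)

def esmul (n : ℤ) (a : EI) : EI := (n * a.1, n * a.2)

def enm (a : EI) : ℤ := a.1 * a.1 - a.1 * a.2 + a.2 * a.2

def padd : List EI → List EI → List EI
  | [], m => m
  | a :: l, [] => a :: l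
  | a :: l, b :: m => eadd a b :: padd l m

def ppr : List EI → List EI × List EI
  | [] => ([(1, 0)], [])
  | t :: l => (if l.length % 2 = 0 then padd ((ppr l).1.map (emul t)) ((ppr l).2.map (esmul (-1)))
      else padd ((0, 0) :: (ppr l).1.map (emul t)) ((ppr l).2.map (esmul (-1))), (ppr l).1)

def tay (s : ℤ) (X : EI) : List EI → List EI
  | [] => []
  | a :: l => padd [esmul (s ^ l.length) a] (padd ((tay s X l).map (emul X)) ((0, 0) :: tay s X l))

/-- the integers `e_j` bound the coefficients of `d ^ j` -/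
def esok : ℤ → List EI → List ℤ → Bool
  | _, [], [] => true
  | f, c :: cs, e :: es => decide (0 ≤ e) && (decide (f * enm c ≤ e * e) && esok (3 * f) cs es)
  | _, _, _ => false

/-- the last letter of the word `l` comes first -/
def leaf (nz : Bool) (s : ℤ) (X : EI) (l : List EI) (es : List ℤ) (l0 u0 x0 : ℤ) : Bool :=
  match tay s X (ppr l).1 with
  | [] => false
  | c :: cs => esok 3 cs es && decide (0 ≤ l0) && decide (0 ≤ u0) && decide (0 ≤ x0) && decide (enm c ≤ u0 * u0) &&
      (!nz || (decide (l0 * l0 ≤ enm c) && decide (es.sum < l0))) &&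
      (if l.length % 2 = 0 then decide (u0 + es.sum < s ^ cs.length)
        else decide (enm X ≤ x0 * x0) && decide ((x0 + 2) * (u0 + es.sum) ^ 2 < s ^ (2 * cs.length + 1)))

inductive Tr
  | o : Tr
  | q : Tr
  | s (i : ℕ) (es : List ℤ) (l0 u0 x0 : ℤ) : Tr
  | z (i : ℕ) (es : List ℤ) (u0 x0 : ℤ) : Tr
  | n (a b c d : Tr) : Tr

/-- `(a, b) / s` is the centre of the box, `1 / s` half of its width -/
def chk (wds sps : List (List EI)) : ℤ → ℤ → ℤ → Tr → Bool
  | s, a, b, Tr.o => decide (b + 1 < 0) || decide (a + 1 < 2 * (b - 1)) || decide ((3 * s + 2) ^ 2 ≤ enm (a, b)) ||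
      (decide (0 ≤ 21 * s - 18) && decide (100 * enm (a, b) ≤ (21 * s - 18) ^ 2))
  | s, a, b, Tr.q => decide (32 * (a + 1) ≤ 97 * s) && decide (95 * s ≤ 32 * (a - 1)) && decide (32 * (b + 1) ≤ s)
  | s, a, b, Tr.s i es l0 u0 x0 => leaf true s (a, b) (wds.getD i []) es l0 u0 x0
  | s, a, b, Tr.z i es u0 x0 => leaf false s (a, b) (sps.getD i []) es 0 u0 x0
  | s, a, b, Tr.n t1 t2 t3 t4 => chk wds sps (2 * s) (2 * a - 1) (2 * b - 1) t1 && (chk wds sps (2 * s) (2 * a - 1) (2 * b + 1) t2 &&
      (chk wds sps (2 * s) (2 * a + 1) (2 * b - 1) t3 && chk wds sps (2 * s) (2 * a + 1) (2 * b + 1) t4))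

def ew (w : ℂ) (a : EI) : ℂ := a.1 + a.2 * w

variable {w q : ℂ}

private def chkPe (w q : ℂ) (p : List EI) : ℂ := p.foldr (fun a v => ew w a + q * v) 0

private theorem chk_nil (w q : ℂ) : chkPe w q [] = 0 := rfl

private theorem chk_cons (w q : ℂ) (a : EI) (p : List EI) : chkPe w q (a :: p) = ew w a + q * chkPe w q p := rfl

private theorem chk_ewm (hw : w ^ 2 + w + 1 = 0) (a b : EI) : ew w (emul a b) = ew w a * ew w b := by
  simp only [ew, emul]
  push_cast
  linear_combination (-(a.2 * b.2 : ℂ)) * hw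

private theorem chk_ewa (a b : EI) : ew w (eadd a b) = ew w a + ew w b := by
  simp only [ew, eadd]
  push_cast
  ring

private theorem chk_ews (n : ℤ) (a : EI) : ew w (esmul n a) = n * ew w a := by
  simp only [ew, esmul]
  push_cast
  ring

private theorem chk_padd (l m : List EI) : chkPe w q (padd l m) = chkPe w q l + chkPe w q m := by
  induction l generalizing m with
  | nil => rw [padd, chk_nil, zero_add]
  | cons a l ih =>
    cases m with
    | nil => rw [padd, chk_nil, add_zero]
    | cons b m =>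
      rw [padd, chk_cons, chk_cons, chk_cons, chk_ewa, ih]
      ring

private theorem chk_mul (hw : w ^ 2 + w + 1 = 0) (t : EI) (l : List EI) :
    chkPe w q (l.map (emul t)) = ew w t * chkPe w q l := by
  induction l with
  | nil => rw [List.map_nil, chk_nil, mul_zero]
  | cons a l ih =>
    rw [List.map_cons, chk_cons, chk_cons, chk_ewm hw, ih]
    ring

private theorem chk_smul (n : ℤ) (l : List EI) :
    chkPe w q (l.map (esmul n)) = n * chkPe w q l := by
  induction l with
  | nil => rw [List.map_nil, chk_nil, mul_zero]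
  | cons a l ih =>
    rw [List.map_cons, chk_cons, chk_cons, chk_ews, ih]
    ring

private theorem chk_zero_cons (l : List EI) : chkPe w q ((0, 0) :: l) = q * chkPe w q l := by
  rw [chk_cons]
  simp [ew]

private theorem chk_ppr (hw : w ^ 2 + w + 1 = 0) (l : List EI) :
    chkPe w q (ppr l).1 = (pr q (l.map (ew w))).1 ∧ chkPe w q (ppr l).2 = (pr q (l.map (ew w))).2 := by
  induction l with
  | nil => constructor <;> simp [ppr, pr, chkPe, ew]
  | cons t l ih =>
    obtain ⟨h1, h2⟩ := ih
    rw [List.map_cons, pr, ppr, List.length_map]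
    refine ⟨?_, h1⟩
    split_ifs with h
    · rw [chk_padd, chk_mul hw, chk_smul, h1, h2]
      push_cast
      ring
    · rw [chk_padd, chk_zero_cons, chk_mul hw, chk_smul, h1, h2]
      push_cast
      ring

private theorem chk_padd_len (l m : List EI) : (padd l m).length = max l.length m.length := by
  induction l generalizing m with
  | nil => simp [padd]
  | cons a l ih =>
    cases m with
    | nil => simp [padd]
    | cons b m => simp [padd, ih]

private theorem chk_tay_len (s : ℤ) (X : EI) (p : List EI) : (tay s X p).length = p.length := by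
  induction p with
  | nil => rfl
  | cons a p ih =>
    rw [tay, chk_padd_len, chk_padd_len, List.length_map, List.length_cons, ih, List.length_cons, List.length_nil,
      List.length_cons]
    omega

private theorem chk_tay (hw : w ^ 2 + w + 1 = 0) {s : ℤ} {X : EI} {d : ℂ} (hd : (s : ℂ) * q = ew w X + d) (p : List EI) :
    (s : ℂ) * chkPe w d (tay s X p) = (s : ℂ) ^ p.length * chkPe w q p := by
  induction p with
  | nil => rw [tay, chk_nil, chk_nil]; simp
  | cons a p ih =>
    rw [tay, chk_padd, chk_padd, chk_mul hw, chk_zero_cons, chk_cons, chk_nil, chk_ews, chk_cons, List.length_cons, pow_succ]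
    push_cast
    linear_combination (ew w X + d) * ih - (s : ℂ) ^ p.length * chkPe w q p * hd

private theorem chk_enm (hw : w ^ 2 + w + 1 = 0) (c : EI) : Complex.normSq (ew w c) = (enm c : ℝ) := by
  rw [ew, oz_norm hw, enm]
  push_cast
  ring

private theorem chk_le {z : ℂ} {e : ℝ} (he : 0 ≤ e) (h : Complex.normSq z ≤ e * e) : ‖z‖ ≤ e := by
  rw [Complex.normSq_eq_norm_sq, ← pow_two] at h
  exact le_of_sq_le_sq h he

private theorem chk_ge {z : ℂ} {e : ℝ} (_ : 0 ≤ e) (h : e * e ≤ Complex.normSq z) : e ≤ ‖z‖ := by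
  rw [Complex.normSq_eq_norm_sq, ← pow_two] at h
  exact le_of_sq_le_sq h (norm_nonneg z)

private theorem chk_es (hw : w ^ 2 + w + 1 = 0) {d : ℂ} (hd : Complex.normSq d ≤ 3) (f : ℤ) (cs : List EI) (es : List ℤ)
    (h : esok f cs es = true) (D : ℂ) (hD : Complex.normSq D ≤ f) : ‖D * chkPe w d cs‖ ≤ (es.sum : ℤ) := by
  induction cs generalizing f es D with
  | nil =>
    cases es with
    | nil => rw [chk_nil]; simp
    | cons e es => simp [esok] at h
  | cons c cs ih =>
    cases es with
    | nil => simp [esok] at h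
    | cons e es =>
      rw [esok, Bool.and_eq_true, Bool.and_eq_true, decide_eq_true_eq, decide_eq_true_eq] at h
      obtain ⟨h1, h2, h3⟩ := h
      have h4 := ih (3 * f) es h3 (D * d) (by
        rw [Complex.normSq_mul]
        push_cast
        nlinarith [Complex.normSq_nonneg D, Complex.normSq_nonneg d])
      have h5 : ‖D * ew w c‖ ≤ (e : ℝ) := by
        refine chk_le (by exact_mod_cast h1) ?_
        rw [Complex.normSq_mul, chk_enm hw]
        have h6 : (f : ℝ) * (enm c : ℝ) ≤ e * e := by exact_mod_cast h2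
        have h7 : (0 : ℝ) ≤ (enm c : ℝ) := by rw [← chk_enm hw]; exact Complex.normSq_nonneg _
        exact (mul_le_mul_of_nonneg_right hD h7).trans h6
      rw [chk_cons, mul_add, List.sum_cons, Int.cast_add]
      refine (norm_add_le _ _).trans ?_
      rw [← mul_assoc]
      exact add_le_add h5 h4

/-- a leaf: the polynomial is small (and not zero) on the box -/
theorem leaf_sound (hw : w ^ 2 + w + 1 = 0) (hM : MinW w q) {s a b : ℤ} (hs : 0 < s) {x y : ℝ} (hq : q = x + y * w)
    (hx : |s * x - a| ≤ 1) (hy : |s * y - b| ≤ 1) {nz : Bool} {l : List EI} {es : List ℤ} {l0 u0 x0 : ℤ}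
    (h : leaf nz s (a, b) l es l0 u0 x0 = true) : nz = false ∧ (pr q (l.map (ew w))).1 = 0 := by
  set P := (pr q (l.map (ew w))).1 with hP
  have hs' : (0 : ℝ) < s := by exact_mod_cast hs
  have hsc : (s : ℂ) ≠ 0 := by exact_mod_cast hs.ne'
  obtain ⟨d, hd⟩ : ∃ d : ℂ, d = ((s * x - a : ℝ) : ℂ) + ((s * y - b : ℝ) : ℂ) * w := ⟨_, rfl⟩
  have hdq : (s : ℂ) * q = ew w (a, b) + d := by
    rw [hq, hd, ew]
    push_cast
    ring
  obtain ⟨w1, w2⟩ := w_re hw
  have hdn : Complex.normSq d ≤ 3 := by
    have h1 : Complex.normSq d = (s * x - a) ^ 2 - (s * x - a) * (s * y - b) + (s * y - b) ^ 2 := by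
      rw [hd, Complex.normSq_apply]
      simp only [Complex.add_re, Complex.add_im, Complex.mul_re, Complex.mul_im, Complex.ofReal_re, Complex.ofReal_im, w1]
      linear_combination (s * y - b) ^ 2 * w2
    rw [h1]
    obtain ⟨a1, a2⟩ := abs_le.1 hx
    obtain ⟨b1, b2⟩ := abs_le.1 hy
    nlinarith [mul_nonneg (sub_nonneg.2 a2) (by linarith : (0 : ℝ) ≤ 1 + (s * x - a)),
      mul_nonneg (sub_nonneg.2 b2) (by linarith : (0 : ℝ) ≤ 1 + (s * y - b)),
      mul_nonneg (sub_nonneg.2 a2) (by linarith : (0 : ℝ) ≤ 1 + (s * y - b)),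
      mul_nonneg (sub_nonneg.2 b2) (by linarith : (0 : ℝ) ≤ 1 + (s * x - a))]
  have hl : ∀ t ∈ l.map (ew w), t ∈ Oz w := by
    intro t ht
    obtain ⟨u, _, rfl⟩ := List.mem_map.1 ht
    exact ⟨u.1, u.2, rfl⟩
  have hmin := hM (l.map (ew w)) hl
  rw [← hP, List.length_map] at hmin
  have key := chk_tay hw hdq (ppr l).1
  have hlen := chk_tay_len s (a, b) (ppr l).1
  rw [(chk_ppr hw l).1, ← hP] at key
  unfold leaf at h
  split at h
  · cases h
  · rename_i c cs htay
    rw [htay, List.length_cons] at hlen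
    rw [htay, ← hlen, chk_cons, pow_succ] at key
    have key2 : ew w c + d * chkPe w d cs = (s : ℂ) ^ cs.length * P := by
      refine mul_left_cancel₀ hsc ?_
      rw [key]
      ring
    simp only [Bool.and_eq_true, decide_eq_true_eq] at h
    obtain ⟨⟨⟨⟨⟨⟨k1, k2⟩, k3⟩, k4⟩, k5⟩, k6⟩, k7⟩ := h
    have hS : ‖d * chkPe w d cs‖ ≤ (es.sum : ℤ) :=
      chk_es hw hdn 3 cs es k1 d (by push_cast; exact hdn)
    have hc1 : ‖ew w c‖ ≤ (u0 : ℝ) := by
      refine chk_le (by exact_mod_cast k3) ?_
      rw [chk_enm hw]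
      exact_mod_cast k5
    have hsP : ‖(s : ℂ) ^ cs.length * P‖ = (s : ℝ) ^ cs.length * ‖P‖ := by
      rw [norm_mul, norm_pow, Complex.norm_intCast, abs_of_pos hs']
    have hup : (s : ℝ) ^ cs.length * ‖P‖ ≤ u0 + (es.sum : ℤ) := by
      rw [← hsP, ← key2]
      exact (norm_add_le _ _).trans (add_le_add hc1 hS)
    have hsm : (0 : ℝ) < (s : ℝ) ^ cs.length := pow_pos hs' _
    have hP0 : P = 0 := by
      by_contra hne
      obtain ⟨m1, m2⟩ := hmin hne
      split_ifs at k7 with hpar
      · rw [decide_eq_true_eq] at k7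
        have k8 : (u0 : ℝ) + (es.sum : ℤ) < (s : ℝ) ^ cs.length := by exact_mod_cast k7
        have k9 : ‖P‖ < 1 := by
          by_contra hcon
          have := mul_le_mul_of_nonneg_left (not_lt.1 hcon) hsm.le
          linarith
        have k10 := m1 hpar
        rw [Complex.normSq_eq_norm_sq] at k10
        nlinarith [norm_nonneg P]
      · rw [Bool.and_eq_true, decide_eq_true_eq, decide_eq_true_eq] at k7
        obtain ⟨k8, k9⟩ := k7
        have k10 : ((x0 : ℝ) + 2) * (u0 + (es.sum : ℤ)) ^ 2 < (s : ℝ) ^ (2 * cs.length + 1) := by exact_mod_cast k9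
        have k11 := m2 (by omega)
        rw [Complex.normSq_eq_norm_sq] at k11
        have k12 : (s : ℝ) * ‖q‖ ≤ x0 + 2 := by
          have h1 : ‖(s : ℂ) * q‖ = (s : ℝ) * ‖q‖ := by rw [norm_mul, Complex.norm_intCast, abs_of_pos hs']
          rw [← h1, hdq]
          refine (norm_add_le _ _).trans (add_le_add ?_ ?_)
          · refine chk_le (by exact_mod_cast k4) ?_
            rw [chk_enm hw]
            exact_mod_cast k8
          · exact chk_le (by norm_num) (by linarith)
        have k13 : ((s : ℝ) ^ cs.length * ‖P‖) ^ 2 ≤ (u0 + (es.sum : ℤ)) ^ 2 :=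
          pow_le_pow_left₀ (by positivity) hup 2
        have k14 : (s : ℝ) * ‖q‖ * ((s : ℝ) ^ cs.length * ‖P‖) ^ 2 ≤ (x0 + 2) * (u0 + (es.sum : ℤ)) ^ 2 :=
          mul_le_mul k12 k13 (by positivity) (by
            have : (0 : ℝ) ≤ x0 := by exact_mod_cast k4
            linarith)
        have k15 : (s : ℝ) * ‖q‖ * ((s : ℝ) ^ cs.length * ‖P‖) ^ 2 = (s : ℝ) ^ (2 * cs.length + 1) * (‖q‖ * ‖P‖ ^ 2) := by ring
        have k16 : (0 : ℝ) < (s : ℝ) ^ (2 * cs.length + 1) := pow_pos hs' _
        have k17 := mul_le_mul_of_nonneg_left k11 k16.le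
        rw [k15] at k14
        linarith
    refine ⟨?_, hP0⟩
    by_contra hnz
    rw [Bool.not_eq_false] at hnz
    rw [hnz] at k6
    simp only [Bool.not_true, Bool.false_or, Bool.and_eq_true, decide_eq_true_eq] at k6
    obtain ⟨k8, k9⟩ := k6
    have k10 : (l0 : ℝ) ≤ ‖ew w c‖ := by
      refine chk_ge (by exact_mod_cast k2) ?_
      rw [chk_enm hw]
      exact_mod_cast k8
    have k11 : ‖ew w c‖ = ‖d * chkPe w d cs‖ := by
      rw [hP0, mul_zero] at key2
      rw [eq_neg_of_add_eq_zero_left key2, norm_neg]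
    have k12 : ((es.sum : ℤ) : ℝ) < l0 := by exact_mod_cast k9
    linarith

end Pool.Agent.HSC
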