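import Pool.Agent.HSC.Chk

/-!
# HSC/Chs: the checker is correct

PROOF PLAN.  Induction on the tree `T` (generalise `s a b`; `Tr.rec`/`induction T generalizing s a b`).  `o`: one of the four tests contradicts `h0`, `h1`, `h3`, `h2` (`normSq (s q)` against `enm (a, b)`: with `d = s q - (a + b w)`, `normSq d ≤ 3`,
`‖d‖ < 2` and `‖d‖ ≤ 1.8`: `‖a + b w‖ ≥ 3 s + 2` gives `‖s q‖ > 3 s`; `10 ‖a + b w‖ ≤ 21 s - 18` gives `‖s q‖ < 2.1 s`).  `q`: left alternative.  `s`: contradiction by `leaf_sound`.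
`z`: `leaf_sound` gives the zero; `i < sps.length` since otherwise the word is empty and the polynomial is `1`.  `n`: the box of half-width one around `(a, b)` in the scale `s` is the union of the four boxes in the scale `2 s` (`2 s x - 2 a` is in `[-2, 2]`).
-/

set_option autoImplicit false

noncomputable section

namespace Pool.Agent.HSC

open Pool.Agent.HSK Pool.Agent.HSG Matrix
open scoped MatrixGroups commutatorElement

variable {w q : ℂ}

theorem chs_ns (hw : w ^ 2 + w + 1 = 0) (u v : ℝ) : Complex.normSq ((u : ℂ) + v * w) = u ^ 2 - u * v + v ^ 2 := by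
  obtain ⟨h1, h2⟩ := w_re hw
  rw [Complex.normSq_apply]
  simp only [Complex.add_re, Complex.add_im, Complex.mul_re, Complex.mul_im, Complex.ofReal_re, Complex.ofReal_im, h1]
  linear_combination v ^ 2 * h2

theorem chs_d (hw : w ^ 2 + w + 1 = 0) {u v : ℝ} (hu : |u| ≤ 1) (hv : |v| ≤ 1) : ‖(u : ℂ) + v * w‖ ≤ 1.8 := by
  have h := chs_ns hw u v
  rw [Complex.normSq_eq_norm_sq] at h
  obtain ⟨u1, u2⟩ := abs_le.1 hu
  obtain ⟨v1, v2⟩ := abs_le.1 hv
  have h3 : u ^ 2 - u * v + v ^ 2 ≤ 3 := by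
    nlinarith [mul_nonneg (sub_nonneg.2 u2) (by linarith : (0 : ℝ) ≤ u + 1), mul_nonneg (sub_nonneg.2 v2) (by linarith : (0 : ℝ) ≤ v + 1),
      mul_nonneg (sub_nonneg.2 u2) (by linarith : (0 : ℝ) ≤ v + 1), mul_nonneg (sub_nonneg.2 v2) (by linarith : (0 : ℝ) ≤ u + 1)]
  by_contra hc
  push Not at hc
  nlinarith

theorem chs_half {s a : ℤ} {x : ℝ} (h : |s * x - a| ≤ 1) : |((2 * s : ℤ) : ℝ) * x - ((2 * a - 1 : ℤ) : ℝ)| ≤ 1 ∨ |((2 * s : ℤ) : ℝ) * x - ((2 * a + 1 : ℤ) : ℝ)| ≤ 1 := by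
  obtain ⟨h1, h2⟩ := abs_le.1 h
  push_cast
  rcases le_total (s * x - a) 0 with h3 | h3
  · left
    rw [abs_le]
    constructor <;> linarith
  · right
    rw [abs_le]
    constructor <;> linarith


theorem chk_sound (hw : w ^ 2 + w + 1 = 0) (hM : MinW w q) {x y : ℝ} (hq : q = x + y * w) (h0 : 0 ≤ y) (h1 : 2 * y ≤ x)
    (h2 : 2.1 ≤ ‖q‖) (h3 : ‖q‖ ≤ 3) {wds sps : List (List EI)} (T : Tr) {s a b : ℤ} (hs : 0 < s)
    (hx : |s * x - a| ≤ 1) (hy : |s * y - b| ≤ 1) (h : chk wds sps s a b T = true) :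
    (|x - 3| ≤ 1 / 32 ∧ y ≤ 1 / 32) ∨ ∃ i < sps.length, (pr q ((sps.getD i []).map (ew w))).1 = 0 := by
  induction T generalizing s a b with
  | o =>
    exfalso
    obtain ⟨x1, x2⟩ := abs_le.1 hx
    obtain ⟨y1, y2⟩ := abs_le.1 hy
    have hs' : (0 : ℝ) < s := by exact_mod_cast hs
    have hd := chs_d hw hx hy
    have hA := chs_ns hw (a : ℝ) (b : ℝ)
    rw [Complex.normSq_eq_norm_sq] at hA
    have e : (s : ℂ) * q = ((a : ℝ) + (b : ℝ) * w) + (((s * x - a : ℝ) : ℂ) + ((s * y - b : ℝ) : ℂ) * w) := by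
      rw [hq]
      push_cast
      ring
    have nq : ‖(s : ℂ) * q‖ = s * ‖q‖ := by
      rw [norm_mul]
      congr 1
      rw [show (s : ℂ) = ((s : ℝ) : ℂ) by push_cast; rfl, Complex.norm_of_nonneg hs'.le]
    set A : ℂ := (((a : ℝ) : ℂ) + ((b : ℝ) : ℂ) * w) with hAd
    set d : ℂ := (((s * x - a : ℝ) : ℂ) + ((s * y - b : ℝ) : ℂ) * w) with hdd
    have n1 : (s : ℝ) * ‖q‖ ≤ ‖A‖ + ‖d‖ := by
      rw [← nq, e]
      exact norm_add_le _ _
    have n2 : ‖A‖ ≤ s * ‖q‖ + ‖d‖ := by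
      rw [← nq]
      have : A = (s : ℂ) * q - d := by rw [e]; ring
      rw [this]
      exact norm_sub_le _ _
    simp only [chk, Bool.or_eq_true, Bool.and_eq_true, decide_eq_true_eq] at h
    simp only [enm] at h
    have nA := norm_nonneg A
    rcases h with ((h | h) | h) | ⟨h, h'⟩
    · have : ((b : ℝ) + 1 < 0) := by exact_mod_cast h
      nlinarith
    · have : ((a : ℝ) + 1 < 2 * (b - 1)) := by exact_mod_cast h
      nlinarith
    · have h' : ((3 * (s : ℝ) + 2) ^ 2 ≤ a * a - a * b + b * b) := by exact_mod_cast h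
      have h4 : (3 * (s : ℝ) + 2) ^ 2 ≤ ‖A‖ ^ 2 := by rw [hA]; linarith
      have h5 : 3 * (s : ℝ) + 2 ≤ ‖A‖ := le_of_sq_le_sq h4 nA
      nlinarith
    · have h1' : (0 : ℝ) ≤ 21 * s - 18 := by exact_mod_cast h
      have h2' : (100 * ((a : ℝ) * a - a * b + b * b) ≤ (21 * s - 18) ^ 2) := by exact_mod_cast h'
      have h4 : (10 * ‖A‖) ^ 2 ≤ (21 * (s : ℝ) - 18) ^ 2 := by rw [mul_pow, hA]; linarith
      have h5 : 10 * ‖A‖ ≤ 21 * (s : ℝ) - 18 := le_of_sq_le_sq h4 h1'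
      have h6 : (s : ℝ) * 2.1 ≤ s * ‖q‖ := mul_le_mul_of_nonneg_left h2 hs'.le
      have hd' : ‖d‖ < 1.8 := by
        have h := chs_ns hw (s * x - a : ℝ) (s * y - b : ℝ)
        rw [Complex.normSq_eq_norm_sq, ← hdd] at h
        have h3 : (s * x - a : ℝ) ^ 2 - (s * x - a) * (s * y - b) + (s * y - b) ^ 2 ≤ 3 := by
          generalize (s * x - a : ℝ) = u at *
          generalize (s * y - b : ℝ) = v at *
          nlinarith [mul_nonneg (sub_nonneg.2 x2) (by linarith : (0 : ℝ) ≤ u + 1), mul_nonneg (sub_nonneg.2 y2) (by linarith : (0 : ℝ) ≤ v + 1),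
            mul_nonneg (sub_nonneg.2 x2) (by linarith : (0 : ℝ) ≤ v + 1), mul_nonneg (sub_nonneg.2 y2) (by linarith : (0 : ℝ) ≤ u + 1)]
        by_contra hc
        push Not at hc
        nlinarith
      linarith
  | q =>
    left
    obtain ⟨x1, x2⟩ := abs_le.1 hx
    obtain ⟨y1, y2⟩ := abs_le.1 hy
    have hs' : (0 : ℝ) < s := by exact_mod_cast hs
    simp only [chk, Bool.and_eq_true, decide_eq_true_eq] at h
    obtain ⟨⟨ha, hb⟩, hc⟩ := h
    have ha' : (32 * ((a : ℝ) + 1) ≤ 97 * s) := by exact_mod_cast ha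
    have hb' : (95 * (s : ℝ) ≤ 32 * (a - 1)) := by exact_mod_cast hb
    have hc' : (32 * ((b : ℝ) + 1) ≤ s) := by exact_mod_cast hc
    constructor
    · rw [abs_le]
      constructor
      · have : (s : ℝ) * (95 / 32) ≤ s * x := by linarith
        have := le_of_mul_le_mul_left this hs'
        linarith
      · have : (s : ℝ) * x ≤ s * (97 / 32) := by linarith
        have := le_of_mul_le_mul_left this hs'
        linarith
    · have : (s : ℝ) * y ≤ s * (1 / 32) := by linarith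
      exact le_of_mul_le_mul_left this hs'
  | s i es l0 u0 x0 =>
    simp only [chk] at h
    have := (leaf_sound hw hM hs hq hx hy h).1
    exact absurd this (by simp)
  | z i es u0 x0 =>
    simp only [chk] at h
    have h' := (leaf_sound hw hM hs hq hx hy h).2
    right
    refine ⟨i, ?_, h'⟩
    by_contra hc
    push Not at hc
    rw [List.getD_eq_default _ _ hc] at h'
    simp [pr] at h'
  | n t1 t2 t3 t4 i1 i2 i3 i4 =>
    simp only [chk, Bool.and_eq_true] at h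
    obtain ⟨k1, k2, k3, k4⟩ := h
    have hs2 : 0 < 2 * s := by omega
    rcases chs_half hx with hx' | hx' <;> rcases chs_half hy with hy' | hy'
    · exact i1 hs2 hx' hy' k1
    · exact i2 hs2 hx' hy' k2
    · exact i3 hs2 hx' hy' k3
    · exact i4 hs2 hx' hy' k4

end Pool.Agent.HSC
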