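import Pool.Agent.HSC.Prk
import Pool.Agent.HSC.Cls

/-!
# HSC/Dgk: minimal entry `√3`, a full element with congruent points

`NK.nd`: the normal form with minimal entry of modulus `√3`, obtained from an element of `Δ` with this entry whose two
points are congruent modulo the Eisenstein integers, by a shift of its first point to `0` and a translation.
`ND3.par`: in this normal form `κ ^ 2` is `3` times a sixth root of unity, by the classification of the parameters `q`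
with `MinW w q` and `2.1 ≤ ‖q‖ ≤ 3`.
-/

set_option autoImplicit false

noncomputable section

namespace Pool.Agent.HSC

open Pool.Agent.HSK Pool.Agent.HSG Matrix
open scoped MatrixGroups commutatorElement

/-- normal form with minimal entry `√3`; `g` is `z ↦ -1 / (κ ^ 2 z)` -/
structure ND3 (Γ Δ : Subgroup PSL(2, ℂ)) (w κ : ℂ) (g : SL(2, ℂ)) : Prop where
  nf : NK Γ Δ w
  gm : cls g ∈ Δ
  gc : g.1 = !![0, -κ⁻¹; κ, 0]
  k3 : Complex.normSq κ = 3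
  min : ∀ A : SL(2, ℂ), cls A ∈ Δ → A.1 1 0 ≠ 0 → 3 ≤ Complex.normSq (A.1 1 0)

variable {Γ Δ : Subgroup PSL(2, ℂ)} {w κ : ℂ} {g : SL(2, ℂ)}

private theorem Dgk_mul {S : Subgroup PSL(2, ℂ)} {A B : SL(2, ℂ)} (hA : cls A ∈ S) (hB : cls B ∈ S) : cls (A * B) ∈ S := by
  rw [cls_mul]
  exact S.mul_mem hA hB

private theorem Dgk_cinv (A : SL(2, ℂ)) : (A⁻¹).1 1 0 = -A.1 1 0 := by
  rw [inv_coe]
  rfl

theorem NK.nd (h : NK Γ Δ w) (hm : ∀ A : SL(2, ℂ), cls A ∈ Δ → A.1 1 0 ≠ 0 → 3 ≤ Complex.normSq (A.1 1 0)) {A : SL(2, ℂ)}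
    (hA : cls A ∈ Δ) (hA3 : Complex.normSq (A.1 1 0) = 3) (hd : pt A - pt A⁻¹ ∈ Oz w) :
    ∃ (p κ : ℂ) (g : SL(2, ℂ)), ND3 (cj (t p) Γ) (cj (t p) Δ) w κ g := by
  have h0 : A.1 1 0 ≠ 0 := by
    intro h0
    rw [h0, map_zero] at hA3
    norm_num at hA3
  have hs := h.shift (pt A)
  have hmin : ∀ B : SL(2, ℂ), cls B ∈ cj (t (pt A)) Δ → B.1 1 0 ≠ 0 → 3 ≤ Complex.normSq (B.1 1 0) := by
    intro B hB1 hB2
    have h2 := (shift_c (pt A) B).1
    have h4 := hm _ (mem_shift.1 hB1) (by rw [h2]; exact hB2)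
    rwa [h2] at h4
  obtain ⟨A₁, hA₁⟩ : ∃ A₁ : SL(2, ℂ), A₁ = T (-pt A) * A * T (-(-pt A)) := ⟨_, rfl⟩
  obtain ⟨hc, hp⟩ := shift_c (-pt A) A
  rw [← hA₁] at hc hp
  have hp1 : pt A₁ = 0 := by
    rw [hp h0]
    ring
  have hinv : A₁⁻¹ = T (-pt A) * A⁻¹ * T (-(-pt A)) := by
    rw [hA₁, neg_neg, T_neg]
    group
  have hq : pt A₁⁻¹ ∈ Oz w := by
    have h1 := (shift_c (-pt A) A⁻¹).2 (by rw [Dgk_cinv]; exact neg_ne_zero.2 h0)
    rw [← hinv] at h1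
    have h2 : pt A₁⁻¹ = -(pt A - pt A⁻¹) := by
      rw [h1]
      ring
    rw [h2]
    exact oz_neg hd
  have hmem : cls A₁ ∈ cj (t (pt A)) Δ := by
    have e : T (pt A) * A₁ * T (-pt A) = A := by
      rw [hA₁, neg_neg, T_neg]
      group
    rw [mem_shift, e]
    exact hA
  have h00 : A₁.1 0 0 = 0 := by
    have h1 : A₁.1 0 0 / A₁.1 1 0 = 0 := hp1
    rw [hc] at h1
    exact (div_eq_zero_iff.1 h1).resolve_right h0
  have hq1 : pt A₁⁻¹ * A.1 1 0 = -A₁.1 1 1 := by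
    rw [pt_inv, hc, div_mul_cancel₀ _ h0]
  have hdet : A₁.1 0 1 * A.1 1 0 = -1 := by
    have h1 := A₁.2
    rw [Matrix.det_fin_two, h00, hc] at h1
    linear_combination -h1
  have h01 : A₁.1 0 1 = -(A.1 1 0)⁻¹ := by
    have h1 : A₁.1 0 1 = -1 / A.1 1 0 := (eq_div_iff h0).2 hdet
    rw [h1, neg_div, one_div]
  refine ⟨pt A, A.1 1 0, A₁ * T (pt A₁⁻¹), ⟨hs, Dgk_mul hmem (hs.t_mem hq), ?_, hA3, hmin⟩⟩
  rw [mul_T_coe, h00, hc, hq1, h01]
  ext i j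
  fin_cases i <;> fin_cases j <;> simp

private theorem Dgk_form {x y : ℤ} (h : x ^ 2 - x * y + y ^ 2 = 9) : ∃ a b : ℤ, x = 3 * a ∧ y = 3 * b ∧ a ^ 2 - a * b + b ^ 2 = 1 := by
  have h3 : (3 : ℤ) ∣ x + y := by
    have h1 : (3 : ℤ) ∣ (x + y) ^ 2 := ⟨3 + x * y, by linear_combination h⟩
    exact Int.prime_three.dvd_of_dvd_pow h1
  obtain ⟨c, hc⟩ := h3
  have h4 : x = 3 * c - y := by linear_combination hc
  have h5 : (3 : ℤ) ∣ y ^ 2 := by
    rw [h4] at h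
    have h6 : 3 * (3 * c ^ 2 - 3 * c * y + y ^ 2) = 9 := by linear_combination h
    have h7 : 3 * c ^ 2 - 3 * c * y + y ^ 2 = 3 := by omega
    exact ⟨1 - c ^ 2 + c * y, by linear_combination h7⟩
  obtain ⟨b, hb⟩ := Int.prime_three.dvd_of_dvd_pow h5
  refine ⟨c - b, b, by rw [h4, hb]; ring, hb, ?_⟩
  have h8 : 9 * ((c - b) ^ 2 - (c - b) * b + b ^ 2) = 9 := by
    rw [h4, hb] at h
    linear_combination h
  omega

theorem ND3.par (h : ND3 Γ Δ w κ g) : ∃ u : ℂ, u ^ 6 = 1 ∧ κ ^ 2 = 3 * u := by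
  have hw := h.nf.w2
  have k0 : κ ≠ 0 := by
    intro h0
    have h3 := h.k3
    rw [h0, map_zero] at h3
    norm_num at h3
  have hn : ‖κ ^ 2‖ = 3 := by
    rw [norm_pow, ← Complex.normSq_eq_norm_sq, h.k3]
  have hM : MinW w (κ ^ 2) := minW_of k0 h.gm h.gc (fun β hβ => h.nf.t_mem hβ) (by rw [h.k3]; exact h.min)
  rcases MinW.cls hw hM (by rw [hn]; norm_num) (by rw [hn]) with h1 | h1 | h1
  · exfalso
    obtain ⟨u, hu, hq⟩ := h1
    have hun : ‖u‖ = 1 := by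
      have h2 := root_norm hu
      rw [Complex.normSq_eq_norm_sq] at h2
      exact (pow_eq_one_iff_of_nonneg (norm_nonneg u) (by norm_num)).1 h2
    have h5 : (0 : ℝ) ≤ Real.sqrt 5 := Real.sqrt_nonneg 5
    rw [hq, norm_mul, hun, one_mul, Complex.norm_real, Real.norm_of_nonneg (by positivity)] at hn
    have h6 : Real.sqrt 5 = 3 := by linarith
    have h7 : Real.sqrt 5 ^ 2 = 5 := Real.sq_sqrt (by norm_num)
    rw [h6] at h7
    norm_num at h7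
  · obtain ⟨x, y, hxy⟩ := h1
    have h2 : Complex.normSq ((x : ℂ) + y * w) = 9 := by
      rw [← hxy, map_pow, h.k3]
      norm_num
    rw [oz_norm hw] at h2
    have h3 : x ^ 2 - x * y + y ^ 2 = 9 := by exact_mod_cast h2
    obtain ⟨a, b, ha, hb, hab⟩ := Dgk_form h3
    refine ⟨(a : ℂ) + b * w, oz_unit hw ⟨a, b, rfl⟩ ?_, ?_⟩
    · rw [oz_norm hw, hab]
      norm_num
    · rw [hxy, ha, hb]
      push_cast
      ring
  · exact absurd h1.2.2 (by rw [hn]; exact lt_irrefl _)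

end Pool.Agent.HSC
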