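import Pool.Agent.HSC.Nk
import Pool.Agent.HSG.Dsc
import Pool.Agent.HSG.Nfo

/-!
# HSC/Nfk: the normal form of a knot group with hidden symmetries

As `nf_of` in HSG/Nfo, with other fields.
-/

set_option autoImplicit false

noncomputable section

namespace Pool.Agent.HSC

open Pool.Agent.HSK Pool.Agent.HSG Matrix
open scoped MatrixGroups commutatorElement

variable {Γ Δ : Subgroup PSL(2, ℂ)} {μ : PSL(2, ℂ)}

private theorem nfk_sq {A : SL(2, ℂ)} (h : A.1.trace = 2) : A.1 * A.1 = (2 : ℂ) • A.1 - 1 := by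
  have hd := det_eq A
  rw [Matrix.trace_fin_two] at h
  ext i j
  fin_cases i <;> fin_cases j
  · simp only [Matrix.mul_apply, Fin.sum_univ_two, Matrix.sub_apply, Matrix.smul_apply, smul_eq_mul, Matrix.one_apply]
    simp only [Fin.zero_eta, Fin.isValue, if_true]
    linear_combination A.1 0 0 * h - hd
  · simp only [Matrix.mul_apply, Fin.sum_univ_two, Matrix.sub_apply, Matrix.smul_apply, smul_eq_mul, Matrix.one_apply]
    simp only [Fin.zero_eta, Fin.mk_one, Fin.isValue, zero_ne_one, if_false]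
    linear_combination A.1 0 1 * h
  · simp only [Matrix.mul_apply, Fin.sum_univ_two, Matrix.sub_apply, Matrix.smul_apply, smul_eq_mul, Matrix.one_apply]
    simp only [Fin.zero_eta, Fin.mk_one, Fin.isValue, one_ne_zero, if_false]
    linear_combination A.1 1 0 * h
  · simp only [Matrix.mul_apply, Fin.sum_univ_two, Matrix.sub_apply, Matrix.smul_apply, smul_eq_mul, Matrix.one_apply]
    simp only [Fin.mk_one, Fin.isValue, if_true]
    linear_combination A.1 1 1 * h - hd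

private theorem nfk_pow {A : SL(2, ℂ)} (h : A.1.trace = 2) (m : ℕ) : (A ^ m).1 = 1 + (m : ℂ) • (A.1 - 1) := by
  induction m with
  | zero => rw [pow_zero, Matrix.SpecialLinearGroup.coe_one, Nat.cast_zero, zero_smul, add_zero]
  | succ m ih =>
    rw [pow_succ, Matrix.SpecialLinearGroup.coe_mul, ih, add_mul, one_mul, smul_mul_assoc, sub_mul, one_mul, nfk_sq h]
    rw [Nat.cast_succ, add_smul, one_smul, two_smul]
    have e : A.1 + A.1 - 1 - A.1 = A.1 - 1 := by abel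
    rw [e]
    abel

private theorem nfk_entry {A : SL(2, ℂ)} (h : A.1.trace = 2) (m : ℕ) : (A ^ m).1 1 0 = m * A.1 1 0 := by
  rw [nfk_pow h, Matrix.add_apply, Matrix.smul_apply, Matrix.sub_apply, Matrix.one_apply_ne (by decide), smul_eq_mul,
    sub_zero, zero_add]

private theorem nfk_par {A : SL(2, ℂ)} (h : A.1.trace = 2) (hA : A ≠ 1) {m : ℕ} (hm : 0 < m) : IsParabolic (cls A ^ m) := by
  have hm0 : (m : ℂ) ≠ 0 := Nat.cast_ne_zero.2 hm.ne'
  have htr : (A ^ m).1.trace = 2 := by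
    rw [nfk_pow h, Matrix.trace_add, Matrix.trace_smul, Matrix.trace_sub, h, Matrix.trace_one, Fintype.card_fin]
    norm_num
  refine ⟨?_, A ^ m, rfl, htr⟩
  rw [← cls_pow, ← cls_one]
  intro h1
  rcases cls_eq.1 h1 with h2 | h2
  · rw [nfk_pow h, Matrix.SpecialLinearGroup.coe_one, add_eq_left] at h2
    rcases smul_eq_zero.1 h2 with h3 | h3
    · exact hm0 h3
    · exact hA (Subtype.ext (by rw [Matrix.SpecialLinearGroup.coe_one]; exact sub_eq_zero.1 h3))
  · rw [h2, Matrix.SpecialLinearGroup.coe_one, Matrix.trace_neg, Matrix.trace_one, Fintype.card_fin] at htr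
    norm_num at htr

private theorem nfk_ll {C : SL(2, ℂ)} (h : Commute (cls C) (t 1)) : C.1 1 0 = 0 := by
  obtain ⟨β, hβ⟩ := comm_t1 h
  rcases cls_eq.1 hβ with h1 | h1
  · rw [h1, T_coe]
    simp
  · rw [h1, T_coe]
    simp

private theorem nfk_kill {k : Subfield ℂ} (h : ND Γ Δ k) {A : SL(2, ℂ)} (hA : cls A ∈ Δ) (htr : A.1.trace = 2) :
    ∃ B : SL(2, ℂ), cls B ∈ Δ ∧ (B * A * B⁻¹).1 1 0 = 0 := by
  by_cases h1 : A = 1
  · refine ⟨1, by rw [cls_one]; exact Δ.one_mem, ?_⟩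
    rw [h1, mul_one, mul_inv_cancel]
    exact up_one.1
  · obtain ⟨m, hm, hmΓ⟩ := h.pow_mem hA
    obtain ⟨γ, hγ, hc⟩ := h.cusp _ hmΓ (nfk_par htr h1 hm)
    obtain ⟨B, rfl⟩ := cls_surj γ
    refine ⟨B, h.le hγ, ?_⟩
    have h2 : cls B * cls A ^ m * (cls B)⁻¹ = cls ((B * A * B⁻¹) ^ m) := by
      rw [cls_pow, cls_mul, cls_mul, cls_inv, conj_pow]
    rw [h2] at hc
    have h3 := nfk_ll hc
    rw [nfk_entry (by rw [trace_conj, htr])] at h3
    rcases mul_eq_zero.1 h3 with h4 | h4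
    · exact absurd h4 (Nat.cast_ne_zero.2 hm.ne')
    · exact h4

theorem nk_of (hΓ : IsKnotGroup Γ μ) (h1 : Γ ≤ Δ) (h2 : Δ ≤ Subgroup.Commensurable.commensurator Γ)
    (hd : DiscreteTopology Δ) (hn : ¬ Δ ≤ Subgroup.normalizer (Γ : Set PSL(2, ℂ))) {P : SL(2, ℂ)} (hp : cls P * t 1 * (cls P)⁻¹ = μ)
    (hMG : MeridianGenerates Δ μ) {n : ℕ} (hn0 : 0 < n) (hc : IsCuspOrder Δ μ n) (hn4 : n ≠ 4) :
    ∃ w : ℂ, NK (cj (cls P) Γ) (cj (cls P) Δ) w ∧
      (n = 3 → ∀ U : SL(2, ℂ), cls U ∈ cj (cls P) Δ → U.1 1 0 = 0 → (U.1 0 0 ^ 2) ^ 3 = 1) ∧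
      (n = 6 → ∃ U : SL(2, ℂ), cls U ∈ cj (cls P) Δ ∧ U.1 1 0 = 0 ∧ U.1 0 0 ^ 2 = -w) := by
  have htfc : ∀ g ∈ cj (cls P) Γ, ∀ n : ℕ, 0 < n → g ^ n = 1 → g = 1 := by
    intro g hg n hn0 hgn
    have h3 : cls P * g * (cls P)⁻¹ = 1 := by
      refine hΓ.torsionFree _ hg n hn0 ?_
      rw [conj_pow, hgn]
      group
    have h4 : g = (cls P)⁻¹ * (cls P * g * (cls P)⁻¹) * cls P := by group
    rw [h4, h3]
    group
  have h := nd_of hΓ h1 h2 hd hn hp
  obtain ⟨z, n', hz, hzj, hz1, htype⟩ := h.type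
  obtain ⟨hn346, hprim⟩ := type_prim htype
  have hzne1 : z ≠ 1 := by
    rintro rfl
    rcases htype with ⟨-, h3⟩ | ⟨-, h3⟩ | ⟨-, h3⟩ <;> norm_num at h3
  have hzne2 : z ≠ -1 := by
    rintro rfl
    rcases htype with ⟨-, h3⟩ | ⟨-, h3⟩ | ⟨-, h3⟩ <;> norm_num at h3
  have hn0' : 0 < n' := by omega
  have hn1' : 1 < n' := by omega
  have hco := cuspOrder_cj hp (h.cuspOrder hn0' hz hzj hz1 hprim.pow_eq_one (fun h0 => hz1 1 one_pos hn1' (by rw [pow_one, h0])))
  have hnn : n' = n := cuspOrder_unique ⟨P, hp⟩ hn0' hn0 hco hc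
  subst hnn
  have hzz : z * z ∈ Mu (cj (cls P) Δ) := mu_mul hz hz
  have hz5 : z ^ 5 ∈ Mu (cj (cls P) Δ) := by
    have h3 := mu_mul (mu_mul hzz hzz) hz
    have h4 : z * z * (z * z) * z = z ^ 5 := by ring
    rwa [h4] at h3
  obtain ⟨w, e, hw, hze, hwM, hw3, hw6⟩ : ∃ (w : ℂ) (e : ℤ), w ^ 2 + w + 1 = 0 ∧ z = w + e ∧ w ∈ Mu (cj (cls P) Δ) ∧
      (n' = 3 → z ^ 3 = 1) ∧ (n' = 6 → z ^ 5 = -w) := by
    rcases htype with ⟨h3, -⟩ | ⟨h3, h4⟩ | ⟨h3, h4⟩
    · exact absurd h3 hn4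
    · refine ⟨z, 0, h4, by simp, hz, fun _ => by linear_combination (z - 1) * h4, fun h5 => ?_⟩
      omega
    · refine ⟨z - 1, 1, by linear_combination h4, by simp, ?_, fun h5 => ?_, fun _ => ?_⟩
      · have h5 : z - 1 = z * z := by linear_combination -h4
        rw [h5]
        exact hzz
      · omega
      · linear_combination (z ^ 3 + z ^ 2 - 1) * h4
  have hz6 : z ^ 6 = 1 := by
    rcases htype with ⟨h3, -⟩ | ⟨-, h3⟩ | ⟨-, h3⟩
    · exact absurd h3 hn4
    · have h4 : z ^ 3 = 1 := by linear_combination (z - 1) * h3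
      have h5 : z ^ 6 = (z ^ 3) ^ 2 := by ring
      rw [h5, h4, one_pow]
    · have h4 : z ^ 3 = -1 := by linear_combination (z + 1) * h3
      have h5 : z ^ 6 = (z ^ 3) ^ 2 := by ring
      rw [h5, h4]
      norm_num
  have hwim : w.im ≠ 0 := by
    intro h0
    have h3 := (w_re hw).2
    rw [h0] at h3
    norm_num at h3
  have hcoord : ∀ a b a' b' : ℤ, (a : ℂ) + b * w = a' + b' * w → a = a' ∧ b = b' := by
    intro a b a' b' hab
    have h3 := congrArg Complex.im hab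
    simp at h3
    have h4 : b = b' := by
      rcases h3 with h3 | h3
      · exact h3
      · exact absurd h3 hwim
    subst h4
    have h5 : (a : ℂ) = a' := by linear_combination hab
    exact ⟨by exact_mod_cast h5, rfl⟩
  have hlz := h.lattice_gen (gen_cj hp hMG) hz hzne1 hzne2
  have hone : (1 : ℂ) ∈ Lt (cj (cls P) Δ) := h.one_mem
  have hint : ∀ m : ℤ, (m : ℂ) ∈ Lt (cj (cls P) Δ) := by
    intro m
    have h3 := (Lt (cj (cls P) Δ)).zsmul_mem hone m
    rwa [zsmul_eq_mul, mul_one] at h3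
  have hwL : w ∈ Lt (cj (cls P) Δ) := by
    obtain ⟨A, hA, hAΔ, hAz⟩ := hz
    have h3 := h.mult hA hAΔ h.one_mem
    rw [hAz, mul_one] at h3
    have h4 : w = z - e := by rw [hze]; ring
    rw [h4]
    exact (Lt (cj (cls P) Δ)).sub_mem h3 (hint e)
  have hlat : ∀ β, t β ∈ cj (cls P) Δ ↔ β ∈ Oz w := by
    intro β
    constructor
    · intro hβ
      obtain ⟨x, y, hxy⟩ := hlz β hβ
      refine ⟨x + y * e, y, ?_⟩
      rw [hxy, hze]
      push_cast
      ring
    · rintro ⟨x, y, rfl⟩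
      have h3 : (x : ℂ) + y * w ∈ Lt (cj (cls P) Δ) := by
        refine (Lt (cj (cls P) Δ)).add_mem (hint x) ?_
        have h4 := (Lt (cj (cls P) Δ)).zsmul_mem hwL y
        rwa [zsmul_eq_mul] at h4
      exact h3
  refine ⟨w, ?_, ?_, ?_⟩
  rotate_left
  · intro h3 U hU hU0
    obtain ⟨j, -, hj⟩ := hzj _ ⟨U, hU0, hU, rfl⟩
    rw [hj, ← pow_mul, mul_comm, pow_mul, hw3 h3, one_pow]
  · intro h3
    obtain ⟨U, hU0, hU, hUz⟩ := hz5
    exact ⟨U, hU, hU0, by rw [hUz, hw6 h3]⟩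
  refine
    { w2 := hw
      le := h.le
      one := h.mem
      gen := h.gen
      tf := htfc
      lat := hlat
      up := ?_
      cusp := ?_
      fin := fun R => val_fin (bdd_fin hd (cls P)) hw (fun β hβ => (hlat β).2 hβ) R
      ex := ?_
      per := ?_
      par := fun A hA htr => nfk_kill h hA htr
      rot := ?_ }
  · intro A hA hA0
    obtain ⟨j, -, hj⟩ := hzj _ ⟨A, hA0, hA, rfl⟩
    rw [hj, ← pow_mul, mul_comm, pow_mul, hz6, one_pow]
  · intro A hA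
    obtain ⟨γ, hγ, A', hA', hA2⟩ := h.up hA
    obtain ⟨B, rfl⟩ := cls_surj γ
    refine ⟨B, hγ, ?_⟩
    rw [← cls_mul] at hA2
    rcases cls_eq.1 hA2 with h3 | h3
    · rw [← h3]
      exact hA'
    · rw [h3, Matrix.neg_apply, neg_eq_zero] at hA'
      exact hA'
  · obtain ⟨A, hA, hA0⟩ := h.exists_base
    exact ⟨A, h.le hA, hA0⟩
  · -- the second coordinates of the translations of `Γ`
    let Y : AddSubgroup ℤ :=
      { carrier := {y | ∃ x : ℤ, t ((x : ℂ) + y * w) ∈ cj (cls P) Γ}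
        zero_mem' := ⟨0, by
          have h3 : ((0 : ℤ) : ℂ) + ((0 : ℤ) : ℂ) * w = 0 := by push_cast; ring
          rw [h3, t_zero]
          exact Subgroup.one_mem _⟩
        add_mem' := by
          rintro a b ⟨x, hx⟩ ⟨x', hx'⟩
          refine ⟨x + x', ?_⟩
          have h3 : ((x + x' : ℤ) : ℂ) + ((a + b : ℤ) : ℂ) * w = (x + a * w) + (x' + b * w) := by
            push_cast
            ring
          rw [h3, t_add]
          exact Subgroup.mul_mem _ hx hx'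
        neg_mem' := by
          rintro a ⟨x, hx⟩
          refine ⟨-x, ?_⟩
          have h3 : ((-x : ℤ) : ℂ) + ((-a : ℤ) : ℂ) * w = -(x + a * w) := by
            push_cast
            ring
          rw [h3, t_neg]
          exact Subgroup.inv_mem _ hx }
    obtain ⟨y0, hy0⟩ := Int.subgroup_cyclic Y
    have hy0m : y0 ∈ Y := by
      rw [hy0]
      exact AddSubgroup.mem_closure_singleton_self y0
    obtain ⟨x0, hx0⟩ := hy0m
    have honeΓ : (1 : ℂ) ∈ Lt (cj (cls P) Γ) := h.mem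
    have hx0' : (x0 : ℂ) + y0 * w ∈ Lt (cj (cls P) Γ) := hx0
    have hmemΓ : ∀ a b : ℤ, (a : ℂ) + b * (x0 + y0 * w) ∈ Lt (cj (cls P) Γ) := by
      intro a b
      refine (Lt (cj (cls P) Γ)).add_mem ?_ ?_
      · have h3 := (Lt (cj (cls P) Γ)).zsmul_mem honeΓ a
        rwa [zsmul_eq_mul, mul_one] at h3
      · have h3 := (Lt (cj (cls P) Γ)).zsmul_mem hx0' b
        rwa [zsmul_eq_mul] at h3
    have hper : ∀ β, t β ∈ cj (cls P) Γ ↔ ∃ a b : ℤ, β = a + b * (x0 + y0 * w) := by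
      intro β
      constructor
      · intro hβ
        obtain ⟨x, y, rfl⟩ := (hlat β).1 (h.le hβ)
        have h3 : y ∈ Y := ⟨x, hβ⟩
        rw [hy0, AddSubgroup.mem_closure_singleton] at h3
        obtain ⟨k, hk⟩ := h3
        refine ⟨x - k * x0, k, ?_⟩
        rw [← hk, zsmul_eq_mul]
        push_cast
        ring
      · rintro ⟨a, b, rfl⟩
        exact hmemΓ a b
    refine ⟨x0, y0, ?_, hper⟩
    intro h0
    obtain ⟨τ, hτ, him⟩ := h.tau
    obtain ⟨a, b, hab⟩ := (hper τ).1 hτ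
    apply him
    rw [hab, h0]
    simp
  · obtain ⟨U, hU0, hU, hUw⟩ := hwM
    exact ⟨U, hU, hU0, hUw⟩

end Pool.Agent.HSC
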