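import Pool.Agent.HSC.Ask
import Pool.Agent.HSC.Nfk

/-!
# HSC/Fnk: the theorem for knot groups

PROOF PLAN.  As HSG/Fnl.  `par_form` gives `P` with `cls P * t 1 * (cls P)⁻¹ = μ`; `main3` gives `IntegralTraces → MeridianGenerates`.  `nk_of`.  For `NK.main`: `D := P⁻¹ * (lift of δ) * P`, `cls D ∈ cj (cls P) Δ`; `A = ± P * T 1 * P⁻¹` and trace two gives `+` (or both signs agree),
`B = ± (P D) * T 1 * (P D)⁻¹`, `+` by trace two; `A * B` is conjugate to `T 1 * D * T 1 * D⁻¹`, of trace `2 - (D.1 1 0) ^ 2`.  Right alternative of `NK.main`: `NH.dod3` or `NH.dod6` for the shifted groups (the conditions on `U` are invariant under conjugation by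
`t p`: `mem_shift`, the `0 0` entry of an upper triangular matrix does not change).  Then `cj (t p) (cj (cls P) Δ) = cj (cls P * t p) Δ`, `q = cls P * t p`, `q * t 1 * q⁻¹ = μ`, `Δ = (cj q Δ).map (conj q)` as in HSG/Fnl.
-/

set_option autoImplicit false

noncomputable section

namespace Pool.Agent.HSC

open Pool.Agent.HSK Pool.Agent.HSG Matrix
open scoped MatrixGroups commutatorElement

variable {Γ Δ : Subgroup PSL(2, ℂ)} {μ : PSL(2, ℂ)}

private theorem Fn_tr_mul (A B : SL(2, ℂ)) : (A * B).1.trace = (B * A).1.trace := by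
  rw [Matrix.SpecialLinearGroup.coe_mul, Matrix.SpecialLinearGroup.coe_mul, Matrix.trace_mul_comm]

private theorem Fn_tr_conj (P A : SL(2, ℂ)) : (P * A * P⁻¹).1.trace = A.1.trace := by
  rw [Fn_tr_mul, inv_mul_cancel_left]

private theorem Fn_T1 : (T 1).1.trace = 2 := by
  rw [Matrix.trace_fin_two, nf_t00, nf_t11]
  norm_num

private theorem Fn_eq {A B : SL(2, ℂ)} (h : cls A = cls B) (hA : A.1.trace = 2) (hB : B.1.trace = 2) : A = B := by
  rcases cls_eq.1 h with h1 | h1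
  · exact Subtype.ext h1
  · rw [h1, Matrix.trace_neg, hB] at hA
    norm_num at hA

private theorem Fn_tr (D : SL(2, ℂ)) : (T 1 * (D * T 1 * D⁻¹)).1.trace = 2 - D.1 1 0 ^ 2 := by
  have hd := det_eq D
  have e01 : ∀ A B : SL(2, ℂ), (A * B).1 0 1 = A.1 0 0 * B.1 0 1 + A.1 0 1 * B.1 1 1 := by
    intro A B
    rw [Matrix.SpecialLinearGroup.coe_mul, Matrix.mul_apply, Fin.sum_univ_two]
  have i01 : (D⁻¹).1 0 1 = -D.1 0 1 := by
    rw [inv_coe]
    simp
  simp only [Matrix.trace_fin_two, nf_e00, nf_e10, nf_e11, e01, nf_i00, nf_i10, nf_i11, i01, nf_t00, nf_t01, nf_t10, nf_t11]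
  linear_combination 2 * hd

theorem short_meridian (hΓ : IsKnotGroup Γ μ) (h1 : Γ ≤ Δ) (h2 : Δ ≤ Subgroup.Commensurable.commensurator Γ)
    (hd : DiscreteTopology Δ) (hn : ¬ Δ ≤ Subgroup.normalizer (Γ : Set PSL(2, ℂ)))
    (hi : (∀ A : SL(2, ℂ), cls A ∈ Γ → IsIntegral ℤ A.1.trace) ∨ MeridianGenerates Δ μ) {n : ℕ} (hn3 : n = 3 ∨ n = 6) (hc : IsCuspOrder Δ μ n)
    {δ : PSL(2, ℂ)} (hδ : δ ∈ Δ) {A B : SL(2, ℂ)} (hA : cls A = μ) (hB : cls B = δ * μ * δ⁻¹) (hA2 : A.1.trace = 2) (hB2 : B.1.trace = 2)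
    (h0 : (A * B).1.trace ≠ 2) (h3 : ‖(A * B).1.trace - 2‖ ≤ 3) :
    ∃ (q : PSL(2, ℂ)) (w : ℂ), w ^ 2 + w + 1 = 0 ∧ q * t 1 * q⁻¹ = μ ∧
      ((Γ = (F8 w).map (MulAut.conj q).toMonoidHom) ∨ (n = 3 ∧ Δ = (dod (w ^ 2)).map (MulAut.conj q).toMonoidHom) ∨
        (n = 6 ∧ Δ = (dod (Complex.I * w ^ 2)).map (MulAut.conj q).toMonoidHom)) := by
  obtain ⟨hμ1, M, hM, htr⟩ := hΓ.parabolic
  have hM1 : M ≠ 1 := by
    rintro rfl
    exact hμ1 (by rw [← hM, cls_one])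
  obtain ⟨P, hP⟩ := par_form htr hM1
  have hp : cls P * t 1 * (cls P)⁻¹ = μ := by
    rw [← hM]
    have h3 : cls M * cls P = cls P * t 1 := by
      show cls (M * P) = cls (P * T 1)
      rw [hP]
    rw [← h3]
    group
  have hsurj : ∀ (p : PSL(2, ℂ)) (S : Subgroup PSL(2, ℂ)), (cj p S).map (MulAut.conj p).toMonoidHom = S :=
    fun p S => Subgroup.map_comap_eq_self_of_surjective (MulAut.conj p).surjective S
  have hMG : MeridianGenerates Δ μ := by
    rcases hi with hi | hi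
    · obtain ⟨n', -, -, -, -, -, -, -, -, h5, -⟩ := main3 hΓ h1 h2 hd hn
      exact h5 hi
    · exact hi
  have hn0 : 0 < n := by rcases hn3 with rfl | rfl <;> norm_num
  have hn4 : n ≠ 4 := by rcases hn3 with rfl | rfl <;> norm_num
  obtain ⟨w, hnk, hr3, hr6⟩ := nk_of hΓ h1 h2 hd hn hp hMG hn0 hc hn4
  -- an element with small lower left entry
  obtain ⟨D, hD⟩ := cls_surj ((cls P)⁻¹ * δ * cls P)
  have hAe : A = P * T 1 * P⁻¹ := by
    refine Fn_eq ?_ hA2 (by rw [Fn_tr_conj, Fn_T1])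
    rw [hA, cls_mul, cls_mul, cls_inv]
    exact hp.symm
  have hBe : B = P * (D * T 1 * D⁻¹) * P⁻¹ := by
    refine Fn_eq ?_ hB2 (by rw [Fn_tr_conj, Fn_tr_conj, Fn_T1])
    rw [hB, cls_mul, cls_mul, cls_mul, cls_mul, cls_inv, cls_inv, hD, ← hp]
    show δ * (cls P * t 1 * (cls P)⁻¹) * δ⁻¹ = cls P * ((cls P)⁻¹ * δ * cls P * t 1 * ((cls P)⁻¹ * δ * cls P)⁻¹) * (cls P)⁻¹
    group
  have hAB : (A * B).1.trace = 2 - D.1 1 0 ^ 2 := by
    have e : A * B = P * (T 1 * (D * T 1 * D⁻¹)) * P⁻¹ := by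
      rw [hAe, hBe]
      group
    rw [e, Fn_tr_conj, Fn_tr]
  have hr : ∃ A : SL(2, ℂ), cls A ∈ cj (cls P) Δ ∧ A.1 1 0 ≠ 0 ∧ Complex.normSq (A.1 1 0) ≤ 3 := by
    refine ⟨D, ?_, ?_, ?_⟩
    · rw [hD]
      exact mem_cj' hδ
    · intro h
      apply h0
      rw [hAB, h]
      norm_num
    · rw [hAB] at h3
      have e : (2 : ℂ) - D.1 1 0 ^ 2 - 2 = -(D.1 1 0 ^ 2) := by ring
      rw [e, norm_neg, norm_pow, ← Complex.normSq_eq_norm_sq] at h3
      exact h3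
  obtain ⟨p, hmain⟩ := hnk.main hr
  have hconj : ∀ S : Subgroup PSL(2, ℂ), cj (t p) (cj (cls P) S) = cj (cls P * t p) S := by
    intro S
    ext x
    rw [mem_cj, mem_cj, mem_cj]
    have e : cls P * t p * x * (cls P * t p)⁻¹ = cls P * (t p * x * (t p)⁻¹) * (cls P)⁻¹ := by group
    rw [e]
  have hq : cls P * t p * t 1 * (cls P * t p)⁻¹ = μ := by
    have e : cls P * t p * t 1 * (cls P * t p)⁻¹ = cls P * (t p * t 1 * (t p)⁻¹) * (cls P)⁻¹ := by group
    rw [e, (t_comm p 1).eq, mul_inv_cancel_right]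
    exact hp
  have e00 : ∀ (x : ℂ) (U : SL(2, ℂ)), U.1 1 0 = 0 → (T x * U * T (-x)).1 0 0 = U.1 0 0 := by
    intro x U hU
    rw [nf_e00, nf_e00, nf_t00, nf_t01, nf_t00, nf_t10, hU]
    ring
  rcases hmain with ⟨v, hv, hcj⟩ | ⟨κ, g, u, hNH, hu, hk⟩
  · refine ⟨cls P * t p, v, hv, hq, Or.inl ?_⟩
    rw [← hcj, hconj]
    exact (hsurj _ _).symm
  · refine ⟨cls P * t p, w, hnk.w2, hq, Or.inr ?_⟩
    rcases hn3 with hn3 | hn6
    · left
      refine ⟨hn3, ?_⟩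
      have h4 : cj (t p) (cj (cls P) Δ) = dod (w ^ 2) := by
        refine hNH.dod3 hu hk ?_
        intro U hU hU0
        have h5 := hr3 hn3 (T p * U * T (-p)) (mem_shift.1 hU) (by rw [(shift_c p U).1]; exact hU0)
        rw [e00 p U hU0] at h5
        exact h5
      rw [← h4, hconj]
      exact (hsurj _ _).symm
    · right
      refine ⟨hn6, ?_⟩
      have h4 : cj (t p) (cj (cls P) Δ) = dod (Complex.I * w ^ 2) := by
        refine hNH.dod6 hu hk ?_
        obtain ⟨U, hU, hU0, hU2⟩ := hr6 hn6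
        refine ⟨T (-p) * U * T (- -p), ?_, ?_, ?_⟩
        · rw [mem_shift]
          have e : T p * (T (-p) * U * T (- -p)) * T (-p) = U := by
            rw [T_neg, T_neg, T_neg]
            group
          rw [e]
          exact hU
        · rw [(shift_c (-p) U).1]
          exact hU0
        · rw [e00 (-p) U hU0]
          exact hU2
      rw [← h4, hconj]
      exact (hsurj _ _).symm

end Pool.Agent.HSC
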