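import Pool.Agent.HSC.Nk
import Pool.Agent.HSG.Shf

/-!
# HSC/Mnk: minimal entries and descent

Copied from HSG/Shf.
-/

set_option autoImplicit false

noncomputable section

namespace Pool.Agent.HSC

open Pool.Agent.HSK Pool.Agent.HSG Matrix
open scoped MatrixGroups commutatorElement

variable {Γ Δ : Subgroup PSL(2, ℂ)} {w : ℂ}

private theorem Shf_conj (A : SL(2, ℂ)) : (A * T 1 * A⁻¹).1 1 0 = -(A.1 1 0) ^ 2 := by
  have h1 : (A * T 1 * A⁻¹).1 = A.1 * (T 1).1 * A.1.adjugate := by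
    rw [Matrix.SpecialLinearGroup.coe_mul, Matrix.SpecialLinearGroup.coe_mul,
      Matrix.SpecialLinearGroup.coe_inv]
  rw [h1, T_coe, Matrix.adjugate_fin_two]
  simp only [Matrix.mul_apply, Fin.sum_univ_two, Matrix.of_apply, Matrix.cons_val', Matrix.cons_val_zero,
    Matrix.cons_val_one, Matrix.cons_val_fin_one]
  ring

private theorem Shf_mul {A B : SL(2, ℂ)} (hA : cls A ∈ Δ) (hB : cls B ∈ Δ) : cls (A * B) ∈ Δ := by
  rw [cls_mul]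
  exact Δ.mul_mem hA hB

private theorem Shf_seq (h : NK Γ Δ w) {A : SL(2, ℂ)} (hA : cls A ∈ Δ) (k : ℕ) :
    ∃ B : SL(2, ℂ), cls B ∈ Δ ∧ Complex.normSq (B.1 1 0) = Complex.normSq (A.1 1 0) ^ (2 ^ k) := by
  induction k with
  | zero => exact ⟨A, hA, by simp⟩
  | succ k ih =>
    obtain ⟨B, hB, hB1⟩ := ih
    refine ⟨B * T 1 * B⁻¹, ?_, ?_⟩
    · rw [cls_mul, cls_mul, cls_inv]
      exact Δ.mul_mem (Δ.mul_mem hB (h.le h.one)) (Δ.inv_mem hB)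
    · rw [Shf_conj, Complex.normSq_neg, map_pow, hB1, ← pow_mul, pow_succ]

theorem NK.shimizu (h : NK Γ Δ w) {A : SL(2, ℂ)} (hA : cls A ∈ Δ) (h0 : A.1 1 0 ≠ 0) : 1 ≤ Complex.normSq (A.1 1 0) := by
  by_contra hlt
  rw [not_le] at hlt
  have hpos : 0 < Complex.normSq (A.1 1 0) := Complex.normSq_pos.2 h0
  have h1 : Function.Injective fun k : ℕ => Complex.normSq (A.1 1 0) ^ (2 ^ k) := by
    intro i j hij
    have h2 := (pow_right_strictAnti₀ hpos hlt).injective hij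
    exact Nat.pow_right_injective le_rfl h2
  refine Set.infinite_of_injective_forall_mem h1 (s := {x : ℝ | x ≤ 1 ∧ ∃ A : SL(2, ℂ), cls A ∈ Δ ∧
    Complex.normSq (A.1 1 0) = x}) (fun k => ⟨pow_le_one₀ hpos.le hlt.le, ?_⟩) (h.fin 1)
  exact Shf_seq h hA k

theorem NK.exists_min (h : NK Γ Δ w) : ∃ A : SL(2, ℂ), cls A ∈ Δ ∧ A.1 1 0 ≠ 0 ∧
    ∀ B : SL(2, ℂ), cls B ∈ Δ → B.1 1 0 ≠ 0 → Complex.normSq (A.1 1 0) ≤ Complex.normSq (B.1 1 0) := by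
  obtain ⟨A₀, hA₀, h₀⟩ := h.ex
  have hfin : {x : ℝ | (x ≤ Complex.normSq (A₀.1 1 0) ∧ ∃ A : SL(2, ℂ), cls A ∈ Δ ∧
      Complex.normSq (A.1 1 0) = x) ∧ 0 < x}.Finite :=
    (h.fin (Complex.normSq (A₀.1 1 0))).subset fun x hx => hx.1
  obtain ⟨x, ⟨⟨hx1, A, hA, hAx⟩, hx2⟩, hmin⟩ := Set.exists_min_image _ (fun x : ℝ => x) hfin
    ⟨Complex.normSq (A₀.1 1 0), ⟨le_rfl, A₀, hA₀, rfl⟩, Complex.normSq_pos.2 h₀⟩
  refine ⟨A, hA, ?_, fun B hB hB0 => ?_⟩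
  · rw [← hAx] at hx2
    exact Complex.normSq_pos.1 hx2
  · rw [hAx]
    rcases le_total (Complex.normSq (B.1 1 0)) (Complex.normSq (A₀.1 1 0)) with h1 | h1
    · exact hmin _ ⟨⟨h1, B, hB, rfl⟩, Complex.normSq_pos.2 hB0⟩
    · exact hx1.trans h1

theorem NK.descent (h : NK Γ Δ w) (P : SL(2, ℂ) → Prop) (hup : ∀ A, cls A ∈ Δ → A.1 1 0 = 0 → P A)
    (hstep : ∀ A, cls A ∈ Δ → A.1 1 0 ≠ 0 → ∃ B, cls B ∈ Δ ∧ Complex.normSq ((A * B).1 1 0) < Complex.normSq (A.1 1 0) ∧ (P (A * B) → P A)) :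
    ∀ A, cls A ∈ Δ → P A := by
  have key : ∀ (n : ℕ) (A : SL(2, ℂ)), cls A ∈ Δ →
      {x : ℝ | x < Complex.normSq (A.1 1 0) ∧ ∃ B : SL(2, ℂ), cls B ∈ Δ ∧ Complex.normSq (B.1 1 0) = x}.ncard = n →
      P A := by
    intro n
    induction n using Nat.strong_induction_on with
    | _ n ih =>
      intro A hA hn
      by_cases h0 : A.1 1 0 = 0
      · exact hup A hA h0
      obtain ⟨B, hB, hlt, hP⟩ := hstep A hA h0
      refine hP (ih _ ?_ (A * B) (Shf_mul hA hB) rfl)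
      rw [← hn]
      refine Set.ncard_lt_ncard ?_ ?_
      · refine ⟨fun x hx => ⟨hx.1.trans hlt, hx.2⟩, fun hsub => ?_⟩
        have h1 := hsub (a := Complex.normSq ((A * B).1 1 0)) ⟨hlt, A * B, Shf_mul hA hB, rfl⟩
        exact lt_irrefl _ h1.1
      · exact (h.fin (Complex.normSq (A.1 1 0))).subset fun x hx => ⟨hx.1.le, hx.2⟩
  exact fun A hA => key _ A hA rfl

theorem NK.pair_min (h : NK Γ Δ w) (Q : SL(2, ℂ) → SL(2, ℂ) → Prop) (hQ : ∀ A B, Q A B → cls A ∈ Δ ∧ cls B ∈ Δ) {A₀ B₀ : SL(2, ℂ)} (h0 : Q A₀ B₀) :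
    ∃ A B, Q A B ∧ ∀ A' B', Q A' B' → Complex.normSq (A.1 1 0) + Complex.normSq (B.1 1 0) + Complex.normSq ((A * B).1 1 0) ≤
      Complex.normSq (A'.1 1 0) + Complex.normSq (B'.1 1 0) + Complex.normSq ((A' * B').1 1 0) := by
  obtain ⟨R, hR⟩ : ∃ R : ℝ, R = Complex.normSq (A₀.1 1 0) + Complex.normSq (B₀.1 1 0) + Complex.normSq ((A₀ * B₀).1 1 0) :=
    ⟨_, rfl⟩
  have hf := h.fin R
  have hfin : {x : ℝ | x ≤ R ∧ ∃ A B, Q A B ∧
      Complex.normSq (A.1 1 0) + Complex.normSq (B.1 1 0) + Complex.normSq ((A * B).1 1 0) = x}.Finite := by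
    refine ((hf.prod (hf.prod hf)).image fun q : ℝ × (ℝ × ℝ) => q.1 + q.2.1 + q.2.2).subset ?_
    rintro x ⟨hx, A, B, hAB, rfl⟩
    obtain ⟨hA, hB⟩ := hQ A B hAB
    have n1 := Complex.normSq_nonneg (A.1 1 0)
    have n2 := Complex.normSq_nonneg (B.1 1 0)
    have n3 := Complex.normSq_nonneg ((A * B).1 1 0)
    exact ⟨(_, (_, _)), ⟨⟨by linarith, A, hA, rfl⟩, ⟨by linarith, B, hB, rfl⟩,
      ⟨by linarith, A * B, Shf_mul hA hB, rfl⟩⟩, rfl⟩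
  obtain ⟨x, ⟨hx, A, B, hAB, hABx⟩, hmin⟩ := Set.exists_min_image _ (fun x : ℝ => x) hfin
    ⟨R, le_rfl, A₀, B₀, h0, hR.symm⟩
  refine ⟨A, B, hAB, fun A' B' hQ' => ?_⟩
  rw [hABx]
  rcases le_total (Complex.normSq (A'.1 1 0) + Complex.normSq (B'.1 1 0) + Complex.normSq ((A' * B').1 1 0)) R with h1 | h1
  · exact hmin _ ⟨h1, A', B', hQ', rfl⟩
  · exact hx.trans h1

end Pool.Agent.HSC
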