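import Pool.Agent.HSC.Prk

/-!
# HSC/Ndg: minimal entry `√3`: some full element has its two points congruent

`ndg_zero`: the case `A.1 0 0 = 0`; `A * A` and `A` have congruent points by `hol`, so `c ^ 2 v ^ 2 u = -δ` with a sixth root of unity `u`
and `δ = ± 1`; either the two points of `A * A` are congruent, or `T β * A` is parabolic for some `β`, against `par_full`.
The general case follows by a translation (`NK.shift`).
-/

set_option autoImplicit false

noncomputable section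

namespace Pool.Agent.HSC

open Pool.Agent.HSK Pool.Agent.HSG Matrix
open scoped MatrixGroups commutatorElement

variable {Γ Δ : Subgroup PSL(2, ℂ)} {w κ : ℂ} {g : SL(2, ℂ)}

private theorem ndg_v (hw : w ^ 2 + w + 1 = 0) : (1 - w) ≠ 0 := by
  intro h0
  have h1 : w = 1 := (sub_eq_zero.1 h0).symm
  rw [h1] at hw
  norm_num at hw

private theorem ndg_of (hw : w ^ 2 + w + 1 = 0) {a b : ℂ} (hb : b ∈ Oz w) (h : a = b * (1 - w)) : a * (1 - w)⁻¹ ∈ Oz w := by
  rw [h, mul_assoc, mul_inv_cancel₀ (ndg_v hw), mul_one]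
  exact hb

private theorem ndg_cube (hw : w ^ 2 + w + 1 = 0) {s : ℂ} (hs : s ^ 3 = 1) : (1 + 2 * s) * (1 - w)⁻¹ ∈ Oz w := by
  have h1 : (s - 1) * ((s - w) * (s - w ^ 2)) = 0 := by
    linear_combination hs + (s - 1) * (w - 1 - s) * hw
  rcases mul_eq_zero.1 h1 with h | h
  · refine ndg_of hw (b := 2 + w) (oz_add (by simpa using oz_int (w := w) 2) oz_w) ?_
    linear_combination 2 * h + hw
  rcases mul_eq_zero.1 h with h | h
  · refine ndg_of hw (b := w) oz_w ?_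
    linear_combination 2 * h + hw
  · refine ndg_of hw (b := -w) (oz_neg oz_w) ?_
    linear_combination 2 * h + hw

private theorem ndg_norm (hw : w ^ 2 + w + 1 = 0) : Complex.normSq (1 - w) = 3 := by
  have h := oz_norm hw 1 (-1)
  push_cast at h
  rw [show (1 : ℂ) - w = 1 + -1 * w by ring, h]

private theorem ndg_par (h : NK Γ Δ w) (hm : ∀ A : SL(2, ℂ), cls A ∈ Δ → A.1 1 0 ≠ 0 → 3 ≤ Complex.normSq (A.1 1 0)) {Q : SL(2, ℂ)}
    (hQ : cls Q ∈ Δ) (hQ3 : Complex.normSq (Q.1 1 0) = 3) (htr : Q.1.trace = 2) : False := by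
  have hQ0 : Q.1 1 0 ≠ 0 := by
    intro h0
    rw [h0, map_zero] at hQ3
    norm_num at hQ3
  obtain ⟨B, hB, hB0, -, β, hβ, hβ0, h1⟩ := h.par_full hQ htr hQ0
  have h2 := hm B hB hB0
  have h3 := oz_one_le h.w2 hβ hβ0
  rw [hQ3] at h1
  nlinarith [mul_nonneg (sub_nonneg.2 h3) (sq_nonneg (Complex.normSq (B.1 1 0)))]

private theorem ndg_par' (h : NK Γ Δ w) (hm : ∀ A : SL(2, ℂ), cls A ∈ Δ → A.1 1 0 ≠ 0 → 3 ≤ Complex.normSq (A.1 1 0)) {Q : SL(2, ℂ)}
    (hQ : cls Q ∈ Δ) (hQ3 : Complex.normSq (Q.1 1 0) = 3) (htr : Q.1.trace ^ 2 = 4) : False := by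
  have h1 : (Q.1.trace - 2) * (Q.1.trace + 2) = 0 := by linear_combination htr
  rcases mul_eq_zero.1 h1 with h2 | h2
  · exact ndg_par h hm hQ hQ3 (sub_eq_zero.1 h2)
  · have hcls : cls (-Q) = cls Q := cls_eq.2 (Or.inr (Matrix.SpecialLinearGroup.coe_neg Q))
    refine ndg_par (Q := -Q) h hm (by rw [hcls]; exact hQ) ?_ ?_
    · rw [Matrix.SpecialLinearGroup.coe_neg, Matrix.neg_apply, Complex.normSq_neg]
      exact hQ3
    · rw [Matrix.SpecialLinearGroup.coe_neg, Matrix.trace_neg]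
      linear_combination -h2

private theorem ndg_zero (h : NK Γ Δ w) (hm : ∀ A : SL(2, ℂ), cls A ∈ Δ → A.1 1 0 ≠ 0 → 3 ≤ Complex.normSq (A.1 1 0)) {A : SL(2, ℂ)}
    (hA : cls A ∈ Δ) (hA3 : Complex.normSq (A.1 1 0) = 3) (hp : A.1 0 0 = 0)
    (hnd : ∀ B : SL(2, ℂ), cls B ∈ Δ → Complex.normSq (B.1 1 0) = 3 → pt B - pt B⁻¹ ∉ Oz w) : False := by
  have hw := h.w2
  have hw3 := w_pow hw
  have hv := ndg_v hw
  have hc0 : A.1 1 0 ≠ 0 := by
    intro h0
    rw [h0, map_zero] at hA3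
    norm_num at hA3
  have hd := det_eq A
  rw [hp, zero_mul, zero_sub] at hd
  have hAi : cls A⁻¹ ∈ Δ := by
    rw [cls_inv]
    exact Δ.inv_mem hA
  have hAi3 : Complex.normSq (A⁻¹.1 1 0) = 3 := by
    rw [nf_i10, Complex.normSq_neg]
    exact hA3
  have hptA : pt A = 0 := by
    unfold pt
    rw [hp, zero_div]
  have h1 := h.hol hm hA hAi hA3 hAi3
  have h2 := hnd A hA hA3
  rw [hptA, pt_inv] at h1 h2
  obtain ⟨c, hc⟩ : ∃ c, c = A.1 1 0 := ⟨_, rfl⟩
  obtain ⟨d, hdd⟩ : ∃ d, d = A.1 1 1 := ⟨_, rfl⟩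
  obtain ⟨b, hb⟩ : ∃ b, b = A.1 0 1 := ⟨_, rfl⟩
  rw [← hc] at hA3 hc0 h1 h2 hd
  rw [← hdd] at h1 h2
  rw [← hb] at hd
  obtain ⟨x, y, hxy⟩ := h1
  obtain ⟨k, δ, hk, hδ⟩ : ∃ k δ : ℤ, x + y = 3 * k + δ ∧ (δ = 0 ∨ δ = 1 ∨ δ = -1) :=
    ⟨(x + y + 1) / 3, x + y - 3 * ((x + y + 1) / 3), by ring, by omega⟩
  have hkC : (x : ℂ) + y = 3 * k + δ := by exact_mod_cast hk
  have hβ : -((k : ℂ) * (2 + w) - y) ∈ Oz w := ⟨y - 2 * k, -k, by push_cast; ring⟩
  have hdc : d * (1 - w) = c * (δ + (k * (2 + w) - y) * (1 - w)) := by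
    have e : 0 - -d / c = d / c := by ring
    rw [e] at hxy
    have e2 : d * (1 - w) = c * ((1 - w) * (d / c)) := by
      field_simp
    rw [e2, hxy]
    linear_combination c * hkC + c * (k : ℂ) * hw
  have hδ1 : (δ : ℂ) ^ 2 = 1 := by
    rcases hδ with h0 | h0 | h0
    · exfalso
      apply h2
      have e : 0 - -d / c = k * (2 + w) - y := by
        rw [h0] at hdc
        push_cast at hdc
        have e1 : d = c * (k * (2 + w) - y) := by
          apply mul_right_cancel₀ hv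
          linear_combination hdc
        rw [e1]
        field_simp
        ring
      rw [e]
      have e3 := oz_neg hβ
      rwa [neg_neg] at e3
    · rw [h0]
      norm_num
    · rw [h0]
      norm_num
  -- the translated element
  obtain ⟨A', hA'⟩ : ∃ A', A' = A * T (-((k : ℂ) * (2 + w) - y)) := ⟨_, rfl⟩
  have hA'Δ : cls A' ∈ Δ := by
    rw [hA', cls_mul]
    exact Δ.mul_mem hA (h.t_mem hβ)
  have e00 : A'.1 0 0 = 0 := by
    rw [hA', mul_T_coe]
    simp [hp]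
  have e01 : A'.1 0 1 = b := by
    rw [hA', mul_T_coe]
    simp [hp, hb]
  have e10 : A'.1 1 0 = c := by
    rw [hA', mul_T_coe]
    simp [hc]
  have e11 : A'.1 1 1 = δ * c * (1 - w)⁻¹ := by
    rw [hA', mul_T_coe]
    simp only [Matrix.of_apply, Matrix.cons_val', Matrix.cons_val_one, Matrix.cons_val_fin_one]
    rw [← hc, ← hdd]
    apply mul_right_cancel₀ hv
    rw [mul_assoc (δ * c), inv_mul_cancel₀ hv]
    linear_combination hdc
  have hA'3 : Complex.normSq (A'.1 1 0) = 3 := by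
    rw [e10]
    exact hA3
  have hptA' : pt A' = 0 := by
    unfold pt
    rw [e00, zero_div]
  obtain ⟨v, hvd⟩ : ∃ v, v = (1 - w)⁻¹ := ⟨_, rfl⟩
  rw [← hvd] at e11
  have hv1 : v * (1 - w) = 1 := by rw [hvd, inv_mul_cancel₀ hv]
  have hv0 : v ≠ 0 := left_ne_zero_of_mul_eq_one hv1
  have hv2 : 3 * w * v ^ 2 = -1 := by
    linear_combination (-(v * (1 - w)) - 1) * hv1 + v ^ 2 * hw
  have hvn : Complex.normSq v * 3 = 1 := by
    have e := congrArg Complex.normSq hv1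
    rwa [map_mul, ndg_norm hw, map_one] at e
  have hδn : Complex.normSq (δ : ℂ) = 1 := by
    have e := congrArg Complex.normSq hδ1
    rw [map_pow, map_one] at e
    exact (pow_eq_one_iff_of_nonneg (Complex.normSq_nonneg _) (by norm_num)).1 e
  have f00 : (A' * A').1 0 0 = -1 := by
    rw [nf_e00, e00, e01, e10]
    linear_combination -hd
  have f10 : (A' * A').1 1 0 = δ * c ^ 2 * v := by
    rw [nf_e10, e00, e10, e11]
    ring
  have f11 : (A' * A').1 1 1 = -1 + c ^ 2 * v ^ 2 := by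
    rw [nf_e11, e01, e10, e11]
    linear_combination -hd + c ^ 2 * v ^ 2 * hδ1
  have hδ0 : (δ : ℂ) ≠ 0 := by
    intro h0
    rw [h0] at hδ1
    norm_num at hδ1
  have hQ0 : (A' * A').1 1 0 ≠ 0 := by
    rw [f10]
    exact mul_ne_zero (mul_ne_zero hδ0 (pow_ne_zero 2 hc0)) hv0
  have hQ3 : Complex.normSq ((A' * A').1 1 0) = 3 := by
    rw [f10, map_mul, map_mul, map_pow, hδn, hA3]
    linear_combination 3 * hvn
  have hQΔ : cls (A' * A') ∈ Δ := by
    rw [cls_mul]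
    exact Δ.mul_mem hA'Δ hA'Δ
  have h3 := h.hol hm hQΔ hA'Δ hQ3 hA'3
  obtain ⟨u, hu⟩ : ∃ u, u = (1 - w) * (pt (A' * A') - pt A') := ⟨_, rfl⟩
  rw [← hu] at h3
  have hu1 : u * (δ * c ^ 2 * v) = -(1 - w) := by
    rw [hu, hptA']
    unfold pt
    rw [f00, f10]
    field_simp
    ring
  have hun : Complex.normSq u = 1 := by
    have e := congrArg Complex.normSq hu1
    rw [map_mul, map_mul, map_mul, map_pow, hδn, hA3, Complex.normSq_neg, ndg_norm hw] at e
    linear_combination (1 / 3) * e - Complex.normSq u * hvn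
  have hu6 := oz_unit hw h3 hun
  have hu0 : u ≠ 0 := by
    intro h0
    rw [h0, map_zero] at hun
    norm_num at hun
  have hcu : c ^ 2 * v ^ 2 * u = -δ := by
    linear_combination (δ * v) * hu1 - c ^ 2 * v ^ 2 * u * hδ1 - δ * hv1
  have h4 := hnd _ hQΔ hQ3
  have hdiff : pt (A' * A') - pt (A' * A')⁻¹ = (δ + 2 * u) * v := by
    rw [pt_inv]
    unfold pt
    rw [f00, f10, f11, div_sub_div_same, div_eq_iff (by rw [← f10]; exact hQ0)]
    linear_combination (2 - c ^ 2 * v ^ 2) * hδ1 - 2 * δ * hcu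
  rw [hdiff] at h4
  have hu3 : (u ^ 3 - δ) * (u ^ 3 + δ) = 0 := by linear_combination hu6 - hδ1
  rcases mul_eq_zero.1 hu3 with h5 | h5
  · apply h4
    have hs : ((δ : ℂ) * u) ^ 3 = 1 := by
      linear_combination (δ : ℂ) ^ 3 * h5 + ((δ : ℂ) ^ 2 + 1) * hδ1
    have e := oz_mul hw (oz_int (w := w) δ) (ndg_cube hw hs)
    have e2 : (δ + 2 * u) * v = δ * ((1 + 2 * (δ * u)) * (1 - w)⁻¹) := by
      rw [← hvd]
      linear_combination -2 * u * v * hδ1
    rw [e2]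
    exact e
  · have hs : (u ^ 2) ^ 3 = 1 := by linear_combination hu6
    have e := oz_mul hw (oz_int (w := w) (-δ)) (ndg_cube hw hs)
    rw [← hvd] at e
    obtain ⟨β, hβd⟩ : ∃ β, β = ((-δ : ℤ) : ℂ) * ((1 + 2 * u ^ 2) * v) := ⟨_, rfl⟩
    rw [← hβd] at e
    refine ndg_par' (Q := T β * A') h hm ?_ ?_ ?_
    · rw [cls_mul]
      exact Δ.mul_mem (h.t_mem e) hA'Δ
    · rw [nf_e10, nf_t10, nf_t11, zero_mul, zero_add, one_mul]
      exact hA'3
    · rw [Matrix.trace_fin_two, nf_e00, nf_e11, nf_t00, nf_t01, nf_t10, nf_t11, e00, e10, e11, hβd]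
      push_cast
      linear_combination (4 * δ ^ 2 * u ^ 3) * hcu - 4 * δ ^ 3 * h5 + 4 * (δ ^ 2 + 1) * hδ1

theorem NK.no_diag (h : NK Γ Δ w) (hm : ∀ A : SL(2, ℂ), cls A ∈ Δ → A.1 1 0 ≠ 0 → 3 ≤ Complex.normSq (A.1 1 0)) {A : SL(2, ℂ)}
    (hA : cls A ∈ Δ) (hA3 : Complex.normSq (A.1 1 0) = 3)
    (hnd : ∀ B : SL(2, ℂ), cls B ∈ Δ → Complex.normSq (B.1 1 0) = 3 → pt B - pt B⁻¹ ∉ Oz w) : False := by
  have hA0 : A.1 1 0 ≠ 0 := by
    intro h0
    rw [h0, map_zero] at hA3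
    norm_num at hA3
  have hback : T (pt A) * (T (-pt A) * A * T (pt A)) * T (-pt A) = A := by
    rw [T_neg]
    group
  have hc1 : (T (-pt A) * A * T (pt A)).1 1 0 = A.1 1 0 := by
    have e := (shift_c (-pt A) A).1
    rwa [neg_neg] at e
  have hp1 : pt (T (-pt A) * A * T (pt A)) = 0 := by
    have e := (shift_c (-pt A) A).2 hA0
    rw [neg_neg] at e
    rw [e, add_neg_cancel]
  refine ndg_zero (A := T (-pt A) * A * T (pt A)) (h.shift (pt A)) ?_ ?_ ?_ ?_ ?_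
  · intro B hB hB0
    have e := (shift_c (pt A) B).1
    rw [← e] at hB0 ⊢
    exact hm _ (mem_shift.1 hB) hB0
  · rw [mem_shift, hback]
    exact hA
  · rw [hc1]
    exact hA3
  · have hne : (T (-pt A) * A * T (pt A)).1 1 0 ≠ 0 := by
      rw [hc1]
      exact hA0
    rcases div_eq_zero_iff.1 hp1 with e | e
    · exact e
    · exact absurd e hne
  · intro B hB hB3
    have hB0 : B.1 1 0 ≠ 0 := by
      intro h0
      rw [h0, map_zero] at hB3
      norm_num at hB3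
    have hBi0 : B⁻¹.1 1 0 ≠ 0 := by
      rw [nf_i10]
      exact neg_ne_zero.2 hB0
    have e := hnd _ (mem_shift.1 hB) (by rw [(shift_c (pt A) B).1]; exact hB3)
    have e2 : (T (pt A) * B * T (-pt A))⁻¹ = T (pt A) * B⁻¹ * T (-pt A) := by
      rw [T_neg]
      group
    rw [e2, (shift_c (pt A) B).2 hB0, (shift_c (pt A) B⁻¹).2 hBi0, add_sub_add_right_eq_sub] at e
    exact e

end Pool.Agent.HSC
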