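import Pool.Agent.HSG.Nf

/-!
# HSC/Nk: the normal form

Copied from HSG/Nf (proofs by helper42), with other fields.
-/

set_option autoImplicit false

noncomputable section

namespace Pool.Agent.HSC

open Pool.Agent.HSK Pool.Agent.HSG Matrix
open scoped MatrixGroups commutatorElement

/-- normal form: the meridian is `T 1`, the translations of `Δ` are the Eisenstein integers (as `NF` of HSG, with a weaker `per`, with `par` and `rot`, without `inf`) -/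
structure NK (Γ Δ : Subgroup PSL(2, ℂ)) (w : ℂ) : Prop where
  w2 : w ^ 2 + w + 1 = 0
  le : Γ ≤ Δ
  one : t 1 ∈ Γ
  gen : NGen Γ (t 1)
  tf : ∀ g ∈ Γ, ∀ n : ℕ, 0 < n → g ^ n = 1 → g = 1
  lat : ∀ β, t β ∈ Δ ↔ β ∈ Oz w
  up : ∀ A : SL(2, ℂ), cls A ∈ Δ → A.1 1 0 = 0 → (A.1 0 0 ^ 2) ^ 6 = 1
  cusp : ∀ A : SL(2, ℂ), cls A ∈ Δ → ∃ B : SL(2, ℂ), cls B ∈ Γ ∧ (B * A).1 1 0 = 0
  fin : ∀ R : ℝ, {x : ℝ | x ≤ R ∧ ∃ A : SL(2, ℂ), cls A ∈ Δ ∧ Complex.normSq (A.1 1 0) = x}.Finite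
  ex : ∃ A : SL(2, ℂ), cls A ∈ Δ ∧ A.1 1 0 ≠ 0
  per : ∃ x y : ℤ, y ≠ 0 ∧ ∀ β, t β ∈ Γ ↔ ∃ a b : ℤ, β = a + b * (x + y * w)
  par : ∀ A : SL(2, ℂ), cls A ∈ Δ → A.1.trace = 2 → ∃ B : SL(2, ℂ), cls B ∈ Δ ∧ (B * A * B⁻¹).1 1 0 = 0
  rot : ∃ U : SL(2, ℂ), cls U ∈ Δ ∧ U.1 1 0 = 0 ∧ U.1 0 0 ^ 2 = w

variable {Γ Δ : Subgroup PSL(2, ℂ)} {w : ℂ} {A B U : SL(2, ℂ)}

theorem NK.up_norm (h : NK Γ Δ w) (hU : cls U ∈ Δ) (hc : U.1 1 0 = 0) : Complex.normSq (U.1 0 0) = 1 := by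
  have h1 := h.up U hU hc
  have h2 : Complex.normSq (U.1 0 0) ^ 12 = 1 := by
    rw [← map_pow, show U.1 0 0 ^ 12 = (U.1 0 0 ^ 2) ^ 6 by ring, h1, map_one]
  exact (pow_eq_one_iff_of_nonneg (Complex.normSq_nonneg _) (by norm_num)).1 h2

theorem NK.c_mul_up (h : NK Γ Δ w) (hU : cls U ∈ Δ) (hc : U.1 1 0 = 0) (A : SL(2, ℂ)) :
    Complex.normSq ((A * U).1 1 0) = Complex.normSq (A.1 1 0) ∧ Complex.normSq ((U * A).1 1 0) = Complex.normSq (A.1 1 0) := by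
  have h1 := h.up_norm hU hc
  have h2 : Complex.normSq (U.1 1 1) = 1 := by
    have h3 := congrArg Complex.normSq (up_mul hc)
    rw [map_mul, h1, one_mul, map_one] at h3
    exact h3
  constructor
  · rw [nf_e10, hc, mul_zero, add_zero, map_mul, h1, mul_one]
  · rw [nf_e10, hc, zero_mul, zero_add, map_mul, h2, one_mul]

/-- the lower left entry is determined, up to modulus, by the value at infinity -/
theorem NK.same_pt (h : NK Γ Δ w) (hA : cls A ∈ Δ) (hB : cls B ∈ Δ) (hA0 : A.1 1 0 ≠ 0) (hB0 : B.1 1 0 ≠ 0) (hp : pt A = pt B) :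
    Complex.normSq (A.1 1 0) = Complex.normSq (B.1 1 0) := by
  have h1 : (A⁻¹ * B).1 1 0 = 0 := by rw [c_inv_mul hA0 hB0, hp, sub_self, mul_zero]
  have h2 : cls (A⁻¹ * B) ∈ Δ := by
    rw [cls_mul, cls_inv]
    exact Δ.mul_mem (Δ.inv_mem hA) hB
  have h3 := (h.c_mul_up h2 h1 A).1
  rw [mul_inv_cancel_left] at h3
  exact h3.symm

theorem NK.t_mem (h : NK Γ Δ w) {β : ℂ} (hβ : β ∈ Oz w) : cls (T β) ∈ Δ := (h.lat β).2 hβ

end Pool.Agent.HSC
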