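import Pool.Agent.HSC.Wd

/-!
# HSC/Nr3: no small parameters near `q = 3`

PROOF PLAN.  The word with the letters `1, 1, 1, 1, 1, u`, `u = w ^ 2 = -1 - w` (in the list the last letter comes first: `[w ^ 2, 1, 1, 1, 1, 1]`), has `P_6 = -1 + q (q - 3) (u (q - 1) - 1) = -(1 - z)`, where `d = 3 - q`, `z = q d (1 - u (q - 1))`.
`MinW` gives `P_6 = 0` or `1 ≤ normSq P_6 = 1 - 2 Re z + normSq z`.  Suppose `q ≠ 3`.  With `a = 3 - x`, `d = a - y w`: `z = (9 + 6 w) d - (6 + 5 w) d ^ 2 + (1 + w) d ^ 3`, `Re ((9 + 6 w) d) = 6 a + 15/2 y`, and `‖q‖ ≤ 3` is `a ^ 2 + a y + y ^ 2 ≤ 6 a + 3 y`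
(`normSq d = a ^ 2 + a y + y ^ 2`).  With `p = 6 a + 3 y ≥ 0`: `normSq d = p ^ 2 / 36 + 3 / 4 y ^ 2`, `2 Re ((9 + 6 w) d) = 2 p + 9 y ≥ 10 ‖d‖`; `‖d‖ ≤ 1 / 16`, `‖6 + 5 w‖ = √31`, so `2 Re z ≥ 10 ‖d‖ - 12 ‖d‖ ^ 2 - 2 ‖d‖ ^ 3 > 81 ‖d‖ ^ 2 ≥ normSq z` and
`‖z‖ < 1`, so `0 < normSq P_6 < 1` (`‖9 + 6 w‖ = √63 < 8`, `‖z‖ ≤ 9 ‖d‖`).
-/

set_option autoImplicit false

noncomputable section

namespace Pool.Agent.HSC

open Pool.Agent.HSK Pool.Agent.HSG Matrix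
open scoped MatrixGroups commutatorElement

variable {w q : ℂ}

private theorem nr_sq (hw : w ^ 2 + w + 1 = 0) (a b : ℝ) :
    Complex.normSq ((a : ℂ) + b * w) = a ^ 2 - a * b + b ^ 2 := by
  obtain ⟨h1, h2⟩ := w_re hw
  rw [Complex.normSq_apply]
  simp only [Complex.add_re, Complex.add_im, Complex.mul_re, Complex.mul_im, Complex.ofReal_re, Complex.ofReal_im]
  rw [h1]
  linear_combination b ^ 2 * h2

private theorem nr_norm {α : ℂ} {c : ℝ} (hc : 0 ≤ c) (h : Complex.normSq α ≤ c ^ 2) : ‖α‖ ≤ c := by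
  rw [Complex.normSq_eq_norm_sq] at h
  exact (pow_le_pow_iff_left₀ (norm_nonneg α) hc two_ne_zero).1 h

private theorem nr_pr (hw : w ^ 2 + w + 1 = 0) (q : ℂ) : (pr q [w ^ 2, 1, 1, 1, 1, 1]).1 =
    -(1 - ((9 + 6 * w) * (3 - q) - (6 + 5 * w) * (3 - q) ^ 2 + (1 + w) * (3 - q) ^ 3)) := by
  simp [pr]
  linear_combination (q * (q - 1) * (q - 3)) * hw

theorem near_three (hw : w ^ 2 + w + 1 = 0) (hM : MinW w q) {x y : ℝ} (hq : q = x + y * w) (hx : |x - 3| ≤ 1 / 32) (h0 : 0 ≤ y)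
    (hy : y ≤ 1 / 32) (h3 : ‖q‖ ≤ 3) : q = 3 := by
  obtain ⟨hw1, hw2⟩ := w_re hw
  by_contra hne
  have hd0 : 3 - q ≠ 0 := fun h => hne (sub_eq_zero.1 h).symm
  obtain ⟨hx1, hx2⟩ := abs_le.1 hx
  have hd : 3 - q = ((3 - x : ℝ) : ℂ) + ((-y : ℝ) : ℂ) * w := by
    rw [hq]
    push_cast
    ring
  have hr2 : ‖3 - q‖ ^ 2 = (3 - x) ^ 2 + (3 - x) * y + y ^ 2 := by
    rw [← Complex.normSq_eq_norm_sq, hd, nr_sq hw]
    ring
  have hq2 : x ^ 2 - x * y + y ^ 2 ≤ 9 := by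
    have h1 : ‖q‖ ^ 2 = x ^ 2 - x * y + y ^ 2 := by
      rw [← Complex.normSq_eq_norm_sq, hq, nr_sq hw]
    rw [← h1]
    nlinarith [norm_nonneg q]
  set r := ‖3 - q‖ with hr
  have hr0 : 0 < r := norm_pos_iff.2 hd0
  have hp : r ^ 2 ≤ 6 * (3 - x) + 3 * y := by
    rw [hr2]
    nlinarith
  have hr10 : 10 * r ≤ 2 * (6 * (3 - x) + 3 * y) + 9 * y := by
    have hp0 : 0 ≤ 6 * (3 - x) + 3 * y := le_trans (by positivity) hp
    refine (pow_le_pow_iff_left₀ (by positivity) (by positivity) two_ne_zero).1 ?_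
    have h1 : (10 * r) ^ 2 = 100 * ((6 * (3 - x) + 3 * y) ^ 2 / 36 + 3 / 4 * y ^ 2) := by
      rw [mul_pow, hr2]
      ring
    rw [h1]
    nlinarith [mul_nonneg hp0 h0, sq_nonneg (6 * (3 - x) + 3 * y), sq_nonneg y]
  have hr16 : r ≤ 1 / 16 := by
    refine (pow_le_pow_iff_left₀ hr0.le (by norm_num) two_ne_zero).1 ?_
    rw [hr2]
    have h1 : (3 - x) ^ 2 ≤ (1 / 32) ^ 2 := by nlinarith
    have h2 : (3 - x) * y ≤ (1 / 32) ^ 2 := by nlinarith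
    have h4 : y ^ 2 ≤ (1 / 32) ^ 2 := by nlinarith
    linarith
  have hn1 : ‖9 + 6 * w‖ ≤ 8 := by
    refine nr_norm (by norm_num) ?_
    have h1 := nr_sq hw 9 6
    push_cast at h1
    rw [h1]
    norm_num
  have hn2 : ‖6 + 5 * w‖ ≤ 6 := by
    refine nr_norm (by norm_num) ?_
    have h1 := nr_sq hw 6 5
    push_cast at h1
    rw [h1]
    norm_num
  have hn3 : ‖1 + w‖ ≤ 1 := by
    refine nr_norm (by norm_num) ?_
    have h1 := nr_sq hw 1 1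
    push_cast at h1
    rw [one_mul] at h1
    rw [h1]
    norm_num
  have hA : ‖(9 + 6 * w) * (3 - q)‖ ≤ 8 * r := by
    rw [norm_mul]
    exact mul_le_mul_of_nonneg_right hn1 hr0.le
  have hB : ‖(6 + 5 * w) * (3 - q) ^ 2‖ ≤ 6 * r ^ 2 := by
    rw [norm_mul, norm_pow]
    exact mul_le_mul_of_nonneg_right hn2 (by positivity)
  have hC : ‖(1 + w) * (3 - q) ^ 3‖ ≤ 1 * r ^ 3 := by
    rw [norm_mul, norm_pow]
    exact mul_le_mul_of_nonneg_right hn3 (by positivity)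
  have hAre : ((9 + 6 * w) * (3 - q)).re = 6 * (3 - x) + 15 / 2 * y := by
    have h1 : (9 + 6 * w) * (3 - q) = (((9 * (3 - x) + 6 * y : ℝ)) : ℂ) + ((6 * (3 - x) - 3 * y : ℝ) : ℂ) * w := by
      rw [hd]
      push_cast
      linear_combination (-(6 * (y : ℂ))) * hw
    rw [h1]
    simp only [Complex.add_re, Complex.mul_re, Complex.ofReal_re, Complex.ofReal_im]
    rw [hw1]
    ring
  have hBre := (abs_le.1 ((Complex.abs_re_le_norm _).trans hB)).2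
  have hCre := (abs_le.1 ((Complex.abs_re_le_norm _).trans hC)).1
  set z := (9 + 6 * w) * (3 - q) - (6 + 5 * w) * (3 - q) ^ 2 + (1 + w) * (3 - q) ^ 3 with hz
  have hzre : z.re = ((9 + 6 * w) * (3 - q)).re - ((6 + 5 * w) * (3 - q) ^ 2).re + ((1 + w) * (3 - q) ^ 3).re := by
    rw [hz, Complex.add_re, Complex.sub_re]
  have hzn : ‖z‖ ≤ 8 * r + 6 * r ^ 2 + 1 * r ^ 3 := by
    rw [hz]
    refine (norm_add_le _ _).trans (add_le_add ((norm_sub_le _ _).trans (add_le_add hA hB)) hC)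
  have hr3 : r ^ 3 ≤ r ^ 2 * (1 / 16) := by
    rw [pow_succ]
    exact mul_le_mul_of_nonneg_left hr16 (by positivity)
  have hr22 : r ^ 2 ≤ r * (1 / 16) := by
    rw [pow_two]
    exact mul_le_mul_of_nonneg_left hr16 hr0.le
  have hzn9 : ‖z‖ ≤ 9 * r := by
    refine hzn.trans ?_
    linarith
  have hzn1 : ‖z‖ < 1 := by
    refine lt_of_le_of_lt hzn9 ?_
    linarith
  have hzsq : ‖z‖ ^ 2 ≤ 81 * r ^ 2 := by
    have h1 : ‖z‖ ^ 2 ≤ (9 * r) ^ 2 := pow_le_pow_left₀ (norm_nonneg z) hzn9 2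
    rwa [mul_pow, show (9 : ℝ) ^ 2 = 81 by norm_num] at h1
  have hfin : Complex.normSq (-(1 - z)) < 1 := by
    rw [Complex.normSq_neg, Complex.normSq_sub, Complex.normSq_one, Complex.normSq_eq_norm_sq z]
    have h1 : (1 * (starRingEnd ℂ) z).re = z.re := by
      rw [one_mul, Complex.conj_re]
    rw [h1, hzre, hAre]
    linarith
  have hPne : (pr q [w ^ 2, 1, 1, 1, 1, 1]).1 ≠ 0 := by
    rw [nr_pr hw, ← hz]
    intro h1
    have h2 : z = 1 := by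
      linear_combination h1
    rw [h2, norm_one] at hzn1
    exact lt_irrefl _ hzn1
  have hmem : ∀ t ∈ [w ^ 2, 1, 1, 1, 1, 1], t ∈ Oz w := by
    intro t ht
    simp only [List.mem_cons, List.not_mem_nil, or_false] at ht
    rcases ht with rfl | rfl | rfl | rfl | rfl | rfl
    · exact oz_pow hw oz_w 2
    all_goals exact oz_one
  have hmin := (hM [w ^ 2, 1, 1, 1, 1, 1] hmem hPne).1 (by simp)
  rw [nr_pr hw, ← hz] at hmin
  exact absurd hmin (not_le.2 hfin)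

end Pool.Agent.HSC
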