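import Pool.Agent.HSC.Mnk
import Pool.Agent.HSC.Shk

/-!
# HSC/Prk: parabolic elements and holes

`NK.par_full`: `C * Q * C⁻¹ = T β` for some `C` (`par`), so `Q = C⁻¹ * T β * C`, and `B = C⁻¹`.  `oz_hole`: the points at distance `≥ 1/√3` from
the Eisenstein integers are the centres of the triangles.  `NK.hol`: `A⁻¹ * (T β * B)` has the lower left entry
`A.1 1 0 * B.1 1 0 * (pt A - pt B - β)`.
-/

set_option autoImplicit false

noncomputable section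

namespace Pool.Agent.HSC

open Pool.Agent.HSK Pool.Agent.HSG Matrix
open scoped MatrixGroups commutatorElement

variable {Γ Δ : Subgroup PSL(2, ℂ)} {w κ : ℂ} {g : SL(2, ℂ)}

private theorem prk_e01 (A B : SL(2, ℂ)) : (A * B).1 0 1 = A.1 0 0 * B.1 0 1 + A.1 0 1 * B.1 1 1 := by
  rw [Matrix.SpecialLinearGroup.coe_mul, Matrix.mul_apply, Fin.sum_univ_two]

private theorem prk_i01 (A : SL(2, ℂ)) : (A⁻¹).1 0 1 = -A.1 0 1 := by
  rw [inv_coe]
  simp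

private theorem prk_T {P : SL(2, ℂ)} (h0 : P.1 1 0 = 0) (htr : P.1 0 0 + P.1 1 1 = 2) : P = T (P.1 0 1) := by
  have h1 := up_mul h0
  have h2 : (P.1 0 0 - 1) ^ 2 = 0 := by linear_combination P.1 0 0 * htr - h1
  have h3 : P.1 0 0 = 1 := sub_eq_zero.1 (pow_eq_zero_iff (two_ne_zero) |>.1 h2)
  have h4 : P.1 1 1 = 1 := by linear_combination htr - h3
  apply Subtype.ext
  rw [T_coe]
  ext i j
  fin_cases i <;> fin_cases j <;> simp [h0, h3, h4]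

theorem NK.par_full (h : NK Γ Δ w) {Q : SL(2, ℂ)} (hQ : cls Q ∈ Δ) (htr : Q.1.trace = 2) (hc : Q.1 1 0 ≠ 0) :
    ∃ B : SL(2, ℂ), cls B ∈ Δ ∧ B.1 1 0 ≠ 0 ∧ pt B = (Q.1 0 0 - Q.1 1 1) / (2 * Q.1 1 0) ∧
      ∃ β ∈ Oz w, β ≠ 0 ∧ Complex.normSq (Q.1 1 0) = Complex.normSq β * Complex.normSq (B.1 1 0) ^ 2 := by
  obtain ⟨C, hC, hC0⟩ := h.par Q hQ htr
  rw [Matrix.trace_fin_two] at htr
  have hd := det_eq C
  have htr' : (C * Q * C⁻¹).1 0 0 + (C * Q * C⁻¹).1 1 1 = 2 := by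
    rw [nf_e00, nf_e11, nf_e00, prk_e01, nf_e10, nf_e11, nf_i00, nf_i10, nf_i11, prk_i01]
    linear_combination (Q.1 0 0 + Q.1 1 1) * hd + htr
  obtain ⟨β, hβ⟩ : ∃ β, β = (C * Q * C⁻¹).1 0 1 := ⟨_, rfl⟩
  have hP : C * Q * C⁻¹ = T β := by
    rw [hβ]
    exact prk_T hC0 htr'
  have hQ' : Q = C⁻¹ * T β * C := by
    rw [← hP]
    group
  have hβΔ : t β ∈ Δ := by
    show cls (T β) ∈ Δ
    rw [← hP, cls_mul, cls_mul, cls_inv]
    exact Δ.mul_mem (Δ.mul_mem hC hQ) (Δ.inv_mem hC)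
  have h10 : Q.1 1 0 = -(β * C.1 1 0 ^ 2) := by
    conv_lhs => rw [hQ']
    rw [nf_e10, nf_e10, nf_e11, nf_i10, nf_i11, nf_t00, nf_t01, nf_t10, nf_t11]
    ring
  have h00 : Q.1 0 0 = 1 + β * C.1 1 0 * C.1 1 1 := by
    conv_lhs => rw [hQ']
    rw [nf_e00, nf_e00, prk_e01, nf_i00, prk_i01, nf_t00, nf_t01, nf_t10, nf_t11]
    linear_combination hd
  have h11 : Q.1 1 1 = 1 - β * C.1 1 0 * C.1 1 1 := by
    conv_lhs => rw [hQ']
    rw [nf_e11, nf_e10, nf_e11, nf_i10, nf_i11, nf_t00, nf_t01, nf_t10, nf_t11]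
    linear_combination hd
  have hβ0 : β ≠ 0 := by
    intro h0
    rw [h10, h0] at hc
    exact hc (by ring)
  have hc0 : C.1 1 0 ≠ 0 := by
    intro h0
    rw [h10, h0] at hc
    exact hc (by ring)
  refine ⟨C⁻¹, ?_, ?_, ?_, β, (h.lat β).1 hβΔ, hβ0, ?_⟩
  · rw [cls_inv]
    exact Δ.inv_mem hC
  · rw [nf_i10]
    exact neg_ne_zero.2 hc0
  · rw [pt_inv, h00, h11, h10]
    field_simp
    ring
  · rw [h10, nf_i10, Complex.normSq_neg, Complex.normSq_neg, map_mul, map_pow]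

private theorem prk_tri {a b : ℝ} (hb : 0 ≤ b) (hba : b ≤ a) (ha : a < 1)
    (h1 : 1 / 3 ≤ a ^ 2 - a * b + b ^ 2) (h2 : 1 / 3 ≤ (a - 1) ^ 2 - (a - 1) * b + b ^ 2)
    (h3 : 1 / 3 ≤ (a - 1) ^ 2 - (a - 1) * (b - 1) + (b - 1) ^ 2) : a = 2 / 3 ∧ b = 1 / 3 := by
  have e1 := mul_nonneg (sub_pos.2 ha).le (sub_nonneg.2 h1)
  have e2 := mul_nonneg (sub_nonneg.2 hba) (sub_nonneg.2 h2)
  have e3 := mul_nonneg hb (sub_nonneg.2 h3)
  have e4 := sq_nonneg ((1 - a) - (a - b))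
  have e5 := sq_nonneg ((1 - a) - b)
  have e6 := sq_nonneg ((a - b) - b)
  have e7 : (1 - a) * (a ^ 2 - a * b + b ^ 2 - 1 / 3) +
      (a - b) * ((a - 1) ^ 2 - (a - 1) * b + b ^ 2 - 1 / 3) +
      b * ((a - 1) ^ 2 - (a - 1) * (b - 1) + (b - 1) ^ 2 - 1 / 3) =
      -(1 / 6) * (((1 - a) - (a - b)) ^ 2 + ((1 - a) - b) ^ 2 + ((a - b) - b) ^ 2) := by
    ring
  have e8 : ((1 - a) - b) ^ 2 = 0 := le_antisymm (by linarith) e5
  have e9 : ((a - b) - b) ^ 2 = 0 := le_antisymm (by linarith) e6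
  have f1 : (1 - a) - b = 0 := pow_eq_zero_iff (two_ne_zero) |>.1 e8
  have f2 : (a - b) - b = 0 := pow_eq_zero_iff (two_ne_zero) |>.1 e9
  constructor <;> linarith

theorem oz_hole (hw : w ^ 2 + w + 1 = 0) (z : ℂ) (h : ∀ β ∈ Oz w, 1 / 3 ≤ Complex.normSq (z - β)) : (1 - w) * z ∈ Oz w := by
  obtain ⟨h1, h2⟩ := w_re hw
  have him : w.im ≠ 0 := by
    intro h0
    rw [h0] at h2
    norm_num at h2
  have hn : ∀ a b : ℝ, Complex.normSq ((a : ℂ) + b * w) = a ^ 2 - a * b + b ^ 2 := by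
    intro a b
    rw [Complex.normSq_apply]
    simp only [Complex.add_re, Complex.add_im, Complex.mul_re, Complex.mul_im, Complex.ofReal_re, Complex.ofReal_im, h1]
    nlinarith [h2]
  obtain ⟨a, b, hz⟩ : ∃ a b : ℝ, z = (a : ℂ) + b * w := by
    refine ⟨z.re + z.im / w.im / 2, z.im / w.im, ?_⟩
    apply Complex.ext
    · simp only [Complex.add_re, Complex.mul_re, Complex.ofReal_re, Complex.ofReal_im, h1]
      ring
    · simp only [Complex.add_im, Complex.mul_im, Complex.ofReal_re, Complex.ofReal_im]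
      field_simp
      ring
  have hv : ∀ m k : ℤ, Complex.normSq (z - ((m : ℂ) + k * w)) =
      (a - m) ^ 2 - (a - m) * (b - k) + (b - k) ^ 2 := by
    intro m k
    rw [← hn, hz]
    congr 1
    push_cast
    ring
  have hh : ∀ m k : ℤ, 1 / 3 ≤ (a - m) ^ 2 - (a - m) * (b - k) + (b - k) ^ 2 := by
    intro m k
    rw [← hv]
    exact h _ ⟨m, k, rfl⟩
  have ha0 := Int.fract_nonneg a
  have ha1 := Int.fract_lt_one a
  have hb0 := Int.fract_nonneg b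
  have hb1 := Int.fract_lt_one b
  have g1 := hh ⌊a⌋ ⌊b⌋
  have g2 := hh (⌊a⌋ + 1) ⌊b⌋
  have g3 := hh ⌊a⌋ (⌊b⌋ + 1)
  have g4 := hh (⌊a⌋ + 1) (⌊b⌋ + 1)
  push_cast at g2 g3 g4
  have ea : a - (⌊a⌋ + 1) = Int.fract a - 1 := by rw [Int.fract]; ring
  have eb : b - (⌊b⌋ + 1) = Int.fract b - 1 := by rw [Int.fract]; ring
  rw [Int.self_sub_floor, Int.self_sub_floor] at g1
  rw [ea, Int.self_sub_floor] at g2
  rw [eb, Int.self_sub_floor] at g3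
  rw [ea, eb] at g4
  have hlat : (1 - w) * ((⌊a⌋ : ℂ) + ⌊b⌋ * w) ∈ Oz w :=
    oz_mul hw (oz_sub oz_one oz_w) ⟨⌊a⌋, ⌊b⌋, rfl⟩
  have haf : (a : ℂ) = (⌊a⌋ : ℂ) + (Int.fract a : ℝ) := by
    have h5 : a = (⌊a⌋ : ℝ) + Int.fract a := (Int.floor_add_fract a).symm
    have h6 := congrArg (fun r : ℝ => (r : ℂ)) h5
    push_cast at h6
    exact h6
  have hbf : (b : ℂ) = (⌊b⌋ : ℂ) + (Int.fract b : ℝ) := by
    have h5 : b = (⌊b⌋ : ℝ) + Int.fract b := (Int.floor_add_fract b).symm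
    have h6 := congrArg (fun r : ℝ => (r : ℂ)) h5
    push_cast at h6
    exact h6
  rcases le_total (Int.fract b) (Int.fract a) with hab | hab
  · obtain ⟨e1, e2⟩ := prk_tri hb0 hab ha1 g1 g2 g4
    rw [e1] at haf
    rw [e2] at hbf
    have h7 : (1 - w) * z = (1 - w) * ((⌊a⌋ : ℂ) + ⌊b⌋ * w) + 1 := by
      rw [hz, haf, hbf]
      push_cast
      linear_combination (-1 / 3 : ℂ) * hw
    rw [h7]
    exact oz_add hlat oz_one
  · obtain ⟨e1, e2⟩ := prk_tri ha0 hab hb1 (by linarith) (by linarith) (by linarith)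
    rw [e1] at hbf
    rw [e2] at haf
    have h7 : (1 - w) * z = (1 - w) * ((⌊a⌋ : ℂ) + ⌊b⌋ * w) + (1 + w) := by
      rw [hz, haf, hbf]
      push_cast
      linear_combination (-2 / 3 : ℂ) * hw
    rw [h7]
    exact oz_add hlat (oz_add oz_one oz_w)

theorem NK.hol (h : NK Γ Δ w) (hm : ∀ A : SL(2, ℂ), cls A ∈ Δ → A.1 1 0 ≠ 0 → 3 ≤ Complex.normSq (A.1 1 0)) {A B : SL(2, ℂ)}
    (hA : cls A ∈ Δ) (hB : cls B ∈ Δ) (hA3 : Complex.normSq (A.1 1 0) = 3) (hB3 : Complex.normSq (B.1 1 0) = 3) :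
    (1 - w) * (pt A - pt B) ∈ Oz w := by
  have hA0 : A.1 1 0 ≠ 0 := by
    intro h0
    rw [h0, map_zero] at hA3
    norm_num at hA3
  have hB0 : B.1 1 0 ≠ 0 := by
    intro h0
    rw [h0, map_zero] at hB3
    norm_num at hB3
  by_cases hex : ∀ β ∈ Oz w, 1 / 3 ≤ Complex.normSq (pt A - pt B - β)
  · exact oz_hole h.w2 _ hex
  · push Not at hex
    obtain ⟨β, hβ, hlt⟩ := hex
    have hTB : (T β * B).1 1 0 = B.1 1 0 := by
      rw [nf_e10, nf_t10, nf_t11, zero_mul, zero_add, one_mul]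
    have hTB0 : (T β * B).1 1 0 ≠ 0 := by
      rw [hTB]
      exact hB0
    have h1 : (A⁻¹ * (T β * B)).1 1 0 = A.1 1 0 * B.1 1 0 * (pt A - pt B - β) := by
      rw [c_inv_mul hA0 hTB0, hTB, pt_T β hB0]
      ring
    have h2 : cls (A⁻¹ * (T β * B)) ∈ Δ := by
      rw [cls_mul, cls_mul, cls_inv]
      exact Δ.mul_mem (Δ.inv_mem hA) (Δ.mul_mem (h.t_mem hβ) hB)
    have h3 : (A⁻¹ * (T β * B)).1 1 0 = 0 := by
      by_contra h0
      have h4 := hm _ h2 h0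
      rw [h1, map_mul, map_mul, hA3, hB3] at h4
      linarith
    rw [h1] at h3
    have h5 : pt A - pt B = β := by
      rcases mul_eq_zero.1 h3 with h6 | h6
      · exact absurd h6 (mul_ne_zero hA0 hB0)
      · exact sub_eq_zero.1 h6
    rw [h5]
    exact oz_mul h.w2 (oz_sub oz_one oz_w) hβ

end Pool.Agent.HSC
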