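import Pool.Agent.HSC.Tre
import Pool.Agent.HSC.Nr3

/-!
# HSC/Sec: parameters in the sector

`MinW.sector`: `chk_sound` with `tree_ok` (`s = 1`, `(a, b) = (3, 1)`: from `2.1 ≤ ‖q‖ ≤ 3`, `normSq q = x ^ 2 - x y + y ^ 2` and `0 ≤ 2 y ≤ x` get `2 ≤ x ≤ 4`, `y ≤ 2`) gives the neighbourhood of `3` (`near_three`) or the vanishing
of one of the three words `sps`: `P = q ^ 2 - 3 q + 1`, `P = (q - 1) (q - (3 + w))`, `P = w ^ 2 (q ^ 2 - (4 + 2 w) q + 2 (1 + w))` (unfold `pr`, `ew`, reduce with `w ^ 2 = -w - 1`).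
`exists_sector`: write `q = x + y w` (real `x`, `y`; `w` is not real); multiplication by `-w ^ 2 = 1 + w` is the rotation by `60` degrees (or `-60`); after conjugation (`conj w = w ^ 2 = -1 - w`, so `conj (x + y w) = (x - y) - y w`) the sector
`0 ≤ 2 y ≤ x` is a fundamental domain.  (Case distinction on the signs of `y`, `x - y`, `x`, ... ; `u ∈ {1, -1, w, -w, w ^ 2, -w ^ 2}`; or maximise `Re (u q)`.)
-/

set_option autoImplicit false

noncomputable section

namespace Pool.Agent.HSC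

open Pool.Agent.HSK Pool.Agent.HSG Matrix
open scoped MatrixGroups commutatorElement

variable {w q : ℂ}

private theorem Sec_w (hw : w ^ 2 + w + 1 = 0) : w.re = -(1 / 2) ∧ w.im * w.im = 3 / 4 := by
  have h1 := congrArg Complex.re hw
  have h2 := congrArg Complex.im hw
  rw [pow_two] at h1 h2
  simp only [Complex.add_re, Complex.mul_re, Complex.one_re, Complex.zero_re, Complex.add_im, Complex.mul_im,
    Complex.one_im, Complex.zero_im, add_zero] at h1 h2
  have h3 : w.im * (2 * w.re + 1) = 0 := by linarith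
  rcases mul_eq_zero.1 h3 with h | h
  · rw [h] at h1
    nlinarith [sq_nonneg (w.re + 1 / 2)]
  · have h4 : w.re = -(1 / 2) := by linarith
    refine ⟨h4, ?_⟩
    rw [h4] at h1
    linarith

private theorem Sec_norm (hw : w ^ 2 + w + 1 = 0) {x y : ℝ} (hq : q = x + y * w) :
    ‖q‖ ^ 2 = x ^ 2 - x * y + y ^ 2 := by
  obtain ⟨h1, h2⟩ := Sec_w hw
  rw [Complex.sq_norm, Complex.normSq_apply, hq]
  simp only [Complex.add_re, Complex.ofReal_re, Complex.mul_re, Complex.ofReal_im, Complex.add_im, Complex.mul_im,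
    zero_mul, sub_zero, add_zero, zero_add]
  rw [h1]
  linear_combination y ^ 2 * h2

theorem MinW.sector (hw : w ^ 2 + w + 1 = 0) (hM : MinW w q) {x y : ℝ} (hq : q = x + y * w) (h0 : 0 ≤ y) (h1 : 2 * y ≤ x)
    (h2 : 2.1 ≤ ‖q‖) (h3 : ‖q‖ ≤ 3) :
    q = 3 ∨ q ^ 2 - 3 * q + 1 = 0 ∨ (q - 1) * (q - (3 + w)) = 0 ∨ q ^ 2 - (4 + 2 * w) * q + 2 * (1 + w) = 0 := by
  have hn := Sec_norm hw hq
  have hn0 : 0 ≤ ‖q‖ := norm_nonneg q
  have hb1 : 4.41 ≤ x ^ 2 - x * y + y ^ 2 := by
    rw [← hn]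
    nlinarith
  have hb2 : x ^ 2 - x * y + y ^ 2 ≤ 9 := by
    rw [← hn]
    nlinarith
  have hx2 : 2 ≤ x := by
    by_contra hc
    push Not at hc
    nlinarith [mul_nonneg h0 (by linarith : 0 ≤ x - y)]
  have hx4 : x ≤ 4 := by
    by_contra hc
    push Not at hc
    nlinarith [sq_nonneg (y - x / 2)]
  rcases chk_sound hw hM hq h0 h1 h2 h3 tree (s := 1) (a := 3) (b := 1) one_pos
    (by
      rw [abs_le]
      push_cast
      constructor <;> linarith)
    (by
      rw [abs_le]
      push_cast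
      constructor <;> linarith) tree_ok with h | ⟨i, hi, h⟩
  · exact Or.inl (near_three hw hM hq h.1 h0 h.2 h3)
  · have hi3 : i < 3 := hi
    interval_cases i
    · right
      left
      have h' : (pr q [ew w (1, 0), ew w (1, 0), ew w (1, 0), ew w (1, 0)]).1 = 0 := h
      simp [pr, ew] at h'
      linear_combination h'
    · right
      right
      left
      have h' : (pr q [ew w (1, 1), ew w (0, -1), ew w (1, 0), ew w (1, 0), ew w (1, 0)]).1 = 0 := h
      simp [pr, ew] at h'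
      linear_combination h' + (q * (q - 2)) * hw
    · right
      right
      right
      have h' : (pr q [ew w (-1, -1), ew w (1, 1), ew w (0, -1), ew w (1, 0), ew w (1, 0)]).1 = 0 := h
      simp [pr, ew] at h'
      have hw0 : w ^ 2 ≠ 0 := by
        intro hz
        have h4 : w = 0 := pow_eq_zero_iff (two_ne_zero) |>.1 hz
        rw [h4] at hw
        norm_num at hw
      have h5 : w ^ 2 * (q ^ 2 - (4 + 2 * w) * q + 2 * (1 + w)) = 0 := by
        linear_combination h' + (-(2 * w + 1) * q + 2 * w - w * q * (q - 1) - q) * hw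
      exact (mul_eq_zero.1 h5).resolve_left hw0

theorem exists_sector (hw : w ^ 2 + w + 1 = 0) (q : ℂ) :
    ∃ u : ℂ, u ^ 6 = 1 ∧ ∃ x y : ℝ, 0 ≤ y ∧ 2 * y ≤ x ∧ (u * q = x + y * w ∨ (starRingEnd ℂ) (u * q) = x + y * w) := by
  obtain ⟨hre, him⟩ := Sec_w hw
  have him0 : w.im ≠ 0 := by
    intro h
    rw [h] at him
    norm_num at him
  have h6 : (1 + w) ^ 6 = 1 := by
    have e : (1 + w) ^ 6 - 1 = (w ^ 2 + w + 1) * (w ^ 4 + 5 * w ^ 3 + 9 * w ^ 2 + 6 * w) := by ring
    rw [hw, zero_mul] at e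
    exact sub_eq_zero.1 e
  have h6' : (-w) ^ 6 = 1 := by
    have e : (-w) ^ 6 - 1 = (w ^ 2 + w + 1) * (w ^ 4 - w ^ 3 + w - 1) := by ring
    rw [hw, zero_mul] at e
    exact sub_eq_zero.1 e
  obtain ⟨u, hu, hmax⟩ := Finset.exists_max_image (Polynomial.nthRootsFinset 6 (1 : ℂ)) (fun u => (u * q).re)
    ⟨1, (Polynomial.mem_nthRootsFinset (by norm_num) _).2 (one_pow 6)⟩
  rw [Polynomial.mem_nthRootsFinset (by norm_num)] at hu
  have m1 := hmax (u * (1 + w)) ((Polynomial.mem_nthRootsFinset (by norm_num) _).2 (by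
    rw [mul_pow, hu, h6, one_mul]))
  have m2 := hmax (u * (-w)) ((Polynomial.mem_nthRootsFinset (by norm_num) _).2 (by
    rw [mul_pow, hu, h6', one_mul]))
  obtain ⟨x, y, hz⟩ : ∃ x y : ℝ, u * q = x + y * w := by
    refine ⟨(u * q).re + (u * q).im / w.im / 2, (u * q).im / w.im, ?_⟩
    apply Complex.ext
    · simp only [Complex.add_re, Complex.ofReal_re, Complex.mul_re, Complex.ofReal_im, zero_mul, sub_zero]
      rw [hre]
      ring
    · simp only [Complex.add_im, Complex.ofReal_re, Complex.mul_im, Complex.ofReal_im, zero_mul, add_zero, zero_add]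
      field_simp
  have e1 : u * (1 + w) * q = ((x - y : ℝ) : ℂ) + (x : ℝ) * w := by
    push_cast
    linear_combination (1 + w) * hz + y * hw
  have e2 : u * (-w) * q = ((y : ℝ) : ℂ) + ((y - x : ℝ) : ℂ) * w := by
    push_cast
    linear_combination (-w) * hz - y * hw

  rw [e1, hz] at m1
  rw [e2, hz] at m2
  simp only [Complex.add_re, Complex.ofReal_re, Complex.mul_re, Complex.ofReal_im, zero_mul, sub_zero] at m1 m2
  rw [hre] at m1 m2
  refine ⟨u, hu, ?_⟩
  rcases le_total 0 y with hy | hy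
  · exact ⟨x, y, hy, by linarith, Or.inl hz⟩
  · refine ⟨x - y, -y, by linarith, by linarith, Or.inr ?_⟩
    rw [hz]
    apply Complex.ext
    · simp only [map_add, map_mul, Complex.conj_ofReal, Complex.add_re, Complex.ofReal_re, Complex.mul_re,
        Complex.ofReal_im, zero_mul, sub_zero, Complex.conj_re]
      rw [hre]
      simp
      ring
    · simp

end Pool.Agent.HSC
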